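import Pool.Agent.Run7.h278.LI.Grow

set_option autoImplicit false

/-!
# Completed L-functions and their products
-/

namespace Run7.h278.LI

open Complex Filter Topology Metric Set
open scoped ComplexConjugate

/-- `Λ` is entire of order less than two, has a functional equation, grows fast on the positive real axis, and is `G` in a right half-plane. -/
structure Adm (w : ℂ) (Λ G : ℂ → ℂ) : Prop where
  norm : ‖w‖ = 1
  diff : Differentiable ℂ Λ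
  fe : ∀ s, Λ (1 - s) = w * conj (Λ (conj s))
  gr : Gr32 Λ
  up : Up Λ
  eq : ∃ σ : ℝ, ∀ s : ℂ, σ ≤ s.re → Λ s = G s

theorem adm_of {w : ℂ} {Λ : ℂ → ℂ} (hw : ‖w‖ = 1) (hd : Differentiable ℂ Λ)
    (fe : ∀ s, Λ (1 - s) = w * conj (Λ (conj s)))
    (order : ∃ A ρ : ℝ, ∀ s : ℂ, ‖Λ s‖ ≤ Real.exp (A * (1 + ‖s‖) ^ ρ))
    {Q : ℝ} (hQ : 0 < Q) {l : List ℂ} (hl : l ≠ []) {r : ℕ} {Lf : ℂ → ℂ}
    (hdir : ∃ σ : ℝ, ∀ s : ℂ, σ ≤ s.re → Λ s = Gfun Q l r Lf s)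
    (hL1 : Tendsto (fun x : ℝ => Lf x) atTop (𝓝 1))
    (hL : ∃ σ C : ℝ, ∀ s : ℂ, σ ≤ s.re → ‖Lf s‖ ≤ C) : Adm w Λ (Gfun Q l r Lf) := by
  refine ⟨hw, hd, fe, grow_all hd hw fe order ?_, up_of hQ hl hdir hL1, hdir⟩
  obtain ⟨σ, h⟩ := hdir
  exact (RB.Gfun hQ hl r hL).mono ⟨σ, fun s hs => by rw [h s hs]⟩

theorem Adm.mul {w1 w2 : ℂ} {Λ1 Λ2 G1 G2 : ℂ → ℂ} (h1 : Adm w1 Λ1 G1) (h2 : Adm w2 Λ2 G2) :
    Adm (w1 * w2) (fun s => Λ1 s * Λ2 s) (fun s => G1 s * G2 s) := by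
  refine ⟨by rw [norm_mul, h1.norm, h2.norm, mul_one], h1.diff.mul h2.diff, fun s => ?_, ?_, ?_, ?_⟩
  · rw [h1.fe, h2.fe, map_mul]
    ring
  · obtain ⟨K1, hK1⟩ := h1.gr
    obtain ⟨K2, hK2⟩ := h2.gr
    refine ⟨K1 + K2, fun s => ?_⟩
    rw [norm_mul]
    calc ‖Λ1 s‖ * ‖Λ2 s‖ ≤ Real.exp (K1 * (1 + ‖s‖) ^ (3 / 2 : ℝ)) * Real.exp (K2 * (1 + ‖s‖) ^ (3 / 2 : ℝ)) :=
          mul_le_mul (hK1 s) (hK2 s) (norm_nonneg _) (Real.exp_pos _).le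
      _ = _ := by
          rw [← Real.exp_add]
          congr 1
          ring
  · obtain ⟨a1, b1⟩ := h1.up
    obtain ⟨a2, b2⟩ := h2.up
    refine ⟨?_, ?_⟩
    · filter_upwards [a1, a2] with x h1 h2
      exact mul_ne_zero h1 h2
    · refine (b1.atTop_mul_atTop₀ b2).congr fun x => ?_
      rw [norm_mul, norm_mul, div_mul_div_comm]
  · obtain ⟨σ1, e1⟩ := h1.eq
    obtain ⟨σ2, e2⟩ := h2.eq
    refine ⟨max σ1 σ2, fun s hs => ?_⟩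
    rw [e1 s ((le_max_left _ _).trans hs), e2 s ((le_max_right _ _).trans hs)]

theorem Adm.congr {w : ℂ} {Λ G G' : ℂ → ℂ} (h : Adm w Λ G) (e : ∃ σ : ℝ, ∀ s : ℂ, σ ≤ s.re → G s = G' s) :
    Adm w Λ G' := by
  obtain ⟨σ1, e1⟩ := h.eq
  obtain ⟨σ2, e2⟩ := e
  exact ⟨h.norm, h.diff, h.fe, h.gr, h.up, max σ1 σ2, fun s hs =>
    (e1 s ((le_max_left _ _).trans hs)).trans (e2 s ((le_max_right _ _).trans hs))⟩

theorem adm_list {ι : Type} (G : ι → ℂ → ℂ) (h : ∀ i, ∃ (w : ℂ) (Λ : ℂ → ℂ), Adm w Λ (G i))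
    (l : List ι) (hl : l ≠ []) :
    ∃ (w : ℂ) (Λ : ℂ → ℂ), Adm w Λ (fun s => (l.map fun i => G i s).prod) := by
  induction l with
  | nil => exact absurd rfl hl
  | cons i l ih =>
    rcases eq_or_ne l [] with rfl | hne
    · obtain ⟨w, Λ, hg⟩ := h i
      refine ⟨w, Λ, ?_⟩
      have e : (fun s => (([i] : List ι).map fun i => G i s).prod) = G i := by
        funext s
        simp
      rw [e]
      exact hg
    · obtain ⟨w1, Λ1, h1⟩ := h i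
      obtain ⟨w2, Λ2, h2⟩ := ih hne
      refine ⟨w1 * w2, fun s => Λ1 s * Λ2 s, ?_⟩
      have e : (fun s => ((i :: l).map fun i => G i s).prod) =
          fun s => G i s * (l.map fun i => G i s).prod := by
        funext s
        simp
      rw [e]
      exact h1.mul h2

theorem Adm.facts {w : ℂ} {Λ G : ℂ → ℂ} (h : Adm w Λ G) {σ a : ℝ} (hσ : 1 / 2 ≤ σ) (ha : σ < a)
    (hne : Λ a ≠ 0) : LiFacts (liC Λ σ a) (ZF Λ σ) (∀ t : ℝ, a ≤ t → Λ t ≠ 0) :=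
  ent_facts h.diff h.norm h.fe h.gr h.up hσ ha hne

theorem zf_half' {w : ℂ} {Λ : ℂ → ℂ} (fe : ∀ s, Λ (1 - s) = w * conj (Λ (conj s))) :
    ZF Λ (1 / 2) ↔ ∀ s, Λ s = 0 → s.re = 1 / 2 := by
  constructor
  · intro h s hs
    refine le_antisymm (h s hs) ?_
    have h1 : Λ (1 - conj s) = 0 := by
      rw [fe, Complex.conj_conj, hs, map_zero, mul_zero]
    have := h _ h1
    rw [Complex.sub_re, Complex.one_re, Complex.conj_re] at this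
    linarith
  · intro h s hs
    exact (h s hs).le

/-- uniqueness of the continuation -/
theorem ent_uniq {Λ Λ' G : ℂ → ℂ} (h : Differentiable ℂ Λ) (h' : Differentiable ℂ Λ')
    (e : ∃ σ : ℝ, ∀ s : ℂ, σ ≤ s.re → Λ s = G s) (e' : ∃ σ : ℝ, ∀ s : ℂ, σ ≤ s.re → Λ' s = G s) : Λ' = Λ := by
  obtain ⟨σ1, e1⟩ := e
  obtain ⟨σ2, e2⟩ := e'
  refine AnalyticOnNhd.eq_of_eventuallyEq (𝕜 := ℂ) (z₀ := ((max σ1 σ2 + 1 : ℝ) : ℂ))
    (fun z _ => h'.analyticAt z) (fun z _ => h.analyticAt z) ?_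
  have hopen : IsOpen {z : ℂ | max σ1 σ2 < z.re} := isOpen_lt continuous_const Complex.continuous_re
  filter_upwards [hopen.mem_nhds (show ((max σ1 σ2 + 1 : ℝ) : ℂ) ∈ {z : ℂ | max σ1 σ2 < z.re} by
    show max σ1 σ2 < _
    rw [Complex.ofReal_re]
    linarith)] with z hz
  have hz' : max σ1 σ2 < z.re := hz
  rw [e1 z ((le_max_left _ _).trans hz'.le), e2 z ((le_max_right _ _).trans hz'.le)]

end Run7.h278.LI
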