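import Mathlib

set_option autoImplicit false

/-!
# Sets of Bohr recurrence and oscillation of exponential sums
-/

namespace Run7.h278.LI

open Finset

/-- a set of Bohr recurrence -/
def BohrRec (S : Set ℕ) : Prop :=
  ∀ (k : ℕ) (θ : Fin k → ℝ) (ε : ℝ), 0 < ε → ∃ n ∈ S, 0 < n ∧ ∀ i, ∃ m : ℤ, |(n : ℝ) * θ i - m| < ε

theorem BohrRec.large {S : Set ℕ} (hS : BohrRec S) (k : ℕ) (θ : Fin k → ℝ) (ε : ℝ) (hε : 0 < ε) (N : ℕ) :
    ∃ n ∈ S, N ≤ n ∧ 0 < n ∧ ∀ i, ∃ m : ℤ, |(n : ℝ) * θ i - m| < ε := by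
  have hN : (0 : ℝ) < 2 * (N + 1) := by positivity
  obtain ⟨n, hn, hn0, h⟩ := hS (k + 1) (Fin.cons (1 / (2 * (N + 1) : ℝ)) θ) (min ε (1 / (2 * (N + 1) : ℝ)))
    (lt_min hε (by positivity))
  refine ⟨n, hn, ?_, hn0, fun i => ?_⟩
  · by_contra hlt
    push Not at hlt
    obtain ⟨m, hm⟩ := h 0
    rw [Fin.cons_zero] at hm
    have hm2 := hm.trans_le (min_le_right _ _)
    have h1 : (1 : ℝ) ≤ n := by exact_mod_cast hn0
    have h2 : (n : ℝ) ≤ N := by exact_mod_cast hlt.le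
    have h3 : |(n : ℝ) - m * (2 * (N + 1))| < 1 := by
      have e : (n : ℝ) - m * (2 * (N + 1)) = ((n : ℝ) * (1 / (2 * (N + 1))) - m) * (2 * (N + 1)) := by
        field_simp
      rw [e, abs_mul, abs_of_pos hN]
      calc _ < 1 / (2 * (N + 1) : ℝ) * (2 * (N + 1)) := by gcongr
        _ = 1 := by field_simp
    have h4 : |((n : ℤ) - m * (2 * (N + 1)) : ℤ)| < 1 := by exact_mod_cast h3
    rw [Int.abs_lt_one_iff] at h4
    have h5 : (n : ℤ) = m * (2 * (N + 1)) := by linarith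
    have h6 : (0 : ℤ) < n := by exact_mod_cast hn0
    have h7 : (n : ℤ) < N := by exact_mod_cast hlt
    have h8 : 0 < m := by
      by_contra h9
      push Not at h9
      nlinarith
    nlinarith
  · obtain ⟨m, hm⟩ := h i.succ
    rw [Fin.cons_succ] at hm
    exact ⟨m, hm.trans_le (min_le_left _ _)⟩

theorem unit_near {ω : ℂ} (hω : ‖ω‖ = 1) {n : ℕ} {m : ℤ} {ε : ℝ}
    (hm : |(n : ℝ) * (ω.arg / (2 * Real.pi)) - m| < ε / (2 * Real.pi)) : ‖ω ^ n - 1‖ < ε := by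
  have h2π : (0 : ℝ) < 2 * Real.pi := by positivity
  set x : ℝ := (n : ℝ) * (ω.arg / (2 * Real.pi)) - m with hx
  have e1 : ω = Complex.exp (ω.arg * Complex.I) := by
    conv_lhs => rw [← Complex.norm_mul_exp_arg_mul_I ω, hω]
    simp
  have e2 : ω ^ n = Complex.exp (((2 * Real.pi * x : ℝ) : ℂ) * Complex.I) := by
    rw [e1, ← Complex.exp_nat_mul]
    have e3 : (n : ℂ) * (ω.arg * Complex.I) =
        (((2 * Real.pi * x : ℝ) : ℂ) * Complex.I) + m * (2 * Real.pi * Complex.I) := by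
      rw [hx]
      push_cast
      have : (Real.pi : ℂ) ≠ 0 := by exact_mod_cast Real.pi_ne_zero
      field_simp
      ring
    rw [e3, Complex.exp_add, Complex.exp_int_mul_two_pi_mul_I, mul_one]
  rw [e2, mul_comm _ Complex.I]
  refine (Real.norm_exp_I_mul_ofReal_sub_one_le).trans_lt ?_
  rw [Real.norm_eq_abs, abs_mul, abs_of_pos h2π]
  calc 2 * Real.pi * |x| < 2 * Real.pi * (ε / (2 * Real.pi)) := by gcongr
    _ = ε := by field_simp

/-- recurrence for unimodular numbers -/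
theorem BohrRec.unit {S : Set ℕ} (hS : BohrRec S) {k : ℕ} (ω : Fin k → ℂ) (hω : ∀ i, ‖ω i‖ = 1)
    (ε : ℝ) (hε : 0 < ε) (N : ℕ) : ∃ n ∈ S, N ≤ n ∧ 0 < n ∧ ∀ i, ‖ω i ^ n - 1‖ < ε := by
  obtain ⟨n, hn, hN, hn0, h⟩ := hS.large k (fun i => (ω i).arg / (2 * Real.pi)) (ε / (2 * Real.pi))
    (by positivity) N
  refine ⟨n, hn, hN, hn0, fun i => ?_⟩
  obtain ⟨m, hm⟩ := h i
  exact unit_near (hω i) hm

/-- a bound for the sums of the powers of a unimodular number, `0` for the number `1` -/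
noncomputable def cb (β : ℂ) : ℝ := if β = 1 then 0 else 2 / ‖β - 1‖

theorem cb_nonneg (β : ℂ) : 0 ≤ cb β := by
  unfold cb
  split_ifs <;> positivity

theorem sum_pow_bound {β : ℂ} (h : ‖β‖ = 1) (h1 : β ≠ 1) (a L : ℕ) :
    ‖∑ n ∈ Ico a (a + L), β ^ n‖ ≤ cb β := by
  rw [Finset.sum_Ico_eq_sum_range]
  simp only [pow_add, ← Finset.mul_sum, add_tsub_cancel_left]
  rw [geom_sum_eq h1, norm_mul, norm_pow, h, one_pow, one_mul, norm_div]
  unfold cb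
  rw [if_neg h1]
  gcongr
  calc ‖β ^ L - 1‖ ≤ ‖β ^ L‖ + ‖(1 : ℂ)‖ := norm_sub_le _ _
    _ = 2 := by rw [norm_pow, h]; norm_num

theorem sum_pow_re_ge {β : ℂ} (h : ‖β‖ = 1) (a L : ℕ) : -cb β ≤ (∑ n ∈ Ico a (a + L), β ^ n).re := by
  by_cases h1 : β = 1
  · subst h1
    unfold cb
    simp
  · have := (Complex.abs_re_le_norm _).trans (sum_pow_bound h h1 a L)
    rw [abs_le] at this
    exact this.1

theorem re_mul_re (z w : ℂ) (n : ℕ) : (z ^ n).re * (w ^ n).re =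
    ((z * w) ^ n).re / 2 + ((z * (starRingEnd ℂ) w) ^ n).re / 2 := by
  rw [mul_pow, mul_pow, ← map_pow]
  simp only [Complex.mul_re, Complex.conj_re, Complex.conj_im]
  ring

variable {m : ℕ}

/-- the oscillating sum -/
noncomputable def osc (ω : Fin m → ℂ) (n : ℕ) : ℝ := (∑ i, ω i ^ n).re

theorem osc_sum_bound (ω : Fin m → ℂ) (hω : ∀ i, ‖ω i‖ = 1) (h1 : ∀ i, ω i ≠ 1) (a L : ℕ) :
    |∑ n ∈ Ico a (a + L), osc ω n| ≤ ∑ i, cb (ω i) := by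
  have e : ∑ n ∈ Ico a (a + L), osc ω n = (∑ i, ∑ n ∈ Ico a (a + L), ω i ^ n).re := by
    unfold osc
    rw [Finset.sum_comm, Complex.re_sum]
  rw [e]
  refine (Complex.abs_re_le_norm _).trans ((norm_sum_le _ _).trans ?_)
  exact Finset.sum_le_sum fun i _ => sum_pow_bound (hω i) (h1 i) a L

theorem osc_corr (ω : Fin (m + 1) → ℂ) (hω : ∀ i, ‖ω i‖ = 1) : ∃ C : ℝ, ∀ a L : ℕ,
    (L : ℝ) / 2 - C ≤ ∑ n ∈ Ico a (a + L), |osc ω n| := by
  refine ⟨∑ i, (cb (ω i * ω 0) / 2 + cb (ω i * (starRingEnd ℂ) (ω 0)) / 2), fun a L => ?_⟩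
  have hu : ∀ i, ‖ω i * ω 0‖ = 1 := fun i => by rw [norm_mul, hω, hω, one_mul]
  have hv : ∀ i, ‖ω i * (starRingEnd ℂ) (ω 0)‖ = 1 := fun i => by
    rw [norm_mul, Complex.norm_conj, hω, hω, one_mul]
  have h0 : ω 0 * (starRingEnd ℂ) (ω 0) = 1 := by
    rw [Complex.mul_conj, Complex.normSq_eq_norm_sq, hω]
    simp
  have e1 : ∑ n ∈ Ico a (a + L), osc ω n * (ω 0 ^ n).re =
      ∑ i, ((∑ n ∈ Ico a (a + L), (ω i * ω 0) ^ n).re / 2 +
        (∑ n ∈ Ico a (a + L), (ω i * (starRingEnd ℂ) (ω 0)) ^ n).re / 2) := by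
    unfold osc
    simp only [Complex.re_sum, Finset.sum_mul, Finset.sum_div, ← Finset.sum_add_distrib]
    rw [Finset.sum_comm]
    refine Finset.sum_congr rfl fun i _ => Finset.sum_congr rfl fun n _ => ?_
    exact re_mul_re _ _ _
  have e2 : ∑ n ∈ Ico a (a + L), osc ω n * (ω 0 ^ n).re ≤ ∑ n ∈ Ico a (a + L), |osc ω n| := by
    refine Finset.sum_le_sum fun n _ => ?_
    have h3 : |(ω 0 ^ n).re| ≤ 1 := (Complex.abs_re_le_norm _).trans (by rw [norm_pow, hω, one_pow])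
    calc osc ω n * (ω 0 ^ n).re ≤ |osc ω n * (ω 0 ^ n).re| := le_abs_self _
      _ = |osc ω n| * |(ω 0 ^ n).re| := abs_mul _ _
      _ ≤ |osc ω n| * 1 := by gcongr
      _ = |osc ω n| := mul_one _
  refine le_trans ?_ e2
  rw [e1, Fin.sum_univ_succ, Fin.sum_univ_succ]
  have h4 : (∑ n ∈ Ico a (a + L), (ω 0 * (starRingEnd ℂ) (ω 0)) ^ n).re = L := by
    rw [h0]; simp
  have h5 : cb (ω 0 * (starRingEnd ℂ) (ω 0)) = 0 := by
    rw [h0]; unfold cb; simp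
  rw [h4, h5]
  have h6 := sum_pow_re_ge (hu 0) a L
  have h7 : ∑ i : Fin m, -(cb (ω i.succ * ω 0) / 2 + cb (ω i.succ * (starRingEnd ℂ) (ω 0)) / 2) ≤
      ∑ i : Fin m, ((∑ n ∈ Ico a (a + L), (ω i.succ * ω 0) ^ n).re / 2 +
        (∑ n ∈ Ico a (a + L), (ω i.succ * (starRingEnd ℂ) (ω 0)) ^ n).re / 2) := by
    refine Finset.sum_le_sum fun i _ => ?_
    have h8 := sum_pow_re_ge (hu i.succ) a L
    have h9 := sum_pow_re_ge (hv i.succ) a L
    linarith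
  rw [Finset.sum_neg_distrib] at h7
  linarith

/-- both signs in every long window -/
theorem osc_window (ω : Fin (m + 1) → ℂ) (hω : ∀ i, ‖ω i‖ = 1) (h1 : ∀ i, ω i ≠ 1) : ∃ L : ℕ, ∀ a : ℕ,
    (∃ n, a ≤ n ∧ n < a + L ∧ osc ω n ≤ -(1 / 8)) ∧ (∃ n, a ≤ n ∧ n < a + L ∧ 1 / 8 ≤ osc ω n) := by
  obtain ⟨C, hC⟩ := osc_corr ω hω
  obtain ⟨L, hL⟩ := exists_nat_gt (4 * (C + ∑ i, cb (ω i)))
  refine ⟨L, fun a => ?_⟩
  have h2 := hC a L
  have h3 := osc_sum_bound ω hω h1 a L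
  rw [abs_le] at h3
  constructor
  · by_contra hcon
    push Not at hcon
    have h4 : ∑ n ∈ Ico a (a + L), |osc ω n| ≤ ∑ n ∈ Ico a (a + L), (osc ω n + 1 / 4) := by
      refine Finset.sum_le_sum fun n hn => ?_
      rw [Finset.mem_Ico] at hn
      have := hcon n hn.1 hn.2
      rw [abs_le]
      constructor <;> linarith
    rw [Finset.sum_add_distrib, Finset.sum_const, Nat.card_Ico] at h4
    simp only [add_tsub_cancel_left, nsmul_eq_mul] at h4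
    linarith [h3.2]
  · by_contra hcon
    push Not at hcon
    have h4 : ∑ n ∈ Ico a (a + L), |osc ω n| ≤ ∑ n ∈ Ico a (a + L), (-osc ω n + 1 / 4) := by
      refine Finset.sum_le_sum fun n hn => ?_
      rw [Finset.mem_Ico] at hn
      have := hcon n hn.1 hn.2
      rw [abs_le]
      constructor <;> linarith
    rw [Finset.sum_add_distrib, Finset.sum_const, Nat.card_Ico, Finset.sum_neg_distrib] at h4
    simp only [add_tsub_cancel_left, nsmul_eq_mul] at h4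
    linarith [h3.1]

/-- `l n ≈ - R⁻ⁿ (∑ ω i ^ n)` -/
def Osc (l : ℕ → ℝ) : Prop := ∃ (m : ℕ) (ω : Fin (m + 1) → ℂ) (R C q : ℝ), 0 < R ∧ R < 1 ∧ 0 ≤ q ∧ q < 1 ∧
  (∀ i, ‖ω i‖ = 1 ∧ ω i ≠ 1) ∧ ∀ n : ℕ, 1 ≤ n → |l n * R ^ n + osc ω n| ≤ C * q ^ n

theorem eventually_small {C q : ℝ} (h0 : 0 ≤ q) (h1 : q < 1) {ε : ℝ} (hε : 0 < ε) :
    ∃ N : ℕ, ∀ n, N ≤ n → C * q ^ n ≤ ε := by
  have h := (tendsto_pow_atTop_nhds_zero_of_lt_one h0 h1).const_mul C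
  rw [mul_zero] at h
  exact Filter.eventually_atTop.1 (h.eventually_le_const hε)

/-- exponential growth -/
theorem exp_growth {R : ℝ} (h0 : 0 < R) (h1 : R < 1) {δ : ℝ} (hδ : 0 < δ) : ∃ c : ℝ, 0 < c ∧ ∃ N : ℕ,
    ∀ n : ℕ, N ≤ n → Real.exp (c * n) * R ^ n ≤ δ := by
  have hl : Real.log R < 0 := Real.log_neg h0 h1
  refine ⟨-Real.log R / 2, by linarith, ?_⟩
  obtain ⟨N, hN⟩ := exists_nat_gt (2 * Real.log δ / Real.log R)
  refine ⟨N, fun n hn => ?_⟩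
  have h2 : (N : ℝ) ≤ n := by exact_mod_cast hn
  have h3 : R ^ n = Real.exp (n * Real.log R) := by
    rw [Real.exp_nat_mul, Real.exp_log h0]
  rw [h3, ← Real.exp_add]
  have h4 : -Real.log R / 2 * n + n * Real.log R ≤ Real.log δ := by
    have h5 : 2 * Real.log δ / Real.log R < n := hN.trans_le h2
    rw [div_lt_iff_of_neg hl] at h5
    linarith
  calc _ ≤ Real.exp (Real.log δ) := Real.exp_le_exp.2 h4
    _ = δ := Real.exp_log hδ

/-- the weak form, where the `ω i` may be `1` -/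
def OscW (l : ℕ → ℝ) : Prop := ∃ (m : ℕ) (ω : Fin (m + 1) → ℂ) (R C q : ℝ), 0 < R ∧ R < 1 ∧ 0 ≤ q ∧ q < 1 ∧
  (∀ i, ‖ω i‖ = 1) ∧ ∀ n : ℕ, 1 ≤ n → |l n * R ^ n + osc ω n| ≤ C * q ^ n

theorem Osc.weak {l : ℕ → ℝ} (h : Osc l) : OscW l := by
  obtain ⟨m, ω, R, C, q, hR0, hR1, hq0, hq1, hω, hl⟩ := h
  exact ⟨m, ω, R, C, q, hR0, hR1, hq0, hq1, fun i => (hω i).1, hl⟩

/-- very negative values in a Bohr neighbourhood of zero -/
theorem OscW.nbhd {l : ℕ → ℝ} (h : OscW l) : ∃ c : ℝ, 0 < c ∧ ∃ (k : ℕ) (θ : Fin k → ℝ) (δ : ℝ), 0 < δ ∧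
    ∃ N : ℕ, ∀ n : ℕ, N ≤ n → (∀ i, ∃ m : ℤ, |(n : ℝ) * θ i - m| < δ) → l n ≤ -Real.exp (c * n) := by
  obtain ⟨m, ω, R, C, q, hR0, hR1, hq0, hq1, hω, hl⟩ := h
  obtain ⟨N1, hN1⟩ := eventually_small (C := C) hq0 hq1 (ε := 1 / 8) (by norm_num)
  obtain ⟨c, hc, N2, hN2⟩ := exp_growth hR0 hR1 (δ := 1 / 8) (by norm_num)
  refine ⟨c, hc, m + 1, fun i => (ω i).arg / (2 * Real.pi), (1 / 2) / (2 * Real.pi), by positivity,
    max 1 (max N1 N2), fun n hn hnear => ?_⟩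
  have hn0 : 1 ≤ n := (le_max_left _ _).trans hn
  have hrec : ∀ i, ‖ω i ^ n - 1‖ < 1 / 2 := by
    intro i
    obtain ⟨j, hj⟩ := hnear i
    exact unit_near (hω i) hj
  have a1 := hN1 n ((le_max_left _ _).trans ((le_max_right _ _).trans hn))
  have a2 := hN2 n ((le_max_right _ _).trans ((le_max_right _ _).trans hn))
  have a3 := (hl n hn0).trans a1
  rw [abs_le] at a3
  have hRn : 0 < R ^ n := by positivity
  have a4 : 1 / 2 ≤ osc ω n := by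
    have hi : ∀ i, 1 / 2 ≤ (ω i ^ n).re := by
      intro i
      have b1 := (Complex.abs_re_le_norm (ω i ^ n - 1)).trans (hrec i).le
      rw [Complex.sub_re, Complex.one_re, abs_le] at b1
      linarith [b1.1]
    unfold osc
    rw [Complex.re_sum, Fin.sum_univ_succ]
    have : 0 ≤ ∑ i : Fin m, (ω i.succ ^ n).re := Finset.sum_nonneg fun i _ => by linarith [hi i.succ]
    linarith [hi 0]
  by_contra hcon
  push Not at hcon
  have a5 : -Real.exp (c * n) * R ^ n < l n * R ^ n := mul_lt_mul_of_pos_right hcon hRn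
  nlinarith [a3.1, a3.2]

/-- very negative values along every set of Bohr recurrence -/
theorem OscW.bohr {l : ℕ → ℝ} (h : OscW l) : ∃ c : ℝ, 0 < c ∧ ∀ S : Set ℕ, BohrRec S → ∀ N : ℕ,
    ∃ n ∈ S, N ≤ n ∧ l n ≤ -Real.exp (c * n) := by
  obtain ⟨c, hc, k, θ, δ, hδ, N0, h⟩ := h.nbhd
  refine ⟨c, hc, fun S hS N => ?_⟩
  obtain ⟨n, hn, hN, _, hrec⟩ := hS.large k θ δ hδ (max N N0)
  exact ⟨n, hn, (le_max_left _ _).trans hN, h n ((le_max_right _ _).trans hN) hrec⟩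

theorem Osc.bohr {l : ℕ → ℝ} (h : Osc l) : ∃ c : ℝ, 0 < c ∧ ∀ S : Set ℕ, BohrRec S → ∀ N : ℕ,
    ∃ n ∈ S, N ≤ n ∧ l n ≤ -Real.exp (c * n) := h.weak.bohr

/-- large values of both signs in every long window -/
theorem Osc.window {l : ℕ → ℝ} (h : Osc l) : ∃ c : ℝ, 0 < c ∧ ∃ L N : ℕ, ∀ a : ℕ, N ≤ a →
    (∃ n, a ≤ n ∧ n < a + L ∧ Real.exp (c * n) ≤ l n) ∧
    (∃ n, a ≤ n ∧ n < a + L ∧ l n ≤ -Real.exp (c * n)) := by
  obtain ⟨m, ω, R, C, q, hR0, hR1, hq0, hq1, hω, hl⟩ := h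
  obtain ⟨N1, hN1⟩ := eventually_small (C := C) hq0 hq1 (ε := 1 / 32) (by norm_num)
  obtain ⟨c, hc, N2, hN2⟩ := exp_growth hR0 hR1 (δ := 1 / 32) (by norm_num)
  obtain ⟨L, hL⟩ := osc_window ω (fun i => (hω i).1) (fun i => (hω i).2)
  refine ⟨c, hc, L, max 1 (max N1 N2), fun a ha => ?_⟩
  obtain ⟨⟨n1, b1, b2, b3⟩, ⟨n2, d1, d2, d3⟩⟩ := hL a
  have key : ∀ n, a ≤ n → |l n * R ^ n + osc ω n| ≤ 1 / 32 ∧ Real.exp (c * n) * R ^ n ≤ 1 / 32 := by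
    intro n hn
    have h1 : max 1 (max N1 N2) ≤ n := ha.trans hn
    exact ⟨(hl n ((le_max_left _ _).trans h1)).trans
      (hN1 n ((le_max_left _ _).trans ((le_max_right _ _).trans h1))),
      hN2 n ((le_max_right _ _).trans ((le_max_right _ _).trans h1))⟩
  constructor
  · refine ⟨n1, b1, b2, ?_⟩
    obtain ⟨k1, k2⟩ := key n1 b1
    rw [abs_le] at k1
    have hRn : 0 < R ^ n1 := by positivity
    by_contra hcon
    push Not at hcon
    have := mul_lt_mul_of_pos_right hcon hRn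
    linarith [k1.1, k1.2]
  · refine ⟨n2, d1, d2, ?_⟩
    obtain ⟨k1, k2⟩ := key n2 d1
    rw [abs_le] at k1
    have hRn : 0 < R ^ n2 := by positivity
    by_contra hcon
    push Not at hcon
    have := mul_lt_mul_of_pos_right hcon hRn
    linarith [k1.1, k1.2]

end Run7.h278.LI
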