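import Mathlib

set_option autoImplicit false

/-!
# Taylor coefficients of logarithmic derivatives
-/

namespace Run7.h278.LI

open Complex Filter Topology Metric

/-- Taylor coefficients of the logarithmic derivative at `0` -/
noncomputable def cf (f : ℂ → ℂ) (n : ℕ) : ℂ := iteratedDeriv n (logDeriv f) 0 / (n.factorial : ℂ)

theorem cf_congr {f g : ℂ → ℂ} (h : f =ᶠ[𝓝 0] g) (n : ℕ) : cf f n = cf g n := by
  unfold cf
  have h1 : logDeriv f =ᶠ[𝓝 0] logDeriv g := by
    filter_upwards [h.eventually_nhds] with z hz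
    exact (logDeriv_congr_nhds hz).self_of_nhds
  rw [h1.iteratedDeriv_eq n]

theorem analyticAt_logDeriv {f : ℂ → ℂ} {x : ℂ} (hf : AnalyticAt ℂ f x) (h0 : f x ≠ 0) :
    AnalyticAt ℂ (logDeriv f) x := by
  unfold logDeriv
  exact hf.deriv.div hf h0

theorem cf_mul {f g : ℂ → ℂ} (hf : AnalyticAt ℂ f 0) (hg : AnalyticAt ℂ g 0) (hf0 : f 0 ≠ 0)
    (hg0 : g 0 ≠ 0) (n : ℕ) : cf (fun z => f z * g z) n = cf f n + cf g n := by
  unfold cf
  have h1 : logDeriv (fun z => f z * g z) =ᶠ[𝓝 0] logDeriv f + logDeriv g := by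
    filter_upwards [hf.eventually_analyticAt, hg.eventually_analyticAt,
      hf.continuousAt.eventually_ne hf0, hg.continuousAt.eventually_ne hg0] with z h1 h2 h3 h4
    exact logDeriv_mul z h3 h4 h1.differentiableAt h2.differentiableAt
  rw [h1.iteratedDeriv_eq n, iteratedDeriv_add (analyticAt_logDeriv hf hf0).contDiffAt
    (analyticAt_logDeriv hg hg0).contDiffAt, add_div]

theorem cf_const (c : ℂ) (n : ℕ) : cf (fun _ => c) n = 0 := by
  unfold cf
  have h : logDeriv (fun _ : ℂ => c) = fun _ => 0 := by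
    ext z
    simp [logDeriv_apply]
  rw [h, iteratedDeriv_const]
  simp

theorem cf_const_mul {f : ℂ → ℂ} (hf : AnalyticAt ℂ f 0) (hf0 : f 0 ≠ 0) {c : ℂ} (hc : c ≠ 0) (n : ℕ) :
    cf (fun z => c * f z) n = cf f n := by
  rw [cf_mul (f := fun _ => c) analyticAt_const hf hc hf0, cf_const, zero_add]

theorem cf_lin (b : ℂ) (n : ℕ) : cf (fun z => z - b) n = -(b⁻¹) ^ (n + 1) := by
  unfold cf
  have h : logDeriv (fun z : ℂ => z - b) = fun z => ((1 : ℂ) * z - b)⁻¹ := by
    ext z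
    rw [logDeriv_apply, deriv_sub_const]
    simp
  rw [h, iteratedDeriv_eq_iterate, iter_deriv_inv_linear_sub]
  have h2 : (n.factorial : ℂ) ≠ 0 := by exact_mod_cast n.factorial_ne_zero
  have h3 : ((1 : ℂ) * 0 - b) ^ (-1 - (n : ℤ)) = (-1) ^ (n + 1) * (b⁻¹) ^ (n + 1) := by
    rw [← mul_pow, show (-1 - (n : ℤ)) = -((n + 1 : ℕ) : ℤ) by push_cast; ring, zpow_neg, zpow_natCast,
      ← inv_pow]
    congr 1
    rw [mul_zero, zero_sub, inv_neg]
    ring
  beta_reduce
  rw [h3, one_pow, mul_one]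
  have h4 : ((-1 : ℂ)) ^ n * (-1) ^ (n + 1) = -1 := by
    rw [← pow_add, show n + (n + 1) = 2 * n + 1 by ring, pow_succ, pow_mul]
    simp
  rw [div_eq_iff h2]
  linear_combination (n.factorial : ℂ) * (b⁻¹) ^ (n + 1) * h4

theorem cf_bound {f : ℂ → ℂ} {r R : ℝ} (hr : 0 < r) (hrR : r < R) (hf : DifferentiableOn ℂ f (ball 0 R))
    (h0 : ∀ z ∈ closedBall (0 : ℂ) r, f z ≠ 0) : ∃ C : ℝ, 0 ≤ C ∧ ∀ n : ℕ, ‖cf f n‖ * r ^ n ≤ C := by
  have hsub : closedBall (0 : ℂ) r ⊆ ball 0 R := closedBall_subset_ball hrR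
  have hd : DifferentiableOn ℂ (logDeriv f) (closedBall 0 r) := by
    intro z hz
    have h1 : AnalyticAt ℂ f z := hf.analyticAt (isOpen_ball.mem_nhds (hsub hz))
    exact (analyticAt_logDeriv h1 (h0 z hz)).differentiableAt.differentiableWithinAt
  have hc : ContinuousOn (logDeriv f) (closedBall 0 r) := hd.continuousOn
  obtain ⟨C, hC⟩ := (isCompact_closedBall (0 : ℂ) r).exists_bound_of_continuousOn hc
  refine ⟨max C 0, le_max_right _ _, fun n => ?_⟩
  have h2 : DiffContOnCl ℂ (logDeriv f) (ball 0 r) := by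
    refine ⟨hd.mono ball_subset_closedBall, ?_⟩
    rw [closure_ball _ hr.ne']
    exact hc
  have h3 := norm_iteratedDeriv_le_of_forall_mem_sphere_norm_le n hr h2
    (fun z hz => hC z (sphere_subset_closedBall hz))
  have h4 : (0 : ℝ) < n.factorial := by exact_mod_cast n.factorial_pos
  have h5 : (0 : ℝ) < r ^ n := by positivity
  unfold cf
  rw [norm_div, Complex.norm_natCast]
  calc ‖iteratedDeriv n (logDeriv f) 0‖ / n.factorial * r ^ n
      ≤ (n.factorial * C / r ^ n) / n.factorial * r ^ n := by gcongr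
    _ = C := by field_simp
    _ ≤ max C 0 := le_max_left _ _

theorem iterD_tendsto {U : Set ℂ} (hU : IsOpen U) {F : ℕ → ℂ → ℂ} {f : ℂ → ℂ}
    (h : TendstoLocallyUniformlyOn F f atTop U) (hF : ∀ N, DifferentiableOn ℂ (F N) U) (n : ℕ) :
    TendstoLocallyUniformlyOn (fun N => iteratedDeriv n (F N)) (iteratedDeriv n f) atTop U ∧
      ∀ N, DifferentiableOn ℂ (iteratedDeriv n (F N)) U := by
  induction n with
  | zero => simpa [iteratedDeriv_zero] using ⟨h, hF⟩
  | succ n ih =>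
    obtain ⟨h1, h2⟩ := ih
    have h3 := h1.deriv (Eventually.of_forall h2) hU
    refine ⟨?_, fun N => ?_⟩
    · rw [iteratedDeriv_succ]
      refine h3.congr fun N z _ => ?_
      rw [iteratedDeriv_succ]
      rfl
    · rw [iteratedDeriv_succ]
      exact (h2 N).deriv hU

theorem cf_tendsto {U : Set ℂ} (hU : IsOpen U) (h0 : (0 : ℂ) ∈ U) {F : ℕ → ℂ → ℂ} {f : ℂ → ℂ}
    (h : TendstoLocallyUniformlyOn F f atTop U) (hF : ∀ N, DifferentiableOn ℂ (F N) U)
    (hne : ∀ z ∈ U, f z ≠ 0) (hneF : ∀ N, ∀ z ∈ U, F N z ≠ 0) (n : ℕ) :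
    Tendsto (fun N => cf (F N) n) atTop (𝓝 (cf f n)) := by
  have hf : DifferentiableOn ℂ f U := h.differentiableOn (Eventually.of_forall hF) hU
  have h1 := h.deriv (Eventually.of_forall hF) hU
  have h2 := h1.div₀ h (hf.deriv hU).continuousOn hf.continuousOn hne
  have h3 : TendstoLocallyUniformlyOn (fun N => logDeriv (F N)) (logDeriv f) atTop U := by
    refine h2.congr fun N z _ => ?_
    simp [logDeriv_apply]
  have h4 := (iterD_tendsto hU h3 (fun N => ((hF N).deriv hU).div (hF N) (hneF N)) n).1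
  exact (h4.tendsto_at h0).div_const _

end Run7.h278.LI
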