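import Pool.Agent.Run7.h278.LI.Gl
import Pool.Agent.W355.LC.Lst

set_option autoImplicit false

/-!
# Li coefficients of completed L-functions
-/

namespace Run7.h278.LI

open Complex Filter Topology Metric
open scoped ComplexConjugate
open Pool.Agent.H471R3.GJ (Dat)
open Pool.Agent.W355.GJ.Crit (Scale LogCriterion jensenP gamma Hyp)
open Pool.Agent.W355.LC (IsA IsCC IsLD LD datL rL kL scaleL rhL critL rh_double st st_diff GoodA pr)
open Pool.Agent.W355.LJ (Pc)

/-- the positive part -/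
theorem scale_half {D : Dat} {r : ℕ} {F : ℂ → ℂ} {c K : ℝ} (h : Scale D r F c K) {RH : Prop}
    (hlog : LogCriterion r F RH) (hF : Differentiable ℂ F) {η : ℝ} (hη : 0 ≤ η)
    (hZ : ∀ z : ℂ, D.XX z = 0 → c * |z.re| ≤ η) {β : ℝ} (hβ : 0 < β) (hne : F ((η + β : ℝ) : ℂ) ≠ 0) :
    PosRe (fun n => cf (fun z => F (η + cay β z)) n) ∧ 0 < (cf (fun z => F (η + cay β z)) 0).re := by
  have hc := h.hc
  have hcc : (c : ℂ) ≠ 0 := by exact_mod_cast hc.ne'
  have hKc : (K : ℂ) ≠ 0 := by exact_mod_cast h.hK.ne'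
  obtain ⟨hb1, hb2, hb3, -⟩ := Pool.Agent.W355.GJ.b1 D h.isL
  obtain ⟨K1, hK1⟩ := Pool.Agent.W355.GJ.grow D h.isL (Pool.Agent.W355.GJ.b1 D h.isL)
  set f : ℂ → ℂ := fun x => Pool.Agent.H471R3.GJ.FF D (((c ^ 2)⁻¹ : ℝ) * x) with hf
  have hfX : ∀ w : ℂ, f (w ^ 2) = D.XX (w / c) := by
    intro w
    rw [hf]
    beta_reduce
    rw [← hb2]
    congr 1
    push_cast
    field_simp
  have hFX : ∀ w : ℂ, F w = ((K : ℂ)⁻¹ * ((c : ℂ)⁻¹) ^ r) * (w ^ r * f (w ^ 2)) := by
    intro w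
    have h1 := h.hX (w / c)
    have h2 : (c : ℂ) * (w / c) = w := by field_simp
    rw [h2] at h1
    rw [hfX]
    rcases h.hr with hr | hr
    · subst hr
      simp only [pow_zero, one_mul, mul_one] at h1 ⊢
      rw [h1]
      field_simp
    · subst hr
      simp only [pow_one] at h1 ⊢
      field_simp at h1 ⊢
      linear_combination (-1 : ℂ) * h1
  have hfd : Differentiable ℂ f := by
    rw [hf]
    exact hb1.comp (by fun_prop)
  have hfc : ∀ x, f (conj x) = conj (f x) := by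
    intro x
    rw [hf]
    beta_reduce
    rw [← hb3, map_mul, Complex.conj_ofReal]
  have hfg : ∃ K : ℝ, ∀ x, ‖f x‖ ≤ Real.exp (K * (1 + ‖x‖) ^ (3 / 4 : ℝ)) := by
    refine ⟨|K1| * (1 + (c ^ 2)⁻¹) ^ (3 / 4 : ℝ), fun x => ?_⟩
    rw [hf]
    beta_reduce
    refine (hK1 _).trans (Real.exp_le_exp.2 ?_)
    have hcp : 0 < (c ^ 2)⁻¹ := by positivity
    have h1 : 1 + ‖(((c ^ 2)⁻¹ : ℝ) : ℂ) * x‖ ≤ (1 + (c ^ 2)⁻¹) * (1 + ‖x‖) := by
      rw [norm_mul, Complex.norm_real, Real.norm_eq_abs, abs_of_pos hcp]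
      nlinarith [norm_nonneg x]
    calc K1 * (1 + ‖(((c ^ 2)⁻¹ : ℝ) : ℂ) * x‖) ^ (3 / 4 : ℝ)
        ≤ |K1| * (1 + ‖(((c ^ 2)⁻¹ : ℝ) : ℂ) * x‖) ^ (3 / 4 : ℝ) := by
          gcongr
          exact le_abs_self K1
      _ ≤ |K1| * ((1 + (c ^ 2)⁻¹) * (1 + ‖x‖)) ^ (3 / 4 : ℝ) := by gcongr
      _ = |K1| * (1 + (c ^ 2)⁻¹) ^ (3 / 4 : ℝ) * (1 + ‖x‖) ^ (3 / 4 : ℝ) := by
          rw [Real.mul_rpow (by positivity) (by positivity)]
          ring
  have hfz : ∀ w, f (w ^ 2) = 0 → |w.re| ≤ η := by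
    intro w hw
    rw [hfX] at hw
    have := hZ _ hw
    rw [Complex.div_ofReal_re, abs_div, abs_of_pos hc] at this
    rwa [mul_div_cancel₀ _ hc.ne'] at this
  have hft : f (((η + β) ^ 2 : ℝ) : ℂ) ≠ 0 := by
    intro h0
    apply hne
    rw [hFX]
    push_cast at h0 ⊢
    rw [h0]
    ring
  obtain ⟨hpos, hneb⟩ := pos_half hfd hfc hfg hβ hft hfz
  have hC0 : ((K : ℂ)⁻¹ * ((c : ℂ)⁻¹) ^ r) ≠ 0 := mul_ne_zero (inv_ne_zero hKc) (pow_ne_zero _ (inv_ne_zero hcc))
  have A1 : AnalyticAt ℂ (fun z => f ((η + cay β z) ^ 2)) 0 :=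
    (hfd.comp_differentiableOn (((cay_diff β).const_add _).pow 2)).analyticAt
      (isOpen_ball.mem_nhds (mem_ball_self one_pos))
  have N1 : (fun z => f ((η + cay β z) ^ 2)) 0 ≠ 0 := hneb 0 (mem_ball_self one_pos)
  have A2 : AnalyticAt ℂ (fun z => (η : ℂ) + cay β z) 0 :=
    ((cay_diff β).const_add _).analyticAt (isOpen_ball.mem_nhds (mem_ball_self one_pos))
  have hre : ∀ z ∈ ball (0 : ℂ) 1, (η : ℂ) + cay β z ≠ 0 := by
    intro z hz h0
    have h1 := congrArg Complex.re h0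
    rw [Complex.add_re, Complex.ofReal_re, Complex.zero_re] at h1
    linarith [cay_re hβ hz]
  have N2 : (fun z => (η : ℂ) + cay β z) 0 ≠ 0 := hre 0 (mem_ball_self one_pos)
  have hseq : PosRe (fun n => cf (fun z => F (η + cay β z)) n) := by
    have e : (fun n => cf (fun z => F (η + cay β z)) n) =
        fun n => cf (fun z => ((η : ℂ) + cay β z) ^ r * f ((η + cay β z) ^ 2)) n := by
      ext n
      have e1 : (fun z => F (η + cay β z)) = fun z => ((K : ℂ)⁻¹ * ((c : ℂ)⁻¹) ^ r) *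
          (((η : ℂ) + cay β z) ^ r * f ((η + cay β z) ^ 2)) := by
        ext z
        exact hFX _
      have A3 : AnalyticAt ℂ (fun z => ((η : ℂ) + cay β z) ^ r * f ((η + cay β z) ^ 2)) 0 := (A2.pow r).mul A1
      have N3 : (fun z => ((η : ℂ) + cay β z) ^ r * f ((η + cay β z) ^ 2)) 0 ≠ 0 :=
        mul_ne_zero (pow_ne_zero r N2) N1
      rw [e1, cf_const_mul A3 N3 hC0]
    rw [e]
    rcases h.hr with hr | hr
    · subst hr
      have e2 : (fun n => cf (fun z => ((η : ℂ) + cay β z) ^ 0 * f ((η + cay β z) ^ 2)) n) =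
          fun n => cf (fun z => f ((η + cay β z) ^ 2)) n := by
        ext n
        congr 1
        ext z
        rw [pow_zero, one_mul]
      rw [e2]
      exact hpos
    · subst hr
      obtain ⟨l1, l2, l3⟩ := lin_cf hβ (y := 0) (h := η) (by rw [Complex.zero_re]; exact hη)
      simp only [sub_zero] at l1 l2 l3
      have e2 : (fun n => cf (fun z => ((η : ℂ) + cay β z) ^ 1 * f ((η + cay β z) ^ 2)) n) =
          fun n => cf (fun z => (η : ℂ) + cay β z) n + cf (fun z => f ((η + cay β z) ^ 2)) n := by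
        ext n
        simp only [pow_one]
        rw [cf_mul A2 A1 N2 N1]
      rw [e2]
      exact l1.add hpos
  refine ⟨hseq, lt_of_le_of_ne (hseq.1 0) fun h0 => ?_⟩
  obtain ⟨k2, k3, k4⟩ := hseq
  have hreal : ∀ n, (cf (fun z => F (η + cay β z)) n).im = 0 := by
    intro n
    have e1 := cf_star (f := fun z => F (η + cay β z)) n
    have e2 : (fun z => conj ((fun z => F (η + cay β z)) (conj z))) = fun z => F (η + cay β z) := by
      ext z
      beta_reduce
      have hcs : cay β (conj z) = conj (cay β z) := by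
        unfold cay
        rw [map_mul, map_div₀, map_add, map_sub, map_one, Complex.conj_ofReal]
      have hh : (η : ℂ) + conj (cay β z) = conj (η + cay β z) := by rw [map_add, Complex.conj_ofReal]
      have hCr : conj ((K : ℂ)⁻¹ * ((c : ℂ)⁻¹) ^ r) = (K : ℂ)⁻¹ * ((c : ℂ)⁻¹) ^ r := by
        rw [map_mul, map_inv₀, map_pow, map_inv₀, Complex.conj_ofReal, Complex.conj_ofReal]
      rw [hcs, hh, hFX, hFX (η + cay β z), map_mul, hCr, map_mul, map_pow, Complex.conj_conj, ← map_pow, hfc,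
        Complex.conj_conj]
    rw [e2] at e1
    exact (Complex.conj_eq_iff_im.1 e1.symm)
  have hall : ∀ n, cf (fun z => F (η + cay β z)) n = 0 := by
    intro n
    refine Complex.ext ?_ (hreal n)
    refine le_antisymm ?_ (k2 n)
    have := k4 n
    beta_reduce at this
    rw [← h0, mul_zero] at this
    exact this
  have hFd : DifferentiableOn ℂ (fun z => F (η + cay β z)) (ball 0 1) :=
    hF.comp_differentiableOn ((cay_diff β).const_add _)
  have hFne : ∀ z ∈ ball (0 : ℂ) 1, F (η + cay β z) ≠ 0 := by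
    intro z hz
    rw [hFX]
    exact mul_ne_zero hC0 (mul_ne_zero (pow_ne_zero r (hre z hz)) (hneb z hz))
  obtain ⟨c0, hc0⟩ := const_of_cf hFd hFne hall
  have hconst : F = fun _ => c0 := by
    have hF' : AnalyticOnNhd ℂ F Set.univ := hF.differentiableOn.analyticOnNhd isOpen_univ
    have hC' : AnalyticOnNhd ℂ (fun _ : ℂ => c0) Set.univ := analyticOnNhd_const
    refine hF'.eq_of_eventuallyEq hC' (z₀ := ((η + 1 : ℝ) : ℂ)) ?_
    have hopen : IsOpen {w : ℂ | η < w.re} := isOpen_lt continuous_const Complex.continuous_re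
    filter_upwards [hopen.mem_nhds (show ((η + 1 : ℝ) : ℂ) ∈ {w : ℂ | η < w.re} by
      show η < _
      rw [Complex.ofReal_re]
      linarith)] with w hw
    have hw' : η < w.re := hw
    obtain ⟨z, hz, hzw⟩ := cay_surj hβ (w := w - η) (by
      rw [Complex.sub_re, Complex.ofReal_re]
      linarith)
    have := hc0 z hz
    rw [hzw, add_sub_cancel] at this
    exact this
  obtain ⟨C, hC, hJ, -⟩ := hlog
  obtain ⟨n, hn⟩ := exists_nat_ge (C * Real.log ((1 : ℕ) + 1))
  have h5 := (hJ 1 (n + 1) le_rfl (by push_cast at hn ⊢; linarith)).1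
  have h6 : jensenP r F 1 (n + 1) = 0 := by
    unfold jensenP
    refine Finset.sum_eq_zero fun j _ => ?_
    have h7 : gamma r F (n + 1 + j) = 0 := by
      unfold gamma
      rw [hconst, iteratedDeriv_const, if_neg (by omega)]
      simp
    rw [h7]
    simp
  rw [h6] at h5
  simp at h5

/-- functions with real coefficients -/
theorem cc_half {l : List Pc} {M : ℝ} {b : ℕ → ℂ} {w : ℂ} {Λ : ℂ → ℂ} (h : IsCC l M b w Λ)
    (hb : ∀ n, conj (b n) = b n) (hl : l ≠ []) {σ a : ℝ} (hσ : 1 / 2 ≤ σ) (ha : σ < a) (hne : Λ a ≠ 0)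
    (hZ : ZF Λ σ) : PosRe (fun n => cf (fun z => Λ (σ + cay (a - σ) z)) n) ∧
      0 < (cf (fun z => Λ (σ + cay (a - σ) z)) 0).re := by
  obtain ⟨D, hD, hD1, -⟩ := h.toLD hb hl
  have h1 := scaleL hD
  have h2 := critL hD
  have hX := Pool.Agent.W355.LC.XX_part1 hD
  have hpar := Pool.Agent.W355.LC.parL hD
  have hk : 0 < kL D := by linarith [Pool.Agent.W355.LC.kL_ge hD]
  rw [hD1] at h1 h2
  have hF : Differentiable ℂ (fun z => Λ (1 / 2 + z)) := h.entire.comp (by fun_prop)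
  have hstrip : ∀ w : ℂ, Λ (1 / 2 + w) = 0 → |w.re| ≤ σ - 1 / 2 := by
    intro w hw
    have a1 := hZ _ hw
    have a2 : Λ (1 / 2 + -w) = 0 := by
      have := hpar w
      rw [hD1, hw, mul_zero] at this
      exact this
    have a3 := hZ _ a2
    simp only [Complex.add_re, Complex.neg_re, Complex.div_ofNat_re, Complex.one_re] at a1 a3
    rw [abs_le]
    constructor <;> linarith
  have hmain := scale_half h1 h2 hF (η := σ - 1 / 2) (by linarith) (fun z hz => ?_) (β := a - σ) (by linarith) ?_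
  · have e : ∀ z, Λ (1 / 2 + (((σ - 1 / 2 : ℝ) : ℂ) + cay (a - σ) z)) = Λ (σ + cay (a - σ) z) := by
      intro z
      congr 1
      push_cast
      ring
    simp only [e] at hmain
    exact hmain
  · have a1 := hX z
    rw [hz, mul_zero, hD1] at a1
    unfold Pool.Agent.W355.LC.sL at a1
    have a2 := hstrip _ a1.symm
    rw [Complex.re_ofReal_mul, abs_mul, abs_of_pos hk] at a2
    exact a2
  · have : (1 / 2 : ℂ) + ((σ - 1 / 2 + (a - σ) : ℝ) : ℂ) = (a : ℂ) := by push_cast; ring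
    rw [this]
    exact hne

/-- the facts for the general class -/
theorem isA_facts {l : List Pc} {μ : List ℂ} {M : ℝ} {b : ℕ → ℂ} {w : ℂ} {Λ : ℂ → ℂ}
    (h : IsA l μ M b w Λ) (hl : l ≠ [] ∨ μ ≠ []) {σ a : ℝ} (hσ : 1 / 2 ≤ σ) (ha : σ < a)
    (hne : Λ a ≠ 0) : LiFacts (liC Λ σ a) (ZF Λ σ) (∀ t : ℝ, a ≤ t → Λ t ≠ 0) := by
  refine liFacts_of h.entire ha hne fun hZ => ?_
  classical
  by_cases hs : ∀ s : ℂ, Λ (conj s) = conj (Λ s)
  · have hst : st Λ = Λ := by
      funext s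
      unfold st
      rw [hs, Complex.conj_conj]
    obtain ⟨l', hl', hcc⟩ := h.toCC hst hl
    have h1 : IsCC l' M (fun n => if n = 0 then 0 else b n) w Λ := by
      refine hcc.congr' fun n hn => ?_
      rw [if_neg (by omega)]
    refine cc_half h1 (fun n => ?_) hl' hσ ha hne hZ
    by_cases hn : n = 0
    · simp [hn]
    · rw [if_neg hn]
      exact hcc.real_of_star hl' hst n (Nat.one_le_iff_ne_zero.2 hn)
  · have hne2 : l ++ l ++ μ.map pr ≠ [] := by
      intro h0
      rcases hl with hl | hl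
      · exact hl (List.append_eq_nil_iff.1 (List.append_eq_nil_iff.1 h0).1).1
      · exact hl (List.map_eq_nil_iff.1 (List.append_eq_nil_iff.1 h0).2)
    have hsta : st Λ (a : ℂ) ≠ 0 := by
      unfold st
      rw [Complex.conj_ofReal]
      exact (_root_.map_ne_zero _).2 hne
    have hZ2 : ZF (fun s => Λ s * st Λ s) σ := by
      intro s hs0
      rcases mul_eq_zero.1 hs0 with h1 | h1
      · exact hZ s h1
      · unfold st at h1
        have h2 := hZ (conj s) ((_root_.map_eq_zero _).1 h1)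
        rwa [Complex.conj_re] at h2
    obtain ⟨hp, h0⟩ := cc_half h.doubleCC (Pool.Agent.W355.LC.conv_real b) hne2 hσ ha (mul_ne_zero hne hsta) hZ2
    have hβ : 0 < a - σ := by linarith
    have A1 : AnalyticAt ℂ (fun z => Λ (σ + cay (a - σ) z)) 0 :=
      (h.entire.comp_differentiableOn ((cay_diff _).const_add _)).analyticAt
        (isOpen_ball.mem_nhds (mem_ball_self one_pos))
    have A2 : AnalyticAt ℂ (fun z => st Λ (σ + cay (a - σ) z)) 0 :=
      ((st_diff h.entire).comp_differentiableOn ((cay_diff _).const_add _)).analyticAt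
        (isOpen_ball.mem_nhds (mem_ball_self one_pos))
    have ebase : (σ : ℂ) + ((a - σ : ℝ) : ℂ) = (a : ℂ) := by push_cast; ring
    have N1 : (fun z => Λ (σ + cay (a - σ) z)) 0 ≠ 0 := by
      beta_reduce
      rw [cay_zero, ebase]
      exact hne
    have N2 : (fun z => st Λ (σ + cay (a - σ) z)) 0 ≠ 0 := by
      beta_reduce
      rw [cay_zero, ebase]
      exact hsta
    have hcf : ∀ n, cf (fun z => Λ (σ + cay (a - σ) z) * st Λ (σ + cay (a - σ) z)) n =
        ((2 * (cf (fun z => Λ (σ + cay (a - σ) z)) n).re : ℝ) : ℂ) := by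
      intro n
      rw [cf_mul A1 A2 N1 N2]
      have e2 : (fun z => st Λ (σ + cay (a - σ) z)) = fun z => conj ((fun z => Λ (σ + cay (a - σ) z)) (conj z)) := by
        ext z
        unfold st
        beta_reduce
        congr 2
        have hcs : cay (a - σ) (conj z) = conj (cay (a - σ) z) := by
          unfold cay
          rw [map_mul, map_div₀, map_add, map_sub, map_one, Complex.conj_ofReal]
        rw [hcs, map_add, Complex.conj_ofReal]
      have e3 := cf_star (f := fun z => Λ (σ + cay (a - σ) z)) n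
      beta_reduce at e3 e2
      rw [e2, e3]
      exact Complex.add_conj _
    obtain ⟨k2, k3, k4⟩ := hp
    have hcf' : ∀ n, (cf (fun z => Λ (σ + cay (a - σ) z) * st Λ (σ + cay (a - σ) z)) n).re =
        2 * (cf (fun z => Λ (σ + cay (a - σ) z)) n).re := by
      intro n
      rw [hcf, Complex.ofReal_re]
    beta_reduce at k2 k3 k4 h0
    simp only [hcf'] at k2 k3 k4 h0
    refine ⟨⟨fun n => ?_, fun n => ?_, fun n => ?_⟩, ?_⟩
    · have := k2 n
      beta_reduce
      linarith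
    · have := k3 n
      beta_reduce
      linarith
    · have := k4 n
      beta_reduce
      linarith
    · linarith

theorem goodA_facts {w : ℂ} {Λ G : ℂ → ℂ} (h : GoodA w Λ G) {σ a : ℝ} (hσ : 1 / 2 ≤ σ) (ha : σ < a)
    (hne : Λ a ≠ 0) : LiFacts (liC Λ σ a) (ZF Λ σ) (∀ t : ℝ, a ≤ t → Λ t ≠ 0) := by
  obtain ⟨l, μ, M, b, n, u, c, e⟩ := h
  exact isA_facts c n hσ ha hne

/-- at the critical line -/
theorem zf_half {w : ℂ} {Λ : ℂ → ℂ} (fe : ∀ s, Λ (1 - s) = w * conj (Λ (conj s))) :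
    ZF Λ (1 / 2) ↔ ∀ s, Λ s = 0 → s.re = 1 / 2 := by
  constructor
  · intro h s hs
    refine le_antisymm (h s hs) ?_
    have h1 : Λ (1 - conj s) = 0 := by
      rw [fe, Complex.conj_conj, hs, map_zero, mul_zero]
    have := h _ h1
    rw [Complex.sub_re, Complex.one_re, Complex.conj_re] at this
    linarith
  · intro h s hs
    exact (h s hs).le

/-- a zero-free half-plane -/
theorem goodA_large {w : ℂ} {Λ G : ℂ → ℂ} (h : GoodA w Λ G) : ∃ a₀ : ℝ, ∀ s : ℂ, a₀ < s.re → Λ s ≠ 0 := by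
  obtain ⟨l, μ, M, b, n, u, c, e⟩ := h
  have hne2 : l ++ l ++ μ.map pr ≠ [] := by
    intro h0
    rcases n with hl | hl
    · exact hl (List.append_eq_nil_iff.1 (List.append_eq_nil_iff.1 h0).1).1
    · exact hl (List.map_eq_nil_iff.1 (List.append_eq_nil_iff.1 h0).2)
  obtain ⟨D, hD, hD1, -⟩ := c.doubleCC.toLD (Pool.Agent.W355.LC.conv_real b) hne2
  have hk : 0 < kL D := by linarith [Pool.Agent.W355.LC.kL_ge hD]
  have hkc : (kL D : ℂ) ≠ 0 := by exact_mod_cast hk.ne'
  refine ⟨1 / 2 + kL D, fun s hs h0 => ?_⟩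
  have h1 := Pool.Agent.W355.LC.XX_part1 hD ((s - 1 / 2) / (kL D : ℂ))
  have h5 : Pool.Agent.W355.LC.sL D ((s - 1 / 2) / (kL D : ℂ)) = s := by
    unfold Pool.Agent.W355.LC.sL
    rw [mul_div_cancel₀ _ hkc]
    ring
  rw [h5, hD1] at h1
  beta_reduce at h1
  rw [h0, zero_mul] at h1
  have hre : ((s - 1 / 2) / (kL D : ℂ)).re = (s.re - 1 / 2) / kL D := by
    rw [Complex.div_ofReal_re, Complex.sub_re]
    norm_num
  have h6 : 1 / 2 < ((s - 1 / 2) / (kL D : ℂ)).re := by
    rw [hre, lt_div_iff₀ hk]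
    linarith
  rcases mul_eq_zero.1 h1 with h7 | h7
  · split_ifs at h7
    · exact one_ne_zero h7
    · rw [h7, Complex.zero_re] at h6
      norm_num at h6
  · exact Pool.Agent.W355.LC.XX_ne hD _ h6 h7

end Run7.h278.LI
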