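import Pool.Agent.Run7.h278.LI.Adm
import Pool.Agent.Run7.h278.LI.GJ

set_option autoImplicit false

/-!
# Shifts of the critical line
-/

namespace Run7.h278.LI

open Complex Filter Topology Set
open scoped ComplexConjugate

/-- shifts of the variable -/
theorem liC_shift {Λ Λ1 : ℂ → ℂ} {κ : ℂ} {c : ℝ} (hκ : κ ≠ 0) (h : ∀ z : ℂ, Λ1 z = κ * Λ (z + c)) (σ a : ℝ) (n : ℕ) :
    liC Λ1 (σ - c) (a - c) n = liC Λ σ a n := by
  have e : (fun z : ℂ => Complex.log (Λ1 (((σ - c : ℝ) : ℂ) + (((a - c : ℝ) : ℂ) - ((σ - c : ℝ) : ℂ)) *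
      ((1 + z) / (1 - z))) / Λ1 ((a - c : ℝ) : ℂ))) =
      fun z : ℂ => Complex.log (Λ ((σ : ℂ) + ((a : ℂ) - σ) * ((1 + z) / (1 - z))) / Λ a) := by
    funext z
    rw [h, h, mul_div_mul_left _ _ hκ]
    congr 3
    · push_cast
      ring
    · push_cast
      ring
  unfold liC
  rw [e]

theorem liFacts_shift {Λ Λ1 : ℂ → ℂ} {κ : ℂ} {c : ℝ} (hκ : κ ≠ 0) (h : ∀ z : ℂ, Λ1 z = κ * Λ (z + c)) {σ a : ℝ}
    (hf : LiFacts (liC Λ1 (σ - c) (a - c)) (ZF Λ1 (σ - c)) (∀ t : ℝ, a - c ≤ t → Λ1 t ≠ 0)) :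
    LiFacts (liC Λ σ a) (ZF Λ σ) (∀ t : ℝ, a ≤ t → Λ t ≠ 0) := by
  have e1 : liC Λ1 (σ - c) (a - c) = liC Λ σ a := funext fun n => liC_shift hκ h σ a n
  have e2 : ZF Λ1 (σ - c) ↔ ZF Λ σ := by
    constructor
    · intro hz s hs
      have := hz (s - c) (by rw [h, sub_add_cancel, hs, mul_zero])
      rw [sub_re, ofReal_re] at this
      linarith
    · intro hz s hs
      rw [h] at hs
      have := hz (s + c) ((mul_eq_zero.1 hs).resolve_left hκ)
      rw [add_re, ofReal_re] at this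
      linarith
  have e3 : (∀ t : ℝ, a - c ≤ t → Λ1 t ≠ 0) ↔ (∀ t : ℝ, a ≤ t → Λ t ≠ 0) := by
    constructor
    · intro hz t ht h0
      refine hz (t - c) (by linarith) ?_
      rw [h]
      push_cast
      rw [sub_add_cancel, h0, mul_zero]
    · intro hz t ht h0
      rw [h] at h0
      refine hz (t + c) (by linarith) ?_
      push_cast
      exact (mul_eq_zero.1 h0).resolve_left hκ
  rw [e1] at hf
  rw [← e2, ← e3]
  exact hf

theorem zf_line {Λ : ℂ → ℂ} {x : ℝ} (fe : ∀ s : ℂ, Λ s = 0 → Λ (2 * x - s) = 0) :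
    ZF Λ x ↔ ∀ s, Λ s = 0 → s.re = x := by
  constructor
  · intro h s hs
    refine le_antisymm (h s hs) ?_
    have := h _ (fe s hs)
    have e : (2 * (x : ℂ) - s).re = 2 * x - s.re := by
      rw [sub_re]
      congr 1
      rw [show (2 * (x : ℂ)) = ((2 * x : ℝ) : ℂ) by push_cast; rfl, ofReal_re]
    rw [e] at this
    linarith
  · intro h s hs
    exact (h s hs).le

theorem zf_line' {Λ : ℂ → ℂ} {x : ℝ} (fe : ∀ s : ℂ, Λ s = 0 → Λ (conj (2 * x - s)) = 0) :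
    ZF Λ x ↔ ∀ s, Λ s = 0 → s.re = x := by
  constructor
  · intro h s hs
    refine le_antisymm (h s hs) ?_
    have := h _ (fe s hs)
    have e : (conj (2 * (x : ℂ) - s)).re = 2 * x - s.re := by
      rw [conj_re, sub_re]
      congr 1
      rw [show (2 * (x : ℂ)) = ((2 * x : ℝ) : ℂ) by push_cast; rfl, ofReal_re]
    rw [e] at this
    linarith
  · intro h s hs
    exact (h s hs).le

end Run7.h278.LI
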