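import Pool.Agent.TH839.UH.Coh
import Pool.Agent.W355.HW.Pow
import Pool.Agent.Run7.h278.LI.Shift

set_option autoImplicit false

/-!
# Hasse-Weil L-functions: growth

The normalisation `coh_hw` is the first part of the proof of `Pool.Agent.TH839.UH.Coh.main` of the starting files.
-/

namespace Run7.h278.LI

open Complex Filter Topology Set Polynomial
open scoped ComplexConjugate
open Pool.Agent.TH839.UH Pool.Agent.TH839.UH.Coh
open Pool.Agent.TH839.UH.NF (log_le B0 B0_nonneg)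

/-- the normalised function -/
theorem coh_hw {i : ℕ} {h : ℕ → ℕ} {a b : ℕ} {P : ℕ → ℤ[X]}
    (hpos : 1 ≤ 2 * ∑ p ∈ Finset.range ((i + 1) / 2), h p + (if Even i then a + b else 0))
    (hP0 : ∀ p, p.Prime → (P p).coeff 0 = 1)
    (hPd : ∀ p, p.Prime → (P p).natDegree ≤
      2 * ∑ p ∈ Finset.range ((i + 1) / 2), h p + (if Even i then a + b else 0))
    (hPr : ∀ p : ℕ, p.Prime → ∀ z : ℂ, aeval z (P p) = 0 → (p : ℝ) ^ (-(((i : ℝ) + 1) / 2)) ≤ ‖z‖)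
    {A : ℝ} {r : ℕ} {Λ : ℂ → ℂ} (hA : 1 ≤ A)
    (hr : r ≤ 2 * ∑ p ∈ Finset.range ((i + 1) / 2), h p + (if Even i then a + b else 0))
    (hent : Differentiable ℂ Λ)
    (hord : ∃ A ρ : ℝ, ∀ s : ℂ, ‖Λ s‖ ≤ Real.exp (A * (1 + ‖s‖) ^ ρ))
    (hfe : ∃ ε : ℝ, (ε = 1 ∨ ε = -1) ∧ ∀ s : ℂ, Λ s = ε * Λ (i + 1 - s))
    (heq : ∃ σ : ℝ, ∀ s : ℂ, σ ≤ s.re → Λ s = ((s - (i : ℂ) / 2) * (s - (i : ℂ) / 2 - 1)) ^ r *
      ((A : ℂ) ^ (s / 2) * ((∏ p ∈ Finset.range ((i + 1) / 2), Gammaℂ (s - p) ^ h p) *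
        (if Even i then Gammaℝ (s - (i : ℂ) / 2) ^ a * Gammaℝ (s - (i : ℂ) / 2 + 1) ^ b else 1)) *
        ∏' p : Nat.Primes, (aeval (((p : ℕ) : ℂ) ^ (-s)) (P p))⁻¹)) :
    ∃ (l : List ℂ) (α : Nat.Primes → Fin l.length → ℂ) (κ : ℝ), 0 < κ ∧
      EP.HW l.length r A (fun j => l.get j) α (fun z => (κ : ℂ) * Λ (z + (((i : ℝ) / 2 : ℝ) : ℂ))) := by
  obtain ⟨l, hl⟩ : ∃ l : List ℂ, l = shl i h a b := ⟨_, rfl⟩
  have hlen : l.length = 2 * ∑ p ∈ Finset.range ((i + 1) / 2), h p +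
      (if Even i then a + b else 0) := by rw [hl, shl_length]
  have hA0 : 0 < A := by linarith
  have hAc : (A : ℂ) ≠ 0 := by exact_mod_cast hA0.ne'
  -- the reciprocal roots
  have hroots : ∀ p : Nat.Primes, ∃ α : Fin l.length → ℂ,
      (∀ z : ℂ, aeval z (P p) = ∏ j, (1 - α j * z)) ∧
      ∀ j, ‖α j‖ ≤ ((p : ℕ) : ℝ) ^ (((i : ℝ) + 1) / 2) := by
    intro p
    have hp0 : (0 : ℝ) < ((p : ℕ) : ℝ) := by exact_mod_cast p.2.pos
    have hev : ∀ z : ℂ, ((P p).map (algebraMap ℤ ℂ)).eval z = aeval z (P p) := fun z => by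
      rw [Polynomial.eval_map, Polynomial.aeval_def]
    obtain ⟨α, h1, h2⟩ := roots l.length ((P p).map (algebraMap ℤ ℂ)) (by
      rw [Polynomial.coeff_map, hP0 p p.2, map_one]) ((Polynomial.natDegree_map_le).trans (by
        rw [hlen]; exact hPd p p.2))
    refine ⟨α, fun z => by rw [← hev, h1], fun j => ?_⟩
    rcases h2 j with h3 | ⟨h3, h4⟩
    · rw [h3, norm_zero]
      exact Real.rpow_nonneg hp0.le _
    · rw [hev] at h4
      have h5 := hPr p p.2 _ h4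
      rw [norm_inv, Real.rpow_neg hp0.le] at h5
      exact (inv_le_inv₀ (Real.rpow_pos_of_pos hp0 _) (norm_pos_iff.2 h3)).1 h5
  choose α0 hα1 hα2 using hroots
  obtain ⟨α, hαd⟩ : ∃ α : Nat.Primes → Fin l.length → ℂ, α = fun p j =>
      α0 p j * ((p : ℕ) : ℂ) ^ (-((i : ℂ) / 2)) := ⟨_, rfl⟩
  have hα : ∀ p j, ‖α p j‖ ≤ ((p : ℕ) : ℝ) ^ (1 / 2 : ℝ) := by
    intro p j
    have hp0 : (0 : ℝ) < ((p : ℕ) : ℝ) := by exact_mod_cast p.2.pos
    have e : (-((i : ℂ) / 2)).re = -((i : ℝ) / 2) := by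
      rw [show (-((i : ℂ) / 2)) = ((-((i : ℝ) / 2) : ℝ) : ℂ) by push_cast; rfl, ofReal_re]
    rw [hαd]
    show ‖α0 p j * ((p : ℕ) : ℂ) ^ (-((i : ℂ) / 2))‖ ≤ _
    rw [norm_mul, Complex.norm_natCast_cpow_of_pos p.2.pos, e]
    calc ‖α0 p j‖ * ((p : ℕ) : ℝ) ^ (-((i : ℝ) / 2)) ≤
        ((p : ℕ) : ℝ) ^ (((i : ℝ) + 1) / 2) * ((p : ℕ) : ℝ) ^ (-((i : ℝ) / 2)) := by
          gcongr
          exact hα2 p j
      _ = ((p : ℕ) : ℝ) ^ (1 / 2 : ℝ) := by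
          rw [← Real.rpow_add hp0]
          congr 1
          ring
  -- the local factors in the normalised variable
  have hloc : ∀ (z : ℂ) (p : Nat.Primes), (aeval (((p : ℕ) : ℂ) ^ (-(z + (i : ℂ) / 2))) (P p))⁻¹ =
      ∏ j, (1 - α p j * ((p : ℕ) : ℂ) ^ (-z))⁻¹ := by
    intro z p
    rw [hα1, ← Finset.prod_inv_distrib]
    refine Finset.prod_congr rfl fun j _ => ?_
    rw [hαd]
    show _ = (1 - α0 p j * ((p : ℕ) : ℂ) ^ (-((i : ℂ) / 2)) * ((p : ℕ) : ℂ) ^ (-z))⁻¹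
    rw [mul_assoc, ← Complex.cpow_add _ _ (EP.p0 p)]
    congr 4
    ring
  -- the completed function for large real part
  obtain ⟨κ, hκd⟩ : ∃ κ : ℝ, κ = A ^ (-((i : ℝ) / 4)) := ⟨_, rfl⟩
  have hκ : 0 < κ := by rw [hκd]; positivity
  have hκA : (κ : ℂ) * (A : ℂ) ^ ((i : ℂ) / 4) = 1 := by
    rw [hκd, Complex.ofReal_cpow hA0.le, ← Complex.cpow_add _ _ hAc]
    push_cast
    rw [neg_add_cancel, Complex.cpow_zero]
  have hhalf : ((i : ℂ) / 2) = ((((i : ℝ) / 2 : ℝ)) : ℂ) := by push_cast; rfl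
  have hkey : ∃ σ : ℝ, ∀ z : ℂ, σ ≤ z.re → (κ : ℂ) * Λ (z + (((i : ℝ) / 2 : ℝ) : ℂ)) =
      (z * (z - 1)) ^ r * ((A : ℂ) ^ (z / 2) * ∏ j, Gammaℝ (z + l.get j)) * EP.E α z := by
    obtain ⟨σ, hσ⟩ := heq
    refine ⟨σ, fun z hz => ?_⟩
    rw [hσ (z + (((i : ℝ) / 2 : ℝ) : ℂ)) (by
      rw [add_re, ofReal_re]
      have : (0 : ℝ) ≤ (i : ℝ) / 2 := by positivity
      linarith), ← hhalf]
    simp only [add_sub_cancel_right]
    have e1 : (A : ℂ) ^ ((z + (i : ℂ) / 2) / 2) = (A : ℂ) ^ (z / 2) * (A : ℂ) ^ ((i : ℂ) / 4) := by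
      rw [← Complex.cpow_add _ _ hAc]
      congr 1
      ring
    have e2 : (∏ j, Gammaℝ (z + l.get j)) =
        (∏ p ∈ Finset.range ((i + 1) / 2), Gammaℂ (z + (i : ℂ) / 2 - p) ^ h p) *
        (if Even i then Gammaℝ z ^ a * Gammaℝ (z + 1) ^ b else 1) := by
      rw [Pool.Agent.W355.UN.prod_get l (fun c : ℂ => Gammaℝ (z + c)), hl, shl_prod]
      simp only [add_zero]
      congr 1
      refine Finset.prod_congr rfl fun p _ => ?_
      rw [← Complex.Gammaℝ_mul_Gammaℝ_add_one]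
      congr 3 <;> ring
    have e3 : (∏' p : Nat.Primes, (aeval (((p : ℕ) : ℂ) ^ (-(z + (i : ℂ) / 2))) (P p))⁻¹) =
        EP.E α z := tprod_congr fun p => hloc z p
    rw [e1, e2, e3]
    linear_combination ((z * (z - 1)) ^ r * ((A : ℂ) ^ (z / 2) *
      ((∏ p ∈ Finset.range ((i + 1) / 2), Gammaℂ (z + (i : ℂ) / 2 - p) ^ h p) *
        (if Even i then Gammaℝ z ^ a * Gammaℝ (z + 1) ^ b else 1))) * EP.E α z) * hκA
  -- `Λ` is real on the real axis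
  have hreal : ∀ s : ℂ, conj (Λ (conj s)) = Λ s := by
    have h1 : AnalyticOnNhd ℂ Λ univ := fun z _ => hent.analyticAt z
    have h2 : AnalyticOnNhd ℂ (fun s => conj (Λ (conj s))) univ := by
      have : Differentiable ℂ (fun s => conj (Λ (conj s))) := by
        intro z
        have := (hent (conj z)).hasDerivAt.conj_conj
        rw [Complex.conj_conj] at this
        exact this.differentiableAt
      exact fun z _ => this.analyticAt z
    obtain ⟨σ, hσ⟩ := heq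
    obtain ⟨τ, hτ⟩ : ∃ τ : ℝ, τ = max σ (2 + (i : ℝ) / 2) := ⟨_, rfl⟩
    intro s
    refine h2.eqOn_of_preconnected_of_eventuallyEq h1 isPreconnected_univ
      (mem_univ (((τ + 1 : ℝ) : ℂ))) ?_ (mem_univ s)
    have h3 : ∀ᶠ z : ℂ in 𝓝 ((τ + 1 : ℝ) : ℂ), τ < z.re :=
      (Complex.continuous_re.tendsto _).eventually (lt_mem_nhds (by
        rw [ofReal_re]; linarith))
    filter_upwards [h3] with z hz
    have hz1 : σ ≤ z.re := by
      have := le_max_left σ (2 + (i : ℝ) / 2)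
      linarith
    have hz2 : 2 + (i : ℝ) / 2 ≤ z.re := by
      have := le_max_right σ (2 + (i : ℝ) / 2)
      linarith
    rw [hσ (conj z) (by rw [Complex.conj_re]; exact hz1), hσ z hz1]
    have hAa : ((A : ℂ)).arg ≠ Real.pi := by
      rw [Complex.arg_ofReal_of_nonneg hA0.le]
      exact Real.pi_pos.ne
    have hE : conj (∏' p : Nat.Primes, (aeval (((p : ℕ) : ℂ) ^ (-(conj z))) (P p))⁻¹) =
        ∏' p : Nat.Primes, (aeval (((p : ℕ) : ℂ) ^ (-z)) (P p))⁻¹ := by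
      have hp := EP.prod_eq hα (s := conj z - (i : ℂ) / 2) (by
        rw [sub_re, Complex.conj_re, hhalf, ofReal_re]
        linarith)
      have hp2 := hp.map (starRingEnd ℂ) Complex.continuous_conj
      have e1 : ∀ p : Nat.Primes, (∏ j, (1 - α p j * ((p : ℕ) : ℂ) ^ (-(conj z - (i : ℂ) / 2)))⁻¹) =
          (aeval (((p : ℕ) : ℂ) ^ (-(conj z))) (P p))⁻¹ := fun p => by
        rw [← hloc, sub_add_cancel]
      simp only [e1] at hp
      have e2 : ∀ p : Nat.Primes, conj ((aeval (((p : ℕ) : ℂ) ^ (-(conj z))) (P p))⁻¹) =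
          (aeval (((p : ℕ) : ℂ) ^ (-z)) (P p))⁻¹ := fun p => by
        have hn : ((((p : ℕ) : ℕ) : ℂ)).arg ≠ Real.pi := by
          rw [Complex.natCast_arg]
          exact Real.pi_pos.ne
        rw [map_inv₀, ← aeval_conj, conj_pow hn (Complex.conj_natCast _)]
        simp only [map_neg, Complex.conj_conj]
      have hp3 : HasProd (fun p : Nat.Primes => (aeval (((p : ℕ) : ℂ) ^ (-z)) (P p))⁻¹)
          (conj (cexp (EP.LG α (conj z - (i : ℂ) / 2)))) := by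
        refine hp2.congr_fun fun p => ?_
        simp only [Function.comp_apply]
        rw [e1, e2]
      rw [hp.tprod_eq, hp3.tprod_eq]
    have hG : conj ((∏ p ∈ Finset.range ((i + 1) / 2), Gammaℂ (conj z - p) ^ h p) *
        (if Even i then Gammaℝ (conj z - (i : ℂ) / 2) ^ a * Gammaℝ (conj z - (i : ℂ) / 2 + 1) ^ b
          else 1)) = (∏ p ∈ Finset.range ((i + 1) / 2), Gammaℂ (z - p) ^ h p) *
        (if Even i then Gammaℝ (z - (i : ℂ) / 2) ^ a * Gammaℝ (z - (i : ℂ) / 2 + 1) ^ b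
          else 1) := by
      have e1 : ∀ p : ℕ, conj z - (p : ℂ) = conj (z - p) := fun p => by
        rw [map_sub, Complex.conj_natCast]
      have e2 : conj z - (i : ℂ) / 2 = conj (z - (i : ℂ) / 2) := by
        rw [map_sub, map_div₀, Complex.conj_natCast, map_ofNat]
      have e3 : conj z - (i : ℂ) / 2 + 1 = conj (z - (i : ℂ) / 2 + 1) := by
        rw [map_add, ← e2, map_one]
      rw [e3, e2, map_mul, map_prod]
      congr 1
      · refine Finset.prod_congr rfl fun p _ => ?_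
        rw [e1, map_pow, GC_conj, Complex.conj_conj]
      · split_ifs
        · rw [map_mul, map_pow, map_pow, GR_conj, GR_conj, Complex.conj_conj, Complex.conj_conj]
        · rw [map_one]
    have e4 : (starRingEnd ℂ) ((i : ℂ) / 2) = (i : ℂ) / 2 := by
      rw [map_div₀, Complex.conj_natCast, map_ofNat]
    have e5 : conj ((A : ℂ) ^ (conj z / 2)) = (A : ℂ) ^ (z / 2) := by
      rw [conj_pow hAa (Complex.conj_ofReal _), map_div₀, Complex.conj_conj, map_ofNat]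
    rw [map_mul, map_mul, map_mul, hE, hG, e5, map_pow, map_mul, map_sub, map_sub, map_sub,
      Complex.conj_conj, e4, map_one]
  -- the normalised function
  have hW : EP.HW l.length r A (fun j => l.get j) α
      (fun z => (κ : ℂ) * Λ (z + (((i : ℝ) / 2 : ℝ) : ℂ))) := by
    refine ⟨by omega, by omega, hA, fun j => ?_, hα, ?_, order_shift hκ (by positivity) hord, ?_,
      hkey⟩
    · exact shl_re i h a b _ (by rw [← hl]; exact List.get_mem _ _)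
    · exact (hent.comp (by fun_prop : Differentiable ℂ fun z : ℂ =>
        z + (((i : ℝ) / 2 : ℝ) : ℂ))).const_mul _
    · obtain ⟨ε, hε, hfe⟩ := hfe
      refine ⟨ε, ?_, fun s => ?_⟩
      · rcases hε with rfl | rfl <;> simp
      · show (κ : ℂ) * Λ (s + (((i : ℝ) / 2 : ℝ) : ℂ)) =
          ε * conj ((κ : ℂ) * Λ (1 - conj s + (((i : ℝ) / 2 : ℝ) : ℂ)))
        rw [map_mul, Complex.conj_ofReal]
        have e : conj (Λ (1 - conj s + (((i : ℝ) / 2 : ℝ) : ℂ))) =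
            Λ (i + 1 - (s + (((i : ℝ) / 2 : ℝ) : ℂ))) := by
          rw [← hreal (i + 1 - (s + (((i : ℝ) / 2 : ℝ) : ℂ)))]
          congr 2
          simp only [map_sub, map_add, Complex.conj_natCast, Complex.conj_ofReal, map_one]
          push_cast
          ring
        rw [e, hfe (s + (((i : ℝ) / 2 : ℝ) : ℂ))]
        ring
  exact ⟨l, α, κ, hκ, hW⟩

section
variable {m : ℕ} {α : Nat.Primes → Fin m → ℂ}

/-- one factor tends to one -/
theorem F_small (hα : ∀ p j, ‖α p j‖ ≤ ((p : ℕ) : ℝ) ^ (1 / 2 : ℝ)) (p : Nat.Primes) {x : ℝ}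
    (hx : 7 / 4 ≤ x) : ‖EP.F α p (x : ℂ)‖ ≤ (2 : ℝ) ^ (7 / 4 - x) * (m * 2 * ((p : ℕ) : ℝ) ^ (-(5 / 4 : ℝ))) := by
  unfold EP.F
  have hp2 : (2 : ℝ) ≤ ((p : ℕ) : ℝ) := by exact_mod_cast p.2.two_le
  have hp0 : (0 : ℝ) < ((p : ℕ) : ℝ) := by linarith
  have h1 : ∀ j : Fin m, ‖-log (1 + -EP.u α p j (x : ℂ))‖ ≤
      2 * ((2 : ℝ) ^ (7 / 4 - x) * ((p : ℕ) : ℝ) ^ (-(5 / 4 : ℝ))) := by
    intro j
    obtain ⟨-, a2⟩ := EP.u_le hα p j (s := (x : ℂ)) (by rw [ofReal_re]; exact hx)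
    have h2 := log_le (z := -EP.u α p j (x : ℂ)) (by rw [norm_neg]; exact a2)
    rw [norm_neg] at h2 ⊢
    have h3 : ‖EP.u α p j (x : ℂ)‖ ≤ (2 : ℝ) ^ (7 / 4 - x) * ((p : ℕ) : ℝ) ^ (-(5 / 4 : ℝ)) := by
      unfold EP.u
      rw [norm_mul, Complex.norm_natCast_cpow_of_pos p.2.pos, neg_re, ofReal_re]
      calc ‖α p j‖ * ((p : ℕ) : ℝ) ^ (-x) ≤ ((p : ℕ) : ℝ) ^ (1 / 2 : ℝ) * ((p : ℕ) : ℝ) ^ (-x) := by
            gcongr
            exact hα p j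
        _ = ((p : ℕ) : ℝ) ^ (7 / 4 - x) * ((p : ℕ) : ℝ) ^ (-(5 / 4 : ℝ)) := by
            rw [← Real.rpow_add hp0, ← Real.rpow_add hp0]
            congr 1
            ring
        _ ≤ _ := by
            have h4 : ((p : ℕ) : ℝ) ^ (7 / 4 - x) ≤ (2 : ℝ) ^ (7 / 4 - x) :=
              Real.rpow_le_rpow_of_nonpos (by norm_num) hp2 (by linarith)
            exact mul_le_mul_of_nonneg_right h4 (by positivity)
    linarith
  refine (norm_sum_le _ _).trans ((Finset.sum_le_sum fun j _ => h1 j).trans (le_of_eq ?_))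
  rw [Finset.sum_const, Finset.card_univ, Fintype.card_fin, nsmul_eq_mul]
  ring

theorem LG_small (hα : ∀ p j, ‖α p j‖ ≤ ((p : ℕ) : ℝ) ^ (1 / 2 : ℝ)) {x : ℝ}
    (hx : 7 / 4 ≤ x) : ‖EP.LG α (x : ℂ)‖ ≤ (2 : ℝ) ^ (7 / 4 - x) * (m * (B0 / 2)) := by
  unfold EP.LG
  refine (tsum_of_norm_bounded ((EP.p_sum.mul_left ((m : ℝ) * 2)).mul_left ((2 : ℝ) ^ (7 / 4 - x))).hasSum
    fun p => F_small hα p hx).trans ?_
  rw [tsum_mul_left, tsum_mul_left]
  unfold B0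
  apply le_of_eq
  ring

theorem E_one (hα : ∀ p j, ‖α p j‖ ≤ ((p : ℕ) : ℝ) ^ (1 / 2 : ℝ)) :
    Tendsto (fun x : ℝ => EP.E α x) atTop (𝓝 1) := by
  have h0 : Tendsto (fun x : ℝ => (2 : ℝ) ^ (7 / 4 - x) * (m * (B0 / 2))) atTop (𝓝 0) := by
    have h1 : Tendsto (fun x : ℝ => (2 : ℝ) ^ (7 / 4 - x)) atTop (𝓝 0) := by
      have h2 : (fun x : ℝ => (2 : ℝ) ^ (7 / 4 - x)) =
          fun x : ℝ => Real.exp (Real.log 2 * (7 / 4 - x)) := by
        funext x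
        rw [Real.rpow_def_of_pos (by norm_num)]
      rw [h2]
      refine Real.tendsto_exp_atBot.comp ?_
      refine Tendsto.const_mul_atBot (Real.log_pos (by norm_num)) ?_
      exact tendsto_atBot_add_const_left _ _ tendsto_neg_atTop_atBot
    simpa using h1.mul_const (m * (B0 / 2) : ℝ)
  have h1 : Tendsto (fun x : ℝ => EP.LG α (x : ℂ)) atTop (𝓝 0) := by
    refine squeeze_zero_norm' ?_ h0
    filter_upwards [eventually_ge_atTop (7 / 4 : ℝ)] with x hx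
    exact LG_small hα hx
  have h2 := (Complex.continuous_exp.tendsto 0).comp h1
  rw [Complex.exp_zero] at h2
  refine h2.congr' ?_
  filter_upwards [eventually_ge_atTop (7 / 4 : ℝ)] with x hx
  exact ((EP.prod_eq hα (s := (x : ℂ)) (by rw [ofReal_re]; exact hx)).tprod_eq).symm

theorem E_bdd (hα : ∀ p j, ‖α p j‖ ≤ ((p : ℕ) : ℝ) ^ (1 / 2 : ℝ)) {s : ℂ} (hs : 7 / 4 ≤ s.re) :
    ‖EP.E α s‖ ≤ Real.exp (m * (B0 / 2)) := by
  have h1 : EP.E α s = cexp (EP.LG α s) := (EP.prod_eq hα hs).tprod_eq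
  rw [h1, Complex.norm_exp]
  exact Real.exp_le_exp.2 ((Complex.re_le_norm _).trans (EP.LG_le hα hs))

end

theorem list_fin (l : List ℂ) (f : ℂ → ℂ) : (∏ j : Fin l.length, f (l.get j)) = (l.map f).prod :=
  Pool.Agent.W355.UN.prod_get l f

/-- growth of the normalised function -/
theorem adm_hw {l : List ℂ} {r : ℕ} {A : ℝ} {α : Nat.Primes → Fin l.length → ℂ} {X : ℂ → ℂ}
    (h : EP.HW l.length r A (fun j => l.get j) α X) :
    ∃ w, Adm w X (Gfun A l r (EP.E α)) := by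
  obtain ⟨ε, hε, hfe⟩ := h.fe
  have hl : l ≠ [] := by
    intro h0
    have := h.hm
    rw [h0] at this
    simp at this
  refine ⟨ε, adm_of hε h.entire (fun s => ?_) h.order (by linarith [h.hN] : 0 < A) hl (r := r) (Lf := EP.E α) ?_
    (E_one h.hα) ⟨7 / 4, _, fun s hs => E_bdd h.hα hs⟩⟩
  · rw [hfe (1 - s), map_sub, map_one, sub_sub_cancel]
  · obtain ⟨σ, hσ⟩ := h.eq
    refine ⟨σ, fun s hs => ?_⟩
    rw [hσ s hs, list_fin l (fun a : ℂ => Gammaℝ (s + a))]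
    unfold Gfun
    ring

/-- non-vanishing -/
theorem hw_ne {m r : ℕ} {A : ℝ} {a : Fin m → ℂ} {α : Nat.Primes → Fin m → ℂ} {X : ℂ → ℂ}
    (h : EP.HW m r A a α X) {s : ℂ} (hs : 7 / 4 < s.re) : X s ≠ 0 := by
  rw [h.eq' hs, Pool.Agent.W355.UN.gaf_eq]
  have hA : (A : ℂ) ≠ 0 := by
    have := h.hN
    exact_mod_cast (by linarith : (A : ℝ) ≠ 0)
  have hs0 : s ≠ 0 := fun h0 => by
    rw [h0] at hs
    norm_num at hs
  have hs1 : s - 1 ≠ 0 := fun h0 => by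
    rw [sub_eq_zero] at h0
    rw [h0] at hs
    norm_num at hs
  refine mul_ne_zero (mul_ne_zero ?_ ?_) (mul_ne_zero (pow_ne_zero _ (mul_ne_zero hs0 hs1)) (EP.E_an h.hα hs).2)
  · rw [Complex.cpow_def_of_ne_zero hA]
    exact Complex.exp_ne_zero _
  · refine Finset.prod_ne_zero_iff.2 fun j _ => ?_
    refine Complex.Gammaℝ_ne_zero_of_re_pos ?_
    have := h.re_ge j
    simp only [add_re]
    linarith

/-- the powers of `y² = x³ - x` -/
theorem pow_data (g m : ℕ) (hm : m < g) {Λ : ℂ → ℂ} (h1 : Differentiable ℂ Λ)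
    (h2 : ∀ s : ℂ, (((2 * m + 1 : ℕ) : ℝ) - 1) / 2 < s.re →
      Λ s = (Pool.Agent.W355.HW.Cond g (2 * m + 1) : ℂ) ^ ((s - ((2 * m + 1 : ℕ) : ℂ) / 2) / 2) *
        Pool.Agent.W355.HW.GamF g (2 * m + 1) s * Pool.Agent.W355.HW.LL0 g m (s - ((2 * m + 1 : ℕ) : ℂ) / 2)) :
    ∃ (X : ℂ → ℂ) (w : ℂ) (G : ℂ → ℂ), Pool.Agent.W355.LC.GoodA w X G ∧ (∀ s : ℂ, 1 < s.re → X s ≠ 0) ∧
      ∀ z : ℂ, X z = 1 * Λ (z + (((((2 * m + 1 : ℕ) : ℝ) / 2 : ℝ)) : ℂ)) := by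
  obtain ⟨X, hpk, hst⟩ := Pool.Agent.W355.UN.pk_pow g m hm
  have hd := hpk.diff
  obtain ⟨μ, L, u, ec, σ, hσ⟩ := hpk
  have hc2 : ((2 * m + 1 : ℕ) : ℂ) / 2 = (((((2 * m + 1 : ℕ) : ℝ) / 2 : ℝ)) : ℂ) := by
    push_cast
    rfl
  have hd2 : Differentiable ℂ fun z : ℂ => Λ (z + (((((2 * m + 1 : ℕ) : ℝ) / 2 : ℝ)) : ℂ)) :=
    h1.comp (by fun_prop)
  have e : (fun z => Λ (z + (((((2 * m + 1 : ℕ) : ℝ) / 2 : ℝ)) : ℂ))) = X := by
    refine ent_uniq hd hd2 (G := Pool.Agent.W355.HW.GP g m) ⟨σ, hσ⟩ ⟨0, fun s hs => ?_⟩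
    show Λ (s + (((((2 * m + 1 : ℕ) : ℝ) / 2 : ℝ)) : ℂ)) = _
    rw [h2 _ (by rw [add_re, ofReal_re]; linarith), hc2, add_sub_cancel_right]
    unfold Pool.Agent.W355.HW.GP
    rw [Pool.Agent.W355.HW.BB_eq, ← Pool.Agent.W355.HW.GamF_eq]
    rw [← hc2]
    simp only [add_sub_cancel_right]
  obtain ⟨X2, ⟨w, hg⟩, -⟩ := Pool.Agent.W355.HW.goodR_prod Pool.Agent.W355.HW.G1
    Pool.Agent.W355.HW.goodR_one (Pool.Agent.W355.HW.mu g m) (Pool.Agent.W355.HW.mu_zero hm) m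
  have hgA := Pool.Agent.W355.LC.goodA_of_good hg
  have e2 : X2 = X := by
    obtain ⟨l, M, b, hl, hw, hc, σ2, hσ2⟩ := hg
    exact ent_uniq hd hc.entire (G := Pool.Agent.W355.HW.GP g m) ⟨σ, hσ⟩ ⟨σ2, fun s hs => by
      rw [hσ2 s hs, Pool.Agent.W355.HW.GP_eq]⟩
  rw [e2] at hgA
  refine ⟨X, w, _, hgA, fun s hs => u.Xne (by rw [add_zero]; exact hs), fun z => ?_⟩
  rw [← e, one_mul]

end Run7.h278.LI
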