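import Pool.Agent.H128R3.JD.DelHk
import Pool.Agent.H128R3.GJB
import Pool.Agent.Run7.h278.LI.Shift

set_option autoImplicit false

/-!
# Mellin transforms of positive kernels
-/

namespace Run7.h278.LI

open Complex Filter Topology Metric Set MeasureTheory
open scoped ComplexConjugate
open Pool.Agent.H471R3.GJ
open Pool.Agent.H128R3.GJB (X1 X1_kp kp_pos kp_ne XX_diff X1_diff)
open Pool.Agent.W355.GJ.Crit (Scale)

theorem phi_pos {H : Hk} (h : IsHk H) (he : H.ε = 1) (hφ : ∀ y, 0 < y → 0 < H.φ y) (t : ℝ) :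
    0 < (dat H).Φ t := by
  show 0 < PhiH H t
  unfold PhiH
  rw [if_pos he]
  unfold Phi0
  have := kp_pos h
  have h2 := hφ (Real.exp (t / kp H)) (Real.exp_pos _)
  positivity

theorem isL_weak {D : Dat} (h : IsL D) : Pool.Agent.W355.GJ.IsL D where
  κ_pos := h.κ_pos
  c_pos := h.c_pos
  A_nonneg := h.A_nonneg
  A0_one := h.A0_one
  w_large := h.w_large
  w_large2 := h.w_large2
  Φ_cont := h.Φ_cont
  Φ_even := h.Φ_even
  Φ_pos := h.Φ_pos
  Φ_dec := h.Φ_dec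
  XX_eq := h.XX_eq
  XX_zero := h.XX_zero
  HH_diff := ⟨0, le_rfl, h.HH_diff⟩
  HH_log := h.HH_log
  a_one := h.a_one
  a_le := h.a_le
  XX_dir := h.XX_dir

theorem xx_pos {D : Dat} (h : IsL D) (hΦ : ∀ t, 0 < D.Φ t) (x : ℝ) : D.XX (x : ℂ) ≠ 0 := by
  obtain ⟨C, c1, c2, h1, h2, hb⟩ := h.Φ_dec
  have hint := HOdd.dom h.Φ_cont h1 h2 hb (x : ℂ)
  have e : ∀ t : ℝ, ((D.Φ t : ℝ) : ℂ) * cexp ((x : ℂ) * t) = ((D.Φ t * Real.exp (x * t) : ℝ) : ℂ) := by
    intro t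
    push_cast
    rfl
  rw [h.XX_eq]
  simp only [e] at hint ⊢
  have hint2 : Integrable (fun t : ℝ => D.Φ t * Real.exp (x * t)) := by
    have := hint.re
    simpa only [RCLike.re_to_complex, Complex.ofReal_re] using this
  have hpos : 0 < ∫ t : ℝ, D.Φ t * Real.exp (x * t) := by
    rw [integral_pos_iff_support_of_nonneg (fun t => (mul_pos (hΦ t) (Real.exp_pos _)).le) hint2]
    have hsup : Function.support (fun t : ℝ => D.Φ t * Real.exp (x * t)) = Set.univ := by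
      ext t
      simp only [Function.mem_support, Set.mem_univ, iff_true]
      exact (mul_pos (hΦ t) (Real.exp_pos _)).ne'
    rw [hsup]
    simp
  rw [integral_complex_ofReal]
  exact_mod_cast hpos.ne'

theorem even_sym {H : Hk} (h : IsHk H) (he : H.ε = 1) (s : ℂ)
    (hs : mellin (fun y : ℝ => ((H.φ y : ℝ) : ℂ)) s = 0) :
    mellin (fun y : ℝ => ((H.φ y : ℝ) : ℂ)) (2 * ((H.k / 2 : ℝ) : ℂ) - s) = 0 := by
  have hL := isL_weak (Pool.Agent.H128R3.GJA.isHk_isL H h).2.2.2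
  have hkc := kp_ne h
  have hX1 : ∀ z : ℂ, X1 H z = mellin (fun y : ℝ => ((H.φ y : ℝ) : ℂ)) (((H.k / 2 : ℝ) : ℂ) + z) := fun z => rfl
  have hXX : ∀ z : ℂ, (dat H).XX z = X1 H ((kp H : ℂ) * z) := by
    intro z
    have := X1_kp h z
    rwa [if_pos he, one_mul] at this
  have hev : ∀ z : ℂ, (dat H).XX (-z) = (dat H).XX z := by
    intro z
    obtain ⟨-, hb2, -⟩ := Pool.Agent.W355.GJ.b1 (dat H) hL
    rw [← hb2, ← hb2, neg_sq]
  have h1 : (dat H).XX ((s - ((H.k / 2 : ℝ) : ℂ)) / (kp H : ℂ)) = 0 := by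
    rw [hXX, mul_div_cancel₀ _ hkc, hX1, add_sub_cancel, hs]
  rw [← hev, hXX, mul_neg, mul_div_cancel₀ _ hkc, hX1] at h1
  rw [← h1]
  congr 1
  ring

theorem even_facts {H : Hk} (h : IsHk H) (he : H.ε = 1) (hφ : ∀ y, 0 < y → 0 < H.φ y) :
    Differentiable ℂ (mellin (fun y : ℝ => ((H.φ y : ℝ) : ℂ))) ∧
    (∀ t : ℝ, mellin (fun y : ℝ => ((H.φ y : ℝ) : ℂ)) t ≠ 0) ∧
    (ZF (mellin (fun y : ℝ => ((H.φ y : ℝ) : ℂ))) (H.k / 2) ↔
      ∀ s : ℂ, mellin (fun y : ℝ => ((H.φ y : ℝ) : ℂ)) s = 0 → s.re = H.k / 2) ∧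
    ∀ σ a : ℝ, H.k / 2 ≤ σ → σ < a → LiFacts (liC (mellin (fun y : ℝ => ((H.φ y : ℝ) : ℂ))) σ a)
      (ZF (mellin (fun y : ℝ => ((H.φ y : ℝ) : ℂ))) σ)
      (∀ t : ℝ, a ≤ t → mellin (fun y : ℝ => ((H.φ y : ℝ) : ℂ)) t ≠ 0) := by
  set Λ : ℂ → ℂ := mellin (fun y : ℝ => ((H.φ y : ℝ) : ℂ)) with hΛ
  have hL0 : IsL (dat H) := (Pool.Agent.H128R3.GJA.isHk_isL H h).2.2.2
  have hL := isL_weak hL0
  have hkp := kp_pos h
  have hkc := kp_ne h
  have hX1 : ∀ z : ℂ, X1 H z = Λ (((H.k / 2 : ℝ) : ℂ) + z) := fun z => rfl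
  have hXX : ∀ z : ℂ, (dat H).XX z = X1 H ((kp H : ℂ) * z) := by
    intro z
    have := X1_kp h z
    rwa [if_pos he, one_mul] at this
  have hscale : Scale (dat H) 0 (X1 H) (kp H) 1 := by
    refine ⟨hL, Or.inl rfl, hkp, one_pos, fun z => ?_⟩
    rw [pow_zero, one_mul, Complex.ofReal_one, one_mul]
    exact hXX z
  have hd : Differentiable ℂ Λ := by
    have h1 : Λ = fun s => X1 H (s - ((H.k / 2 : ℝ) : ℂ)) := by
      funext s
      rw [hX1, add_sub_cancel]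
    rw [h1]
    exact (X1_diff h).comp (by fun_prop)
  have hev : ∀ z : ℂ, (dat H).XX (-z) = (dat H).XX z := by
    intro z
    obtain ⟨-, hb2, -⟩ := Pool.Agent.W355.GJ.b1 (dat H) hL
    rw [← hb2, ← hb2, neg_sq]
  have hsym : ∀ s : ℂ, Λ s = 0 → Λ (2 * ((H.k / 2 : ℝ) : ℂ) - s) = 0 := fun s hs => even_sym h he s hs
  have hreal : ∀ t : ℝ, Λ t ≠ 0 := by
    intro t h0
    have h1 := xx_pos hL0 (phi_pos h he hφ) ((t - H.k / 2) / kp H)
    apply h1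
    rw [hXX, hX1]
    push_cast
    rw [mul_div_cancel₀ _ hkc, ← h0]
    congr 1
    push_cast
    ring
  refine ⟨hd, hreal, zf_line hsym, fun σ a hσ ha => ?_⟩
  refine liFacts_of hd ha (hreal a) fun hZ => ?_
  have hη : 0 ≤ σ - H.k / 2 := by linarith
  have hβ : 0 < a - σ := by linarith
  have hz : ∀ z : ℂ, (dat H).XX z = 0 → kp H * |z.re| ≤ σ - H.k / 2 := by
    have hz1 : ∀ z : ℂ, (dat H).XX z = 0 → kp H * z.re ≤ σ - H.k / 2 := by
      intro z hz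
      rw [hXX, hX1] at hz
      have := hZ _ hz
      rw [Complex.add_re, Complex.ofReal_re, Complex.re_ofReal_mul] at this
      linarith
    intro z hz
    have h1 := hz1 z hz
    have h2 := hz1 (-z) (by rw [hev]; exact hz)
    rw [Complex.neg_re] at h2
    rcases abs_cases z.re with ⟨h3, -⟩ | ⟨h3, -⟩
    · rw [h3]; exact h1
    · rw [h3]; exact h2
  have hne : X1 H (((σ - H.k / 2) + (a - σ) : ℝ) : ℂ) ≠ 0 := by
    rw [hX1, show (((H.k / 2 : ℝ) : ℂ) + (((σ - H.k / 2) + (a - σ) : ℝ) : ℂ)) = (a : ℂ) by push_cast; ring]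
    exact hreal a
  have key := scale_half hscale (Pool.Agent.W355.GJ.Crit.logCriterion hscale) (X1_diff h) hη hz hβ hne
  have e : (fun z : ℂ => X1 H (((σ - H.k / 2 : ℝ) : ℂ) + cay (a - σ) z)) =
      fun z : ℂ => Λ ((σ : ℂ) + cay (a - σ) z) := by
    funext z
    rw [hX1]
    congr 1
    push_cast
    ring
  rw [e] at key
  exact key

end Run7.h278.LI
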