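import Pool.Agent.Run7.h278.LI.Bohr

set_option autoImplicit false

/-!
# The dominating terms of a power sum
-/

namespace Run7.h278.LI

theorem fin_of_multiset {Z : Multiset ℂ} (h : Z ≠ 0) :
    ∃ (m : ℕ) (f : Fin (m + 1) → ℂ), Z = Finset.univ.val.map f := by
  induction Z using Quotient.inductionOn with
  | h l =>
    cases l with
    | nil => exact absurd rfl h
    | cons a l =>
      refine ⟨l.length, fun i => (a :: l).get i, ?_⟩
      have := Fin.univ_val_map (fun i : Fin (l.length + 1) => (a :: l).get i)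
      rw [this]
      congr 1
      exact (List.ofFn_get (a :: l)).symm

/-- negligible against `R⁻ⁿ` -/
def Sm (R : ℝ) (a : ℕ → ℝ) : Prop := ∃ C q : ℝ, 0 ≤ C ∧ 0 ≤ q ∧ q < 1 ∧ ∀ n : ℕ, 1 ≤ n → |a n| * R ^ n ≤ C * q ^ n

theorem Sm.add {R : ℝ} (hR : 0 < R) {a b : ℕ → ℝ} (ha : Sm R a) (hb : Sm R b) : Sm R (fun n => a n + b n) := by
  obtain ⟨C1, q1, h1, h2, h3, h4⟩ := ha
  obtain ⟨C2, q2, k1, k2, k3, k4⟩ := hb
  refine ⟨C1 + C2, max q1 q2, by positivity, le_max_of_le_left h2, max_lt h3 k3, fun n hn => ?_⟩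
  calc |a n + b n| * R ^ n ≤ (|a n| + |b n|) * R ^ n := by
        gcongr
        exact abs_add_le _ _
    _ = |a n| * R ^ n + |b n| * R ^ n := by ring
    _ ≤ C1 * q1 ^ n + C2 * q2 ^ n := add_le_add (h4 n hn) (k4 n hn)
    _ ≤ C1 * (max q1 q2) ^ n + C2 * (max q1 q2) ^ n := by
        gcongr
        · exact le_max_left _ _
        · exact le_max_right _ _
    _ = _ := by ring

theorem Sm.geom {R : ℝ} (hR : 0 < R) {b : ℂ} (hb : R < ‖b‖) : Sm R (fun n => ((b⁻¹) ^ n).re) := by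
  have hb0 : 0 < ‖b‖ := hR.trans hb
  refine ⟨1, R / ‖b‖, zero_le_one, by positivity, by rwa [div_lt_one hb0], fun n _ => ?_⟩
  calc |((b⁻¹) ^ n).re| * R ^ n ≤ ‖(b⁻¹) ^ n‖ * R ^ n := by
        gcongr
        exact Complex.abs_re_le_norm _
    _ = 1 * (R / ‖b‖) ^ n := by
        rw [norm_pow, norm_inv, div_pow, inv_pow]
        ring

theorem Sm.sum {R : ℝ} (hR : 0 < R) (Z : Multiset ℂ) (hZ : ∀ b ∈ Z, R < ‖b‖) :
    Sm R (fun n => ((Z.map (fun b => (b⁻¹) ^ n)).sum).re) := by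
  induction Z using Multiset.induction_on with
  | empty => exact ⟨0, 0, le_rfl, le_rfl, zero_lt_one, by simp⟩
  | cons b Z ih =>
    have h1 := Sm.geom hR (hZ b (Multiset.mem_cons_self b Z))
    have h2 := ih fun c hc => hZ c (Multiset.mem_cons_of_mem hc)
    have h3 := Sm.add hR h1 h2
    simpa only [Multiset.map_cons, Multiset.sum_cons, Complex.add_re] using h3

theorem dom (Z : Multiset ℂ) {R : ℝ} (hR : 0 < R) (hmin : ∀ b ∈ Z, R ≤ ‖b‖) (hex : ∃ b ∈ Z, ‖b‖ = R)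
    (l e : ℕ → ℝ) (he : Sm R e)
    (hl : ∀ n : ℕ, 1 ≤ n → l n = -((Z.map (fun b => (b⁻¹) ^ n)).sum).re + e n) :
    ∃ (m : ℕ) (ω : Fin (m + 1) → ℂ) (C q : ℝ), 0 ≤ q ∧ q < 1 ∧
      (∀ i, ∃ b ∈ Z, ‖b‖ = R ∧ ω i = R * b⁻¹) ∧
      ∀ n : ℕ, 1 ≤ n → |l n * R ^ n + osc ω n| ≤ C * q ^ n := by
  classical
  set Z1 := Z.filter (fun b => ‖b‖ = R) with hZ1
  set Z2 := Z.filter (fun b => ¬‖b‖ = R) with hZ2
  have hsplit : Z1 + Z2 = Z := Multiset.filter_add_not _ _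
  have hne : Z1 ≠ 0 := by
    obtain ⟨b, hb, hbR⟩ := hex
    intro h0
    have : b ∈ Z1 := by
      rw [hZ1, Multiset.mem_filter]
      exact ⟨hb, hbR⟩
    rw [h0] at this
    exact absurd this (Multiset.notMem_zero b)
  have hs2 : Sm R (fun n => ((Z2.map (fun b => (b⁻¹) ^ n)).sum).re) := by
    refine Sm.sum hR Z2 fun b hb => ?_
    rw [hZ2, Multiset.mem_filter] at hb
    exact lt_of_le_of_ne (hmin b hb.1) (fun h => hb.2 h.symm)
  obtain ⟨m, f, hf⟩ := fin_of_multiset hne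
  obtain ⟨C, q, hC, hq0, hq1, hb⟩ := Sm.add hR hs2 he
  obtain ⟨C1, q1, hC1, hq10, hq11, hb1⟩ := hs2
  obtain ⟨C2, q2, hC2, hq20, hq21, hb2⟩ := he
  refine ⟨m, fun i => R * (f i)⁻¹, C1 + C2, max q1 q2, le_max_of_le_left hq10, max_lt hq11 hq21, ?_, ?_⟩
  · intro i
    have h1 : f i ∈ Z1 := by
      rw [hf, Multiset.mem_map]
      exact ⟨i, Finset.mem_univ i, rfl⟩
    rw [hZ1, Multiset.mem_filter] at h1
    exact ⟨f i, h1.1, h1.2, rfl⟩
  · intro n hn
    have h2 : osc (fun i => (R : ℂ) * (f i)⁻¹) n = ((Z1.map (fun b => (b⁻¹) ^ n)).sum).re * R ^ n := by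
      unfold osc
      rw [hf, Multiset.map_map]
      have h3 : ∑ i, ((R : ℂ) * (f i)⁻¹) ^ n =
          (Multiset.map ((fun b : ℂ => (b⁻¹) ^ n) ∘ f) Finset.univ.val).sum * ((R ^ n : ℝ) : ℂ) := by
        rw [Finset.sum, ← Multiset.sum_map_mul_right]
        congr 1
        refine Multiset.map_congr rfl fun i _ => ?_
        rw [mul_pow, Function.comp_apply]
        push_cast
        ring
      rw [h3, Complex.re_mul_ofReal]
    have h4 : l n * R ^ n + osc (fun i => (R : ℂ) * (f i)⁻¹) n =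
        -(((Z2.map (fun b => (b⁻¹) ^ n)).sum).re * R ^ n) + e n * R ^ n := by
      rw [h2, hl n hn, ← hsplit, Multiset.map_add, Multiset.sum_add, Complex.add_re]
      ring
    rw [h4]
    have hRn : 0 < R ^ n := by positivity
    calc _ ≤ |-(((Z2.map (fun b => (b⁻¹) ^ n)).sum).re * R ^ n)| + |e n * R ^ n| := abs_add_le _ _
      _ = |((Z2.map (fun b => (b⁻¹) ^ n)).sum).re| * R ^ n + |e n| * R ^ n := by
          rw [abs_neg, abs_mul, abs_mul, abs_of_pos hRn]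
      _ ≤ C1 * q1 ^ n + C2 * q2 ^ n := add_le_add (hb1 n hn) (hb2 n hn)
      _ ≤ C1 * (max q1 q2) ^ n + C2 * (max q1 q2) ^ n := by
          gcongr
          · exact le_max_left _ _
          · exact le_max_right _ _
      _ = _ := by ring

end Run7.h278.LI
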