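import Pool.Agent.Run7.h278.LI.Gl
import Pool.Agent.Helper935.EX.Ent

set_option autoImplicit false

/-!
# Li coefficients of entire functions of order less than two with a functional equation
-/

namespace Run7.h278.LI

open Complex Filter Topology Metric
open scoped ComplexConjugate
open Pool.Agent.Helper935.EX (rt rt_sq norm_rt_sq even_rt differentiable_even_rt)

/-- order at most `3/2` -/
def Gr32 (Λ : ℂ → ℂ) : Prop := ∃ K : ℝ, ∀ s : ℂ, ‖Λ s‖ ≤ Real.exp (K * (1 + ‖s‖) ^ (3 / 2 : ℝ))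

/-- fast growth on the positive real axis -/
def Up (Λ : ℂ → ℂ) : Prop := (∀ᶠ x : ℝ in atTop, Λ x ≠ 0) ∧
  Tendsto (fun x : ℝ => ‖Λ ((x : ℂ) + 2)‖ / ‖Λ x‖) atTop atTop

/-- `conj Λ(conj s)` -/
noncomputable def stF (Λ : ℂ → ℂ) (s : ℂ) : ℂ := conj (Λ (conj s))

theorem stF_diff {Λ : ℂ → ℂ} (h : Differentiable ℂ Λ) : Differentiable ℂ (stF Λ) := by
  intro s
  have h1 := (h (conj s)).hasDerivAt
  have h2 : HasDerivAt (stF Λ) (conj (deriv Λ (conj s))) s := by
    have h3 := HasDerivAt.conj_conj h1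
    rw [Complex.conj_conj] at h3
    exact h3
  exact h2.differentiableAt

theorem Up.not_const {Λ : ℂ → ℂ} (h : Up Λ) {c : ℂ} (hc : ∀ s, Λ s * stF Λ s = c) : False := by
  obtain ⟨h1, h2⟩ := h
  have hn : ∀ x : ℝ, ‖Λ x‖ ^ 2 = ‖c‖ := by
    intro x
    rw [← hc x, norm_mul]
    unfold stF
    rw [Complex.conj_ofReal, RCLike.norm_conj, sq]
  have h3 : ∀ᶠ x : ℝ in atTop, ‖Λ ((x : ℂ) + 2)‖ / ‖Λ x‖ = 1 := by
    filter_upwards [h1] with x hx
    have e1 := hn (x + 2)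
    have e2 := hn x
    have e3 : (((x + 2 : ℝ)) : ℂ) = (x : ℂ) + 2 := by push_cast; rfl
    rw [e3] at e1
    have e4 : ‖Λ ((x : ℂ) + 2)‖ ^ 2 = ‖Λ x‖ ^ 2 := by rw [e1, e2]
    have e5 := (sq_eq_sq₀ (norm_nonneg _) (norm_nonneg _)).1 e4
    rw [e5, div_self (norm_ne_zero_iff.2 hx)]
  have h4 := h2.eventually_gt_atTop 1
  obtain ⟨x, hx1, hx2⟩ := (h3.and h4).exists
  rw [hx1] at hx2
  exact lt_irrefl _ hx2

theorem rpow_aux {t : ℝ} (ht : 0 ≤ t) {c : ℝ} (hc : 0 ≤ c) :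
    (c + t) ^ (3 / 2 : ℝ) ≤ (2 * (1 + c ^ 2)) ^ (3 / 4 : ℝ) * (1 + t ^ 2) ^ (3 / 4 : ℝ) := by
  have h1 : (c + t) ^ (3 / 2 : ℝ) = ((c + t) ^ 2) ^ (3 / 4 : ℝ) := by
    rw [← Real.rpow_natCast (c + t) 2, ← Real.rpow_mul (by positivity)]
    norm_num
  rw [h1, ← Real.mul_rpow (by positivity) (by positivity)]
  apply Real.rpow_le_rpow (by positivity) _ (by norm_num)
  nlinarith [sq_nonneg (c - t), sq_nonneg (c * t)]

/-- **The general theorem.** -/
theorem ent_facts {Λ : ℂ → ℂ} {w : ℂ} (hd : Differentiable ℂ Λ) (hw : ‖w‖ = 1)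
    (fe : ∀ s, Λ (1 - s) = w * conj (Λ (conj s))) (hg : Gr32 Λ) (hup : Up Λ)
    {σ a : ℝ} (hσ : 1 / 2 ≤ σ) (ha : σ < a) (hne : Λ a ≠ 0) :
    LiFacts (liC Λ σ a) (ZF Λ σ) (∀ t : ℝ, a ≤ t → Λ t ≠ 0) := by
  refine liFacts_of hd ha hne fun hZ => ?_
  set F : ℂ → ℂ := fun u => Λ (1 / 2 + u) * stF Λ (1 / 2 + u) with hF
  have hFd : Differentiable ℂ F :=
    (hd.comp (by fun_prop)).mul ((stF_diff hd).comp (by fun_prop))
  have hww : w * conj w = 1 := by
    rw [Complex.mul_conj, Complex.normSq_eq_norm_sq, hw]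
    simp
  have hFe : ∀ u, F (-u) = F u := by
    intro u
    rw [hF]
    beta_reduce
    unfold stF
    have e1 : (1 / 2 + -u : ℂ) = 1 - (1 / 2 + u) := by ring
    have e2 : conj (1 - (1 / 2 + u)) = 1 - conj (1 / 2 + u) := by
      rw [map_sub, map_one]
    rw [e1, e2, fe, fe, Complex.conj_conj, map_mul, Complex.conj_conj]
    linear_combination (conj (Λ (conj (1 / 2 + u))) * Λ (1 / 2 + u)) * hww
  have hFc : ∀ u, F (conj u) = conj (F u) := by
    intro u
    rw [hF]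
    beta_reduce
    unfold stF
    have e1 : (1 / 2 + conj u : ℂ) = conj (1 / 2 + u) := by
      rw [map_add, map_div₀, map_one, map_ofNat]
    rw [e1, Complex.conj_conj, map_mul, Complex.conj_conj]
    ring
  set f : ℂ → ℂ := fun x => F (rt x) with hf
  have hfw : ∀ u, f (u ^ 2) = F u := fun u => even_rt hFe rfl
  have hfd : Differentiable ℂ f := differentiable_even_rt hFd hFe
  have hfc : ∀ x, f (conj x) = conj (f x) := by
    intro x
    have h1 : f (conj x) = F (conj (rt x)) := even_rt hFe (by rw [← map_pow, rt_sq])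
    rw [h1, hFc]
  have hfg : ∃ K : ℝ, ∀ x, ‖f x‖ ≤ Real.exp (K * (1 + ‖x‖) ^ (3 / 4 : ℝ)) := by
    obtain ⟨K, hK⟩ := hg
    refine ⟨2 * |K| * (2 * (1 + (3 / 2) ^ 2)) ^ (3 / 4 : ℝ), fun x => ?_⟩
    have hb : ∀ s : ℂ, ‖s‖ ≤ 1 / 2 + ‖rt x‖ → ‖Λ s‖ ≤ Real.exp (|K| * (3 / 2 + ‖rt x‖) ^ (3 / 2 : ℝ)) := by
      intro s hs
      refine (hK s).trans (Real.exp_le_exp.2 ?_)
      calc K * (1 + ‖s‖) ^ (3 / 2 : ℝ) ≤ |K| * (1 + ‖s‖) ^ (3 / 2 : ℝ) := by
            gcongr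
            exact le_abs_self K
        _ ≤ |K| * (3 / 2 + ‖rt x‖) ^ (3 / 2 : ℝ) :=
            mul_le_mul_of_nonneg_left (Real.rpow_le_rpow (by positivity) (by linarith) (by norm_num))
              (abs_nonneg K)
    have hs1 : ‖(1 / 2 + rt x : ℂ)‖ ≤ 1 / 2 + ‖rt x‖ := by
      refine (norm_add_le _ _).trans (le_of_eq ?_)
      congr 1
      norm_num
    have hs2 : ‖conj (1 / 2 + rt x : ℂ)‖ ≤ 1 / 2 + ‖rt x‖ := by rwa [RCLike.norm_conj]
    have h2 := hb _ hs1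
    have h3 : ‖stF Λ (1 / 2 + rt x)‖ ≤ Real.exp (|K| * (3 / 2 + ‖rt x‖) ^ (3 / 2 : ℝ)) := by
      unfold stF
      rw [RCLike.norm_conj]
      exact hb _ hs2
    have h4 := rpow_aux (norm_nonneg (rt x)) (c := 3 / 2) (by norm_num)
    rw [norm_rt_sq] at h4
    calc ‖f x‖ = ‖Λ (1 / 2 + rt x)‖ * ‖stF Λ (1 / 2 + rt x)‖ := by
          rw [hf]
          beta_reduce
          rw [hF]
          beta_reduce
          rw [norm_mul]
      _ ≤ Real.exp (|K| * (3 / 2 + ‖rt x‖) ^ (3 / 2 : ℝ)) * Real.exp (|K| * (3 / 2 + ‖rt x‖) ^ (3 / 2 : ℝ)) := by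
          gcongr
      _ = Real.exp (2 * |K| * (3 / 2 + ‖rt x‖) ^ (3 / 2 : ℝ)) := by
          rw [← Real.exp_add]
          congr 1
          ring
      _ ≤ Real.exp (2 * |K| * ((2 * (1 + (3 / 2) ^ 2)) ^ (3 / 4 : ℝ) * (1 + ‖x‖) ^ (3 / 4 : ℝ))) := by
          gcongr
      _ = _ := by
          congr 1
          ring
  have hβ : 0 < a - σ := by linarith
  have hsta : stF Λ (a : ℂ) ≠ 0 := by
    unfold stF
    rw [Complex.conj_ofReal]
    exact (_root_.map_ne_zero _).2 hne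
  have hft : f (((a - 1 / 2) ^ 2 : ℝ) : ℂ) ≠ 0 := by
    have e1 : (((a - 1 / 2) ^ 2 : ℝ) : ℂ) = ((a : ℂ) - 1 / 2) ^ 2 := by push_cast; ring
    rw [e1, hfw, hF]
    beta_reduce
    have e2 : (1 / 2 + ((a : ℂ) - 1 / 2) : ℂ) = a := by ring
    rw [e2]
    exact mul_ne_zero hne hsta
  have hzero : ∀ u : ℂ, F u = 0 → (u.re ≤ σ - 1 / 2) := by
    intro u hu
    have e1 : (1 / 2 + u : ℂ).re = 1 / 2 + u.re := by
      rw [Complex.add_re]
      norm_num
    rcases mul_eq_zero.1 hu with h1 | h1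
    · have := hZ _ h1
      rw [e1] at this
      linarith
    · unfold stF at h1
      have := hZ _ ((_root_.map_eq_zero _).1 h1)
      rw [Complex.conj_re, e1] at this
      linarith
  have hfz : ∀ u, f (u ^ 2) = 0 → |u.re| ≤ σ - 1 / 2 := by
    intro u hu
    rw [hfw] at hu
    rw [abs_le]
    constructor
    · have := hzero (-u) (by rw [hFe]; exact hu)
      rw [Complex.neg_re] at this
      linarith
    · exact hzero u hu
  obtain ⟨hpos, hneb⟩ := pos_half hfd hfc hfg hβ hft hfz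
  have hfΛ : ∀ z, f ((((σ - 1 / 2 : ℝ) : ℂ) + cay (a - σ) z) ^ 2) =
      Λ (σ + cay (a - σ) z) * stF Λ (σ + cay (a - σ) z) := by
    intro z
    rw [hfw, hF]
    beta_reduce
    have e1 : (1 / 2 + (((σ - 1 / 2 : ℝ) : ℂ) + cay (a - σ) z) : ℂ) = σ + cay (a - σ) z := by
      push_cast
      ring
    rw [e1]
  simp only [hfΛ] at hpos hneb
  have A1 : AnalyticAt ℂ (fun z => Λ (σ + cay (a - σ) z)) 0 :=
    (hd.comp_differentiableOn ((cay_diff _).const_add _)).analyticAt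
      (isOpen_ball.mem_nhds (mem_ball_self one_pos))
  have A2 : AnalyticAt ℂ (fun z => stF Λ (σ + cay (a - σ) z)) 0 :=
    ((stF_diff hd).comp_differentiableOn ((cay_diff _).const_add _)).analyticAt
      (isOpen_ball.mem_nhds (mem_ball_self one_pos))
  have ebase : (σ : ℂ) + ((a - σ : ℝ) : ℂ) = (a : ℂ) := by push_cast; ring
  have N1 : (fun z => Λ (σ + cay (a - σ) z)) 0 ≠ 0 := by
    beta_reduce
    rw [cay_zero, ebase]
    exact hne
  have N2 : (fun z => stF Λ (σ + cay (a - σ) z)) 0 ≠ 0 := by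
    beta_reduce
    rw [cay_zero, ebase]
    exact hsta
  have hcf : ∀ n, cf (fun z => Λ (σ + cay (a - σ) z) * stF Λ (σ + cay (a - σ) z)) n =
      ((2 * (cf (fun z => Λ (σ + cay (a - σ) z)) n).re : ℝ) : ℂ) := by
    intro n
    rw [cf_mul A1 A2 N1 N2]
    have e2 : (fun z => stF Λ (σ + cay (a - σ) z)) = fun z => conj ((fun z => Λ (σ + cay (a - σ) z)) (conj z)) := by
      ext z
      unfold stF
      beta_reduce
      congr 2
      have hcs : cay (a - σ) (conj z) = conj (cay (a - σ) z) := by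
        unfold cay
        rw [map_mul, map_div₀, map_add, map_sub, map_one, Complex.conj_ofReal]
      rw [hcs, map_add, Complex.conj_ofReal]
    have e3 := cf_star (f := fun z => Λ (σ + cay (a - σ) z)) n
    beta_reduce at e3 e2
    rw [e2, e3]
    exact Complex.add_conj _
  obtain ⟨k2, k3, k4⟩ := hpos
  have hcf' : ∀ n, (cf (fun z => Λ (σ + cay (a - σ) z) * stF Λ (σ + cay (a - σ) z)) n).re =
      2 * (cf (fun z => Λ (σ + cay (a - σ) z)) n).re := by
    intro n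
    rw [hcf, Complex.ofReal_re]
  beta_reduce at k2 k3 k4
  simp only [hcf'] at k2 k3 k4
  refine ⟨⟨fun n => ?_, fun n => ?_, fun n => ?_⟩, ?_⟩
  · have := k2 n
    beta_reduce
    linarith
  · have := k3 n
    beta_reduce
    linarith
  · have := k4 n
    beta_reduce
    linarith
  refine lt_of_le_of_ne (by linarith [k2 0]) fun h0 => ?_
  have hall : ∀ n, cf (fun z => Λ (σ + cay (a - σ) z) * stF Λ (σ + cay (a - σ) z)) n = 0 := by
    intro n
    rw [hcf]
    have h1 := k4 n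
    rw [← h0, mul_zero, mul_zero] at h1
    have h2 := k2 n
    have h3 : 2 * (cf (fun z => Λ (σ + cay (a - σ) z)) n).re = 0 := le_antisymm h1 h2
    rw [h3, Complex.ofReal_zero]
  have hPd : DifferentiableOn ℂ (fun z => Λ (σ + cay (a - σ) z) * stF Λ (σ + cay (a - σ) z)) (ball 0 1) :=
    (hd.comp_differentiableOn ((cay_diff _).const_add _)).mul
      ((stF_diff hd).comp_differentiableOn ((cay_diff _).const_add _))
  obtain ⟨c0, hc0⟩ := const_of_cf hPd hneb hall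
  refine hup.not_const (c := c0) ?_
  have hP : Differentiable ℂ (fun s => Λ s * stF Λ s) := hd.mul (stF_diff hd)
  have hF' : AnalyticOnNhd ℂ (fun s => Λ s * stF Λ s) Set.univ := hP.differentiableOn.analyticOnNhd isOpen_univ
  have hC' : AnalyticOnNhd ℂ (fun _ : ℂ => c0) Set.univ := analyticOnNhd_const
  have heq := hF'.eq_of_eventuallyEq hC' (z₀ := ((σ + 1 : ℝ) : ℂ)) (by
    have hopen : IsOpen {u : ℂ | σ < u.re} := isOpen_lt continuous_const Complex.continuous_re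
    filter_upwards [hopen.mem_nhds (show ((σ + 1 : ℝ) : ℂ) ∈ {u : ℂ | σ < u.re} by
      show σ < _
      rw [Complex.ofReal_re]
      linarith)] with u hu
    have hu' : σ < u.re := hu
    obtain ⟨z, hz, hzu⟩ := cay_surj hβ (w := u - σ) (by
      rw [Complex.sub_re, Complex.ofReal_re]
      linarith)
    have := hc0 z hz
    rw [hzu, add_sub_cancel] at this
    exact this)
  exact fun s => congrFun heq s

end Run7.h278.LI
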