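import Pool.Agent.Run7.h278.LI.Bohr

set_option autoImplicit false

/-!
# Examples of sets of Bohr recurrence
-/

namespace Run7.h278.LI

open Finset

/-- the cell of the fractional part -/
noncomputable def cell (K : ℕ) (x : ℝ) : Fin (K + 1) :=
  ⟨⌊((K : ℝ) + 1) * Int.fract x⌋₊, by
    have h0 : (0 : ℝ) ≤ ((K : ℝ) + 1) * Int.fract x := mul_nonneg (by positivity) (Int.fract_nonneg x)
    rw [Nat.floor_lt h0]
    push_cast
    calc ((K : ℝ) + 1) * Int.fract x < ((K : ℝ) + 1) * 1 := by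
          gcongr
          exact Int.fract_lt_one x
      _ = K + 1 := mul_one _⟩

theorem cell_eq {K : ℕ} {x y : ℝ} (h : cell K x = cell K y) :
    |Int.fract x - Int.fract y| < 1 / ((K : ℝ) + 1) := by
  unfold cell at h
  rw [Fin.mk.injEq] at h
  have hK : (0 : ℝ) < (K : ℝ) + 1 := by positivity
  have h1 : |((K : ℝ) + 1) * Int.fract x - ((K : ℝ) + 1) * Int.fract y| < 1 := by
    have a1 := Nat.floor_le (mul_nonneg hK.le (Int.fract_nonneg x))
    have a2 := Nat.lt_floor_add_one (((K : ℝ) + 1) * Int.fract x)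
    have b1 := Nat.floor_le (mul_nonneg hK.le (Int.fract_nonneg y))
    have b2 := Nat.lt_floor_add_one (((K : ℝ) + 1) * Int.fract y)
    rw [h] at a1 a2
    rw [abs_lt]
    constructor <;> linarith
  rw [← mul_sub, abs_mul, abs_of_pos hK] at h1
  rw [lt_div_iff₀ hK]
  linarith

theorem exists_K {ε : ℝ} (hε : 0 < ε) : ∃ K : ℕ, 1 / ((K : ℝ) + 1) < ε := by
  obtain ⟨K, hK⟩ := exists_nat_gt (1 / ε)
  refine ⟨K, ?_⟩
  rw [div_lt_iff₀ (by positivity)]
  rw [div_lt_iff₀ hε] at hK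
  nlinarith

/-- the same cell for `x` and `y ≤ x` -/
theorem near_of_cell {K : ℕ} {x y : ℕ} (hyx : y ≤ x) {θ ε : ℝ} (hK : 1 / ((K : ℝ) + 1) < ε)
    (h : cell K (x * θ) = cell K (y * θ)) : ∃ m : ℤ, |((x - y : ℕ) : ℝ) * θ - m| < ε := by
  refine ⟨⌊(x : ℝ) * θ⌋ - ⌊(y : ℝ) * θ⌋, ?_⟩
  have h1 := (cell_eq h).trans hK
  rw [Nat.cast_sub hyx]
  push_cast
  have e : ((x : ℝ) - y) * θ - ((⌊(x : ℝ) * θ⌋ : ℝ) - ⌊(y : ℝ) * θ⌋) =
      Int.fract ((x : ℝ) * θ) - Int.fract ((y : ℝ) * θ) := by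
    unfold Int.fract
    ring
  rw [e]
  exact h1

/-- differences of an infinite set -/
theorem diff_bohr {A : Set ℕ} (hA : A.Infinite) : BohrRec {n | ∃ s ∈ A, ∃ t ∈ A, t < s ∧ n = s - t} := by
  intro k θ ε hε
  obtain ⟨K, hK⟩ := exists_K hε
  obtain ⟨x, hx, y, hy, hne, hxy⟩ := hA.exists_ne_map_eq_of_mapsTo
    (f := fun x : ℕ => (fun i => cell K (x * θ i) : Fin k → Fin (K + 1))) (t := Set.univ)
    (fun _ _ => Set.mem_univ _) Set.finite_univ
  wlog hlt : y < x generalizing x y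
  · exact this y hy x hx hne.symm hxy.symm (lt_of_le_of_ne (not_lt.1 hlt) hne)
  refine ⟨x - y, ⟨x, hx, y, hy, hlt, rfl⟩, by omega, fun i => ?_⟩
  exact near_of_cell hlt.le hK (congrFun hxy i)

/-- thick sets -/
theorem thick_bohr {S : Set ℕ} (hS : ∀ L : ℕ, ∃ a : ℕ, ∀ i < L, a + i ∈ S) : BohrRec S := by
  classical
  intro k θ ε hε
  obtain ⟨K, hK⟩ := exists_K hε
  let f : ℕ → (Fin k → Fin (K + 1)) := fun x i => cell K (x * θ i)
  let rep : (Fin k → Fin (K + 1)) → ℕ := fun c => if h : ∃ n, f n = c then h.choose else 0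
  have hrep : ∀ n, f (rep (f n)) = f n := by
    intro n
    have h : ∃ n', f n' = f n := ⟨n, rfl⟩
    show f (if h : ∃ n', f n' = f n then h.choose else 0) = f n
    rw [dif_pos h]
    exact h.choose_spec
  set B : ℕ := Finset.univ.sup rep with hB
  have hle : ∀ c, rep c ≤ B := fun c => Finset.le_sup (f := rep) (Finset.mem_univ c)
  obtain ⟨a, ha⟩ := hS (B + 2)
  set M : ℕ := a + 1 + B with hM
  have h1 := hle (f M)
  refine ⟨M - rep (f M), ?_, by omega, fun i => ?_⟩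
  · have := ha (M - rep (f M) - a) (by omega)
    rwa [show a + (M - rep (f M) - a) = M - rep (f M) by omega] at this
  · exact near_of_cell (by omega) hK (congrFun (hrep M) i).symm

/-- the finite difference identity -/
theorem diff_pow (k : ℕ) (a b : ℝ) (ha : a ≠ 0) :
    ∑ s ∈ range (k + 1), (((-1 : ℤ) ^ (k - s) * k.choose s : ℤ) : ℝ) * (b + s * a) ^ k =
      (k.factorial : ℝ) * a ^ k := by
  have h := congrFun (fwdDiff_iter_eq_factorial (R := ℝ) (n := k)) (b / a)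
  rw [fwdDiff_iter_eq_sum_shift] at h
  have h2 : (k.factorial : ℝ) = ∑ s ∈ range (k + 1),
      (((-1 : ℤ) ^ (k - s) * k.choose s : ℤ) : ℝ) * (b / a + s) ^ k := by
    have h3 : ((k.factorial : ℝ → ℝ) (b / a)) = (k.factorial : ℝ) := rfl
    rw [← h3, ← h]
    refine Finset.sum_congr rfl fun s _ => ?_
    rw [zsmul_eq_mul]
    simp
  rw [h2, Finset.sum_mul]
  refine Finset.sum_congr rfl fun s _ => ?_
  rw [mul_assoc, ← mul_pow]
  congr 2
  field_simp

/-- `m n ^ k` -/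
theorem pow_bohr (m k : ℕ) (hk : 0 < k) (hm : 0 < m) : BohrRec {n | ∃ x : ℕ, 0 < x ∧ n = m * x ^ k} := by
  intro j θ ε hε
  obtain ⟨K, hK⟩ := exists_K (ε := ε / 2 ^ k) (by positivity)
  obtain ⟨a, ha, b, c, hc⟩ := Combinatorics.exists_mono_homothetic_copy (M := ℕ)
    (κ := Fin j → Fin (K + 1)) (Finset.range (k + 1))
    (fun x i => cell K ((m : ℝ) * (x : ℝ) ^ k * θ i / k.factorial))
  refine ⟨m * a ^ k, ⟨a, ha, rfl⟩, by positivity, fun i => ?_⟩
  have hfac : (k.factorial : ℝ) ≠ 0 := by positivity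
  have ha0 : (a : ℝ) ≠ 0 := by positivity
  set X : ℕ → ℝ := fun s => (m : ℝ) * ((b : ℝ) + s * a) ^ k * θ i / k.factorial with hX
  set w : ℕ → ℤ := fun s => (-1 : ℤ) ^ (k - s) * k.choose s with hw
  have h0 : ∑ s ∈ range (k + 1), (w s : ℝ) = 0 := by
    have h := Finset.sum_flip (f := fun s => ((-1 : ℤ) ^ s * k.choose s)) (n := k)
    have h2 := Int.alternating_sum_range_choose_of_ne (n := k) hk.ne'
    rw [h2] at h
    have h3 : ∑ s ∈ range (k + 1), w s = 0 := by
      rw [← h]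
      refine Finset.sum_congr rfl fun s hs => ?_
      rw [Finset.mem_range] at hs
      rw [hw, Nat.choose_symm (by omega)]
    exact_mod_cast h3
  have h1 : ((m * a ^ k : ℕ) : ℝ) * θ i = ∑ s ∈ range (k + 1), (w s : ℝ) * X s := by
    have h := diff_pow k a b ha0
    have h2 : ∑ s ∈ range (k + 1), (w s : ℝ) * X s =
        (∑ s ∈ range (k + 1), (w s : ℝ) * ((b : ℝ) + s * a) ^ k) * ((m : ℝ) * θ i / k.factorial) := by
      rw [Finset.sum_mul]
      refine Finset.sum_congr rfl fun s _ => ?_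
      rw [hX]
      ring
    rw [h2, h]
    push_cast
    field_simp
  have hcell : ∀ s ∈ range (k + 1), |Int.fract (X s) - Int.fract (X 0)| < ε / 2 ^ k := by
    intro s hs
    have h2 := hc s hs
    have h3 := hc 0 (Finset.mem_range.2 (by omega))
    have h4 := congrFun (h2.trans h3.symm) i
    simp only [smul_eq_mul, mul_zero, zero_add] at h4
    have h5 := (cell_eq h4).trans hK
    have e1 : X s = (m : ℝ) * ((a * s + b : ℕ) : ℝ) ^ k * θ i / k.factorial := by
      rw [hX]; push_cast; ring_nf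
    have e2 : X 0 = (m : ℝ) * (b : ℝ) ^ k * θ i / k.factorial := by
      rw [hX]; push_cast; ring_nf
    rw [e1, e2]
    exact h5
  refine ⟨∑ s ∈ range (k + 1), w s * ⌊X s⌋, ?_⟩
  have e3 : ((m * a ^ k : ℕ) : ℝ) * θ i - ((∑ s ∈ range (k + 1), w s * ⌊X s⌋ : ℤ) : ℝ) =
      ∑ s ∈ range (k + 1), (w s : ℝ) * (Int.fract (X s) - Int.fract (X 0)) := by
    have e4 : ∑ s ∈ range (k + 1), (w s : ℝ) * (Int.fract (X s) - Int.fract (X 0)) =
        ∑ s ∈ range (k + 1), (w s : ℝ) * X s - ∑ s ∈ range (k + 1), (w s : ℝ) * (⌊X s⌋ : ℝ) -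
          (∑ s ∈ range (k + 1), (w s : ℝ)) * Int.fract (X 0) := by
      rw [Finset.sum_mul, ← Finset.sum_sub_distrib, ← Finset.sum_sub_distrib]
      refine Finset.sum_congr rfl fun s _ => ?_
      unfold Int.fract
      ring
    rw [e4, h0, h1]
    push_cast
    ring
  rw [e3]
  refine (Finset.abs_sum_le_sum_abs _ _).trans_lt ?_
  have habs : ∀ s, |(w s : ℝ)| = (k.choose s : ℝ) := by
    intro s
    rw [hw]
    push_cast
    rw [abs_mul, abs_pow, abs_neg, abs_one, one_pow, one_mul, Nat.abs_cast]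
  calc ∑ s ∈ range (k + 1), |(w s : ℝ) * (Int.fract (X s) - Int.fract (X 0))|
      < ∑ s ∈ range (k + 1), (k.choose s : ℝ) * (ε / 2 ^ k) := by
        refine Finset.sum_lt_sum_of_nonempty ⟨0, Finset.mem_range.2 (by omega)⟩ fun s hs => ?_
        rw [abs_mul, habs]
        have h6 : (0 : ℝ) < k.choose s := by
          rw [Finset.mem_range] at hs
          exact_mod_cast Nat.choose_pos (by omega)
        exact mul_lt_mul_of_pos_left (hcell s hs) h6
    _ = ε := by
        rw [← Finset.sum_mul]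
        have h7 : ∑ s ∈ range (k + 1), (k.choose s : ℝ) = 2 ^ k := by
          exact_mod_cast Nat.sum_range_choose k
        rw [h7]
        field_simp

end Run7.h278.LI
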