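import Pool.Agent.Run7.h278.LI.Cf
import Pool.Agent.Run7.h278.LI.Bohr

set_option autoImplicit false

/-!
# Extraction of the zeros in a disc
-/

namespace Run7.h278.LI

open Complex Filter Topology Metric

theorem blaschke_norm {r1 : ℝ} (h1 : 0 < r1) (b z : ℂ) (hz : ‖z‖ = r1) :
    ‖((r1 : ℂ) ^ 2 - (starRingEnd ℂ) b * z)‖ = r1 * ‖z - b‖ := by
  have e : ((r1 : ℂ) ^ 2 - (starRingEnd ℂ) b * z) = z * (starRingEnd ℂ) (z - b) := by
    rw [map_sub, mul_sub, Complex.mul_conj, Complex.normSq_eq_norm_sq, hz]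
    push_cast
    ring
  rw [e, norm_mul, Complex.norm_conj, hz]

theorem extract_aux {r r1 r2 M : ℝ} (hr : 0 < r) (h1 : r < r1) (h2 : r1 < r2) (n : ℕ) :
    ∀ f : ℂ → ℂ, DifferentiableOn ℂ f (ball 0 r2) → f 0 ≠ 0 → (∀ z ∈ sphere (0 : ℂ) r1, ‖f z‖ ≤ M) →
    M < ‖f 0‖ * (r1 / r) ^ n →
    ∃ (Z : Multiset ℂ) (g : ℂ → ℂ), DifferentiableOn ℂ g (ball 0 r1) ∧ (∀ b ∈ Z, ‖b‖ ≤ r ∧ f b = 0) ∧
      (∀ z ∈ closedBall (0 : ℂ) r, g z ≠ 0) ∧
      ∀ z ∈ ball (0 : ℂ) r1, f z = (Z.map (fun b => z - b)).prod * g z := by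
  have hr1 : 0 < r1 := hr.trans h1
  have hr2 : 0 < r2 := hr1.trans h2
  have hball : Bornology.IsBounded (ball (0 : ℂ) r1) := isBounded_ball
  have maxp : ∀ f : ℂ → ℂ, DifferentiableOn ℂ f (ball 0 r2) → (∀ z ∈ sphere (0 : ℂ) r1, ‖f z‖ ≤ M) →
      ‖f 0‖ ≤ M := by
    intro f hf hM
    have hd : DiffContOnCl ℂ f (ball 0 r1) := by
      refine ⟨hf.mono (ball_subset_ball h2.le), ?_⟩
      rw [closure_ball _ hr1.ne']
      exact hf.continuousOn.mono (closedBall_subset_ball h2)
    refine Complex.norm_le_of_forall_mem_frontier_norm_le hball hd ?_ (subset_closure (mem_ball_self hr1))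
    rw [frontier_ball _ hr1.ne']
    exact hM
  induction n with
  | zero =>
    intro f hf h0 hM hlt
    have := maxp f hf hM
    simp only [pow_zero, mul_one] at hlt
    linarith
  | succ n ih =>
    intro f hf h0 hM hlt
    by_cases hz : ∀ u ∈ closedBall (0 : ℂ) r, f u ≠ 0
    · exact ⟨0, f, hf.mono (ball_subset_ball h2.le), by simp, hz, by simp⟩
    · push Not at hz
      obtain ⟨b, hb, hfb⟩ := hz
      have hbr : ‖b‖ ≤ r := by simpa using hb
      have hb0 : b ≠ 0 := by
        rintro rfl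
        exact h0 hfb
      have hbn : 0 < ‖b‖ := norm_pos_iff.2 hb0
      have hb2 : b ∈ ball (0 : ℂ) r2 := by
        rw [mem_ball_zero_iff]
        linarith
      have hds : DifferentiableOn ℂ (dslope f b) (ball 0 r2) :=
        (Complex.differentiableOn_dslope (isOpen_ball.mem_nhds hb2)).2 hf
      have hds' : ∀ w, (w - b) * dslope f b w = f w := by
        intro w
        have := sub_smul_dslope f b w
        rw [hfb, sub_zero, smul_eq_mul] at this
        exact this
      have hr1c : (r1 : ℂ) ≠ 0 := by exact_mod_cast hr1.ne'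
      set h : ℂ → ℂ := fun z => ((r1 : ℂ) ^ 2 - (starRingEnd ℂ) b * z) / r1 * dslope f b z with hh
      have hhd : DifferentiableOn ℂ h (ball 0 r2) := by
        refine DifferentiableOn.mul ?_ hds
        exact (Differentiable.div_const (by fun_prop) _).differentiableOn
      have hh0 : h 0 = -(r1 : ℂ) / b * f 0 := by
        have e1 := hds' 0
        rw [hh]
        simp only [mul_zero, sub_zero]
        rw [← e1]
        field_simp
        ring
      have hh0' : h 0 ≠ 0 := by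
        rw [hh0]
        refine mul_ne_zero (div_ne_zero (neg_ne_zero.2 hr1c) hb0) h0
      have hhM : ∀ z ∈ sphere (0 : ℂ) r1, ‖h z‖ ≤ M := by
        intro z hz
        have hz1 : ‖z‖ = r1 := by simpa using hz
        have e2 : ‖h z‖ = ‖f z‖ := by
          rw [hh]
          simp only [norm_mul, norm_div]
          rw [blaschke_norm hr1 b z hz1, ← hds' z, norm_mul, Complex.norm_real, Real.norm_eq_abs,
            abs_of_pos hr1]
          field_simp
        rw [e2]
        exact hM z hz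
      have hhlt : M < ‖h 0‖ * (r1 / r) ^ n := by
        have e3 : ‖h 0‖ = r1 / ‖b‖ * ‖f 0‖ := by
          rw [hh0, norm_mul, norm_div, norm_neg, Complex.norm_real, Real.norm_eq_abs, abs_of_pos hr1]
        have e4 : r1 / r ≤ r1 / ‖b‖ := by gcongr
        calc M < ‖f 0‖ * (r1 / r) ^ (n + 1) := hlt
          _ = (r1 / r) * ‖f 0‖ * (r1 / r) ^ n := by ring
          _ ≤ (r1 / ‖b‖) * ‖f 0‖ * (r1 / r) ^ n := by gcongr
          _ = ‖h 0‖ * (r1 / r) ^ n := by rw [e3]
      obtain ⟨Z, g, hg, hZ, hgn, hfac⟩ := ih h hhd hh0' hhM hhlt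
      have hne : ∀ z ∈ ball (0 : ℂ) r1, ((r1 : ℂ) ^ 2 - (starRingEnd ℂ) b * z) ≠ 0 := by
        intro z hz heq
        rw [mem_ball_zero_iff] at hz
        have e5 : ‖(r1 : ℂ) ^ 2‖ = ‖(starRingEnd ℂ) b * z‖ := by
          rw [sub_eq_zero] at heq
          rw [heq]
        rw [norm_pow, norm_mul, Complex.norm_conj, Complex.norm_real, Real.norm_eq_abs,
          abs_of_pos hr1] at e5
        have : ‖b‖ * ‖z‖ ≤ r * ‖z‖ := by gcongr
        nlinarith [norm_nonneg z]
      refine ⟨b ::ₘ Z, fun z => g z * ((r1 : ℂ) / ((r1 : ℂ) ^ 2 - (starRingEnd ℂ) b * z)), ?_, ?_, ?_, ?_⟩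
      · refine hg.mul ?_
        refine DifferentiableOn.div (differentiableOn_const _) ?_ hne
        exact (Differentiable.differentiableOn (by fun_prop))
      · intro c hc
        rw [Multiset.mem_cons] at hc
        rcases hc with rfl | hc
        · exact ⟨hbr, hfb⟩
        · obtain ⟨k1, k2⟩ := hZ c hc
          refine ⟨k1, ?_⟩
          have hcb : c ∈ ball (0 : ℂ) r1 := by
            rw [mem_ball_zero_iff]
            linarith
          rw [← hds' c]
          rw [hh] at k2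
          rcases mul_eq_zero.1 k2 with k3 | k3
          · exfalso
            exact (div_ne_zero (hne c hcb) hr1c) k3
          · rw [k3, mul_zero]
      · intro z hz
        have hzb : z ∈ ball (0 : ℂ) r1 := closedBall_subset_ball h1 hz
        exact mul_ne_zero (hgn z hz) (div_ne_zero hr1c (hne z hzb))
      · intro z hz
        have e6 := hfac z hz
        have e7 := hne z hz
        rw [Multiset.map_cons, Multiset.prod_cons, ← hds' z]
        have e8 : dslope f b z = (r1 : ℂ) / ((r1 : ℂ) ^ 2 - (starRingEnd ℂ) b * z) * h z := by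
          rw [hh]
          field_simp
        rw [e8, e6]
        ring

/-- Extraction of the zeros in a closed disc. -/
theorem extract {r r2 : ℝ} (hr : 0 < r) (h2 : r < r2) {f : ℂ → ℂ} (hf : DifferentiableOn ℂ f (ball 0 r2))
    (h0 : f 0 ≠ 0) : ∃ (Z : Multiset ℂ) (g : ℂ → ℂ) (r1 : ℝ), r < r1 ∧ DifferentiableOn ℂ g (ball 0 r1) ∧
      (∀ b ∈ Z, ‖b‖ ≤ r ∧ f b = 0) ∧ (∀ z ∈ closedBall (0 : ℂ) r, g z ≠ 0) ∧
      ∀ z ∈ ball (0 : ℂ) r1, f z = (Z.map (fun b => z - b)).prod * g z := by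
  obtain ⟨r1, h3, h4⟩ := exists_between h2
  have hc : ContinuousOn f (sphere 0 r1) := hf.continuousOn.mono
    (sphere_subset_closedBall.trans (closedBall_subset_ball h4))
  obtain ⟨M, hM⟩ := (isCompact_sphere (0 : ℂ) r1).exists_bound_of_continuousOn hc
  have h5 : 0 < ‖f 0‖ := norm_pos_iff.2 h0
  have h6 : 1 < r1 / r := by rwa [one_lt_div hr]
  obtain ⟨n, hn⟩ := pow_unbounded_of_one_lt (M / ‖f 0‖) h6
  have h7 : M < ‖f 0‖ * (r1 / r) ^ n := by
    rw [div_lt_iff₀ h5] at hn
    linarith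
  obtain ⟨Z, g, k1, k2, k3, k4⟩ := extract_aux hr h3 h4 n f hf h0 hM h7
  exact ⟨Z, g, r1, h3, k1, k2, k3, k4⟩

end Run7.h278.LI
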