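import Pool.Agent.Run7.h278.LI.Pos

set_option autoImplicit false

/-!
# Li coefficients: the general case
-/

namespace Run7.h278.LI

open Complex Filter Topology Metric Polynomial
open Pool.Agent.H24R2.JP (had)

/-- Oscillation of the coefficients of the logarithmic derivative of a function with a zero in the unit disc. -/
theorem osc_core {φ : ℂ → ℂ} (hd : DifferentiableOn ℂ φ (ball 0 1)) (hp0 : φ 0 ≠ 0) {u : ℂ}
    (hu : u ∈ ball (0 : ℂ) 1) (hphi : φ u = 0)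
    {l : ℕ → ℝ} (hl : ∀ n, l (n + 1) = (cf φ n).re) :
    ∃ (m : ℕ) (ω : Fin (m + 1) → ℂ) (R C q : ℝ), 0 < R ∧ R < 1 ∧ 0 ≤ q ∧ q < 1 ∧
      (∀ i, ‖ω i‖ = 1 ∧ (ω i = 1 → φ R = 0)) ∧ ∀ n : ℕ, 1 ≤ n → |l n * R ^ n + osc ω n| ≤ C * q ^ n := by
  classical
  rw [mem_ball_zero_iff] at hu
  have hu0 : u ≠ 0 := by
    intro h0
    rw [h0] at hphi
    exact hp0 hphi
  have hun : 0 < ‖u‖ := norm_pos_iff.2 hu0
  obtain ⟨r, hr⟩ : ∃ r : ℝ, r = (1 + ‖u‖) / 2 := ⟨_, rfl⟩
  have hr0 : 0 < r := by rw [hr]; positivity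
  have hr1 : r < 1 := by rw [hr]; linarith
  have hur : ‖u‖ < r := by rw [hr]; linarith
  obtain ⟨Z, g, r1, hr1', hg, hZ, hgn, hfac⟩ := extract hr0 hr1 hd hp0
  have huZ : u ∈ Z := by
    have h1 := hfac u (by rw [mem_ball_zero_iff]; linarith)
    rw [hphi] at h1
    have h2 := hgn u (by rw [mem_closedBall_zero_iff]; exact hur.le)
    rcases mul_eq_zero.1 h1.symm with h3 | h3
    · rw [Multiset.prod_eq_zero_iff, Multiset.mem_map] at h3
      obtain ⟨b, hb, hb2⟩ := h3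
      have : u = b := by linear_combination hb2
      rwa [this]
    · exact absurd h3 h2
  have hZ0 : ∀ b ∈ Z, b ≠ 0 := by
    intro b hb h0
    rw [h0] at hb
    exact hp0 (hZ 0 hb).2
  obtain ⟨b0, hb0, hmin⟩ := Z.toFinset.exists_min_image (fun b => ‖b‖) ⟨u, Multiset.mem_toFinset.2 huZ⟩
  rw [Multiset.mem_toFinset] at hb0
  have hmin' : ∀ b ∈ Z, ‖b0‖ ≤ ‖b‖ := fun b hb => hmin b (Multiset.mem_toFinset.2 hb)
  have hR0 : 0 < ‖b0‖ := norm_pos_iff.2 (hZ0 b0 hb0)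
  have hRr : ‖b0‖ < r := (hmin' u huZ).trans_lt hur
  have hga : AnalyticAt ℂ g 0 := hg.analyticAt (isOpen_ball.mem_nhds (mem_ball_self (hr0.trans hr1')))
  have hg0 : g 0 ≠ 0 := hgn 0 (mem_closedBall_self hr0.le)
  obtain ⟨C, hC0, hC⟩ := cf_bound hr0 hr1' hg hgn
  have hsm : Sm ‖b0‖ (fun n => (cf g (n - 1)).re) := by
    refine ⟨C * r, ‖b0‖ / r, by positivity, by positivity, by rwa [div_lt_one hr0], fun n hn => ?_⟩
    obtain ⟨k, rfl⟩ : ∃ k, n = k + 1 := ⟨n - 1, by omega⟩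
    beta_reduce
    rw [Nat.add_sub_cancel]
    calc |(cf g k).re| * ‖b0‖ ^ (k + 1) ≤ ‖cf g k‖ * ‖b0‖ ^ (k + 1) := by
          gcongr
          exact Complex.abs_re_le_norm _
      _ = (‖cf g k‖ * r ^ k) * r * (‖b0‖ / r) ^ (k + 1) := by
          have hrk : r ^ (k + 1) ≠ 0 := by positivity
          rw [div_pow, mul_assoc (‖cf g k‖), ← pow_succ, mul_assoc, mul_div_cancel₀ _ hrk]
      _ ≤ C * r * (‖b0‖ / r) ^ (k + 1) := by
          gcongr
          exact hC k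
  have hli : ∀ n : ℕ, 1 ≤ n → l n = -((Z.map (fun b => (b⁻¹) ^ n)).sum).re + (cf g (n - 1)).re := by
    intro n hn
    obtain ⟨k, rfl⟩ : ∃ k, n = k + 1 := ⟨n - 1, by omega⟩
    rw [hl, Nat.add_sub_cancel]
    have h1 : φ =ᶠ[𝓝 0] fun z => (Z.map (fun b => z - b)).prod * g z := by
      filter_upwards [isOpen_ball.mem_nhds (mem_ball_self (x := (0 : ℂ)) (hr0.trans hr1'))] with z hz
      exact hfac z hz
    rw [cf_congr h1, (cf_prod Z hZ0 hga hg0 k).1, Complex.add_re, Complex.neg_re]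
  obtain ⟨m, ω, C', q, hq0, hq1, hω, hfin⟩ := dom Z hR0 hmin' ⟨b0, hb0, rfl⟩ l _ hsm hli
  refine ⟨m, ω, ‖b0‖, C', q, hR0, hRr.trans hr1, hq0, hq1, fun i => ?_, hfin⟩
  obtain ⟨b, hb, hbn, hbω⟩ := hω i
  constructor
  · rw [hbω, norm_mul, norm_inv, hbn, Complex.norm_real, norm_norm, mul_inv_cancel₀ hR0.ne']
  · intro h1
    rw [hbω] at h1
    have hb1 : b = (‖b0‖ : ℂ) := by
      have := hZ0 b hb
      field_simp at h1
      exact h1.symm
    have h2 := (hZ b hb).2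
    rwa [hb1] at h2

theorem osc_gen {φ : ℂ → ℂ} (hd : DifferentiableOn ℂ φ (ball 0 1)) (hp0 : φ 0 ≠ 0) {u : ℂ}
    (hu : u ∈ ball (0 : ℂ) 1) (hphi : φ u = 0) (hreal : ∀ t : ℝ, 0 < t → t < 1 → φ t ≠ 0)
    {l : ℕ → ℝ} (hl : ∀ n, l (n + 1) = (cf φ n).re) : Osc l := by
  obtain ⟨m, ω, R, C, q, h1, h2, h3, h4, h5, h6⟩ := osc_core hd hp0 hu hphi hl
  exact ⟨m, ω, R, C, q, h1, h2, h3, h4, fun i => ⟨(h5 i).1, fun h => hreal R h1 h2 ((h5 i).2 h)⟩, h6⟩

theorem oscW_gen {φ : ℂ → ℂ} (hd : DifferentiableOn ℂ φ (ball 0 1)) (hp0 : φ 0 ≠ 0) {u : ℂ}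
    (hu : u ∈ ball (0 : ℂ) 1) (hphi : φ u = 0)
    {l : ℕ → ℝ} (hl : ∀ n, l (n + 1) = (cf φ n).re) : OscW l := by
  obtain ⟨m, ω, R, C, q, h1, h2, h3, h4, h5, h6⟩ := osc_core hd hp0 hu hphi hl
  exact ⟨m, ω, R, C, q, h1, h2, h3, h4, fun i => (h5 i).1, h6⟩

/-- the Koebe function does not take values `≤ -1/4` -/
theorem koebe_ne {z : ℂ} (hz : z ∈ ball (0 : ℂ) 1) {y : ℝ} (hy : y ≤ -(1 / 4)) : z / (1 - z) ^ 2 ≠ y := by
  intro hxy
  have h2 := one_sub_ne hz
  have h6 : (1 / (1 - z) - 1 / 2 : ℂ) ^ 2 = ((y + 1 / 4 : ℝ) : ℂ) := by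
    have : (1 / (1 - z) - 1 / 2 : ℂ) ^ 2 = z / (1 - z) ^ 2 + 1 / 4 := by
      field_simp
      ring
    rw [this, hxy]
    push_cast
    ring
  set w : ℂ := 1 / (1 - z) - 1 / 2 with hw
  have h7 : w.re = 0 := by
    have e1 := congrArg Complex.re h6
    have e2 := congrArg Complex.im h6
    rw [pow_two, Complex.mul_re, Complex.ofReal_re] at e1
    rw [pow_two, Complex.mul_im, Complex.ofReal_im] at e2
    by_contra hne
    have e3 : w.im = 0 := by
      have : 2 * w.re * w.im = 0 := by linarith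
      rcases mul_eq_zero.1 this with h | h
      · exfalso
        exact hne (by linarith)
      · exact h
    rw [e3] at e1
    have : 0 < w.re * w.re := mul_self_pos.2 hne
    linarith
  have h8 : 0 < w.re := by
    have e1 : w = (1 + z) / (2 * (1 - z)) := by
      rw [hw]
      field_simp
      ring
    have e2 : w = ((1 + z) * (starRingEnd ℂ) (1 - z)) * (((2 * normSq (1 - z))⁻¹ : ℝ) : ℂ) := by
      have h9 : (starRingEnd ℂ) (1 - z) ≠ 0 := (_root_.map_ne_zero _).2 h2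
      rw [e1]
      push_cast
      rw [← Complex.mul_conj]
      field_simp
    rw [e2, Complex.re_mul_ofReal]
    have h10 : 0 < normSq (1 - z) := Complex.normSq_pos.2 h2
    have h11 : ((1 + z) * (starRingEnd ℂ) (1 - z)).re = 1 - normSq z := by
      rw [map_sub, map_one, Complex.mul_re, Complex.normSq_apply]
      simp
      ring
    rw [h11]
    have h12 : normSq z < 1 := by
      rw [Complex.normSq_eq_norm_sq]
      rw [mem_ball_zero_iff] at hz
      nlinarith [norm_nonneg z]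
    have : 0 < 1 - normSq z := by linarith
    positivity
  linarith

/-- positivity of the coefficients, general form -/
theorem pos_gen {f : ℂ → ℂ} (hf : Differentiable ℂ f) (hf0 : f 0 ≠ 0)
    (hconj : ∀ x, f ((starRingEnd ℂ) x) = (starRingEnd ℂ) (f x))
    (hgrow : ∃ K : ℝ, ∀ x, ‖f x‖ ≤ Real.exp (K * (1 + ‖x‖) ^ (3 / 4 : ℝ)))
    (hz : ∀ x, f x = 0 → ∃ y : ℝ, y ≤ -(1 / 4) ∧ x = y) :
    PosSeq (fun n => cf (fun z => f (z / (1 - z) ^ 2)) n) ∧ ∀ z ∈ ball (0 : ℂ) 1, f (z / (1 - z) ^ 2) ≠ 0 := by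
  obtain ⟨K, hK⟩ := hgrow
  obtain ⟨P, hP, hlim⟩ := had f K hf hf0 hconj hK
  set k : ℂ → ℂ := fun z => z / (1 - z) ^ 2 with hk
  have hl : TendstoLocallyUniformlyOn (fun (N : ℕ) (x : ℂ) => aeval x (P N)) f atTop Set.univ :=
    tendstoLocallyUniformlyOn_univ.2 hlim
  have h1 : TendstoLocallyUniformlyOn (fun (N : ℕ) (z : ℂ) => aeval (k z) (P N)) (fun z => f (k z)) atTop
      (ball 0 1) := hl.comp k (fun z _ => Set.mem_univ _) koebe_diff.continuousOn
  have hne : ∀ z ∈ ball (0 : ℂ) 1, f (k z) ≠ 0 := by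
    intro z hz' h0
    obtain ⟨y, hy, hxy⟩ := hz _ h0
    exact koebe_ne hz' hy hxy
  refine ⟨?_, hne⟩
  have hneP : ∀ N, ∀ z ∈ ball (0 : ℂ) 1, (aeval (k z) (P N) : ℂ) ≠ 0 := fun N z hz h0 => hne z hz (hP N _ h0)
  have hdP : ∀ N, DifferentiableOn ℂ (fun z => (aeval (k z) (P N) : ℂ)) (ball 0 1) := by
    intro N
    have : Differentiable ℂ (fun x : ℂ => (aeval x (P N) : ℂ)) := (P N).differentiable_aeval
    exact this.comp_differentiableOn koebe_diff
  have h2 : ∀ n, Tendsto (fun N => cf (fun z => (aeval (k z) (P N) : ℂ)) n) atTop (𝓝 (cf (fun z => f (k z)) n)) :=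
    fun n => cf_tendsto isOpen_ball (mem_ball_self one_pos) h1 hdP hne hneP n
  refine PosSeq.lim (fun N => ?_) h2
  set Q : ℂ[X] := (P N).map (algebraMap ℝ ℂ) with hQ
  have hQe : ∀ x : ℂ, (aeval x (P N) : ℂ) = Q.eval x := by
    intro x
    rw [hQ, eval_map_algebraMap]
  have hQ0 : Q ≠ 0 := by
    intro h0
    refine hneP N 0 (mem_ball_self one_pos) ?_
    rw [hQe, h0, eval_zero]
  have hsplit : Q = Polynomial.C Q.leadingCoeff * (Q.roots.map (fun a => X - Polynomial.C a)).prod :=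
    (IsAlgClosed.splits Q).eq_prod_roots
  have hroots : ∀ x ∈ Q.roots, x.im = 0 ∧ x.re ≤ -(1 / 4) := by
    intro x hx
    rw [mem_roots hQ0, IsRoot.def, ← hQe] at hx
    obtain ⟨y, hy, hxy⟩ := hz _ (hP N x hx)
    rw [hxy]
    exact ⟨Complex.ofReal_im _, by rwa [Complex.ofReal_re]⟩
  have hmain := (prod_posSeq (Q.roots.map Complex.re) (by
    intro y hy
    rw [Multiset.mem_map] at hy
    obtain ⟨x, hx, rfl⟩ := hy
    exact (hroots x hx).2) (leadingCoeff_ne_zero.2 hQ0)).1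
  have hfun : (fun z => (aeval (k z) (P N) : ℂ)) = fun z => Q.leadingCoeff *
      ((Q.roots.map Complex.re).map (fun y : ℝ => z / (1 - z) ^ 2 - (y : ℂ))).prod := by
    ext z
    rw [hQe]
    conv_lhs => rw [hsplit]
    rw [eval_mul, eval_C, eval_multiset_prod, Multiset.map_map, Multiset.map_map]
    congr 2
    refine Multiset.map_congr rfl fun x hx => ?_
    simp only [Function.comp_apply, eval_sub, eval_X, eval_C]
    rw [show x = ((x.re : ℝ) : ℂ) from Complex.ext (by simp) (by simp [(hroots x hx).1])]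
    simp [hk]
  rw [hfun]
  exact hmain

/-- if all coefficients vanish the function is constant -/
theorem const_of_cf {φ : ℂ → ℂ} (hd : DifferentiableOn ℂ φ (ball 0 1)) (hne : ∀ z ∈ ball (0 : ℂ) 1, φ z ≠ 0)
    (h : ∀ n, cf φ n = 0) : ∃ c : ℂ, ∀ z ∈ ball (0 : ℂ) 1, φ z = c := by
  have hdl : DifferentiableOn ℂ (logDeriv φ) (ball 0 1) := (hd.deriv isOpen_ball).div hd hne
  have hz : ∀ z ∈ ball (0 : ℂ) 1, logDeriv φ z = 0 := by
    intro z hz
    have h8 := Complex.hasSum_taylorSeries_on_ball hdl hz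
    have h9 : (fun n : ℕ => ((n.factorial : ℂ)⁻¹ • (z - 0) ^ n • iteratedDeriv n (logDeriv φ) 0)) = fun _ => 0 := by
      ext n
      have := h n
      unfold cf at this
      rw [div_eq_zero_iff] at this
      rcases this with h | h
      · rw [h]
        simp
      · exact absurd h (by exact_mod_cast n.factorial_ne_zero)
    rw [h9] at h8
    exact h8.unique hasSum_zero
  have hdz : ∀ z ∈ ball (0 : ℂ) 1, deriv φ z = 0 := by
    intro z hz'
    have := hz z hz'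
    rw [logDeriv_apply, div_eq_zero_iff] at this
    exact this.resolve_right (hne z hz')
  obtain ⟨c, hc⟩ := isOpen_ball.exists_is_const_of_deriv_eq_zero (convex_ball (0 : ℂ) 1).isPreconnected hd hdz
  exact ⟨c, fun z hz => hc z hz⟩

/-! ## The Cayley transform -/

/-- the Cayley transform of the unit disc onto the right half-plane with base point `β` -/
noncomputable def cay (β : ℝ) (z : ℂ) : ℂ := β * ((1 + z) / (1 - z))

theorem cay_zero (β : ℝ) : cay β 0 = β := by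
  unfold cay
  simp

theorem cay_diff (β : ℝ) : DifferentiableOn ℂ (cay β) (ball 0 1) := by
  unfold cay
  refine DifferentiableOn.const_mul (DifferentiableOn.div (by fun_prop) (by fun_prop) fun z hz => one_sub_ne hz) _

theorem cay_re {β : ℝ} (hβ : 0 < β) {z : ℂ} (hz : z ∈ ball (0 : ℂ) 1) : 0 < (cay β z).re := by
  have h2 := one_sub_ne hz
  unfold cay
  have e2 : (β : ℂ) * ((1 + z) / (1 - z)) =
      ((1 + z) * (starRingEnd ℂ) (1 - z)) * ((β * (normSq (1 - z))⁻¹ : ℝ) : ℂ) := by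
    have h9 : (starRingEnd ℂ) (1 - z) ≠ 0 := (_root_.map_ne_zero _).2 h2
    push_cast
    rw [← Complex.mul_conj]
    field_simp
  rw [e2, Complex.re_mul_ofReal]
  have h10 : 0 < normSq (1 - z) := Complex.normSq_pos.2 h2
  have h11 : ((1 + z) * (starRingEnd ℂ) (1 - z)).re = 1 - normSq z := by
    rw [map_sub, map_one, Complex.mul_re, Complex.normSq_apply]
    simp
    ring
  rw [h11]
  have h12 : normSq z < 1 := by
    rw [Complex.normSq_eq_norm_sq]
    rw [mem_ball_zero_iff] at hz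
    nlinarith [norm_nonneg z]
  have : 0 < 1 - normSq z := by linarith
  positivity

theorem cay_surj {β : ℝ} (hβ : 0 < β) {w : ℂ} (hw : 0 < w.re) : ∃ z ∈ ball (0 : ℂ) 1, cay β z = w := by
  have h1 : w + β ≠ 0 := by
    intro h
    have := congrArg Complex.re h
    rw [Complex.add_re, Complex.ofReal_re, Complex.zero_re] at this
    linarith
  have hβc : (β : ℂ) ≠ 0 := by exact_mod_cast hβ.ne'
  refine ⟨(w - β) / (w + β), ?_, ?_⟩
  · rw [mem_ball_zero_iff, norm_div, div_lt_one (norm_pos_iff.2 h1), ← sq_lt_sq₀ (norm_nonneg _) (norm_nonneg _),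
      ← Complex.normSq_eq_norm_sq, ← Complex.normSq_eq_norm_sq, Complex.normSq_apply, Complex.normSq_apply,
      Complex.sub_re, Complex.sub_im, Complex.add_re, Complex.add_im, Complex.ofReal_re, Complex.ofReal_im]
    nlinarith
  · unfold cay
    have h3 : (1 : ℂ) - (w - β) / (w + β) = 2 * β / (w + β) := by
      field_simp
      ring
    have h4 : (1 : ℂ) + (w - β) / (w + β) = 2 * w / (w + β) := by
      field_simp
      ring
    rw [h3, h4]
    field_simp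

theorem cay_sq (β : ℝ) {z : ℂ} (hz : z ∈ ball (0 : ℂ) 1) :
    (cay β z) ^ 2 = 4 * β ^ 2 * (z / (1 - z) ^ 2) + β ^ 2 := by
  have h2 := one_sub_ne hz
  unfold cay
  field_simp
  ring

theorem cay_real {β : ℝ} (hβ : 0 < β) {t : ℝ} (h0 : 0 ≤ t) (h1 : t < 1) : ∃ x : ℝ, β ≤ x ∧ cay β t = x := by
  refine ⟨β * ((1 + t) / (1 - t)), ?_, ?_⟩
  · have : 1 ≤ (1 + t) / (1 - t) := by
      rw [le_div_iff₀ (by linarith)]
      linarith
    nlinarith
  · unfold cay
    push_cast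
    rfl

theorem cay_cf {β : ℝ} (hβ : 0 < β) (n : ℕ) :
    cf (cay β) n = ((1 / 2 * ‖(-1 : ℂ) ^ (n + 1) - 1‖ ^ 2 : ℝ) : ℂ) := by
  have hβc : (β : ℂ) ≠ 0 := by exact_mod_cast hβ.ne'
  have A2 : ∀ b : ℂ, AnalyticAt ℂ (fun z : ℂ => z - b) 0 := fun b => by fun_prop
  have N2 : ∀ b : ℂ, b ≠ 0 → (fun z : ℂ => z - b) 0 ≠ 0 := fun b hb => by simpa using hb
  have A1 : AnalyticAt ℂ (cay β) 0 := (cay_diff β).analyticAt (isOpen_ball.mem_nhds (mem_ball_self one_pos))
  have N1 : cay β 0 ≠ 0 := by rwa [cay_zero]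
  have key : (fun z : ℂ => cay β z * (z - 1)) =ᶠ[𝓝 0] fun z => (-(β : ℂ)) * (z - (-1)) := by
    filter_upwards [isOpen_ball.mem_nhds (mem_ball_self (x := (0 : ℂ)) one_pos)] with z hz
    have h2 := one_sub_ne hz
    unfold cay
    field_simp
    ring
  have e := cf_congr key n
  rw [cf_mul A1 (A2 1) N1 (N2 1 one_ne_zero), cf_const_mul (A2 (-1)) (N2 (-1) (by norm_num)) (neg_ne_zero.2 hβc),
    cf_lin, cf_lin] at e
  have h3 : cf (cay β) n = 1 - (-1) ^ (n + 1) := by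
    rw [inv_one, one_pow] at e
    rw [show ((-1 : ℂ))⁻¹ = -1 by norm_num] at e
    linear_combination e
  rw [h3]
  rcases neg_one_pow_eq_or ℂ (n + 1) with h | h
  · rw [h]
    simp
  · rw [h]
    norm_num

theorem PosSeq.smul {c : ℕ → ℂ} (h : PosSeq c) {r : ℝ} (hr : 0 ≤ r) : PosSeq (fun n => (r : ℂ) * c n) := by
  obtain ⟨h1, h2, h3, h4⟩ := h
  refine ⟨fun n => ?_, fun n => ?_, fun n => ?_, fun n => ?_⟩ <;>
    simp only [Complex.re_ofReal_mul, Complex.im_ofReal_mul]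
  · rw [h1, mul_zero]
  · exact mul_nonneg hr (h2 n)
  · have := mul_le_mul_of_nonneg_left (h3 n) hr
    linarith
  · have := mul_le_mul_of_nonneg_left (h4 n) hr
    linarith

theorem cay_pos {β : ℝ} (hβ : 0 < β) : PosSeq (fun n => cf (cay β) n) := by
  have h : (fun n => cf (cay β) n) = fun n => ((1 / 2 : ℝ) : ℂ) * ((‖(-1 : ℂ) ^ (n + 1) - 1‖ ^ 2 : ℝ) : ℂ) := by
    ext n
    rw [cay_cf hβ, ← Complex.ofReal_mul]
  rw [h]
  exact (PosSeq.unit (by simp)).smul (by norm_num)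

end Run7.h278.LI
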