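import Pool.Agent.Run7.h278.LI.Sharp
import Pool.Agent.TH847.LD.Primes
import Pool.Agent.TH915.UC.PAP

set_option autoImplicit false

/-!
# Shifted primes are sets of Bohr recurrence
-/

namespace Run7.h278.LI

open Finset Filter Topology Pool.Agent.Helper602.MK

theorem ee_add (x y : ℝ) : ee (x + y) = ee x * ee y := by
  unfold ee
  rw [← Complex.exp_add]
  congr 1
  push_cast
  ring

theorem ee_int (m : ℤ) : ee m = 1 := by
  unfold ee
  have := Complex.exp_int_mul_two_pi_mul_I m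
  rw [← this]
  congr 1
  push_cast
  ring

theorem ee_norm (x : ℝ) : ‖ee x‖ = 1 := by
  unfold ee
  rw [show (2 * Real.pi * x * Complex.I : ℂ) = ((2 * Real.pi * x : ℝ) : ℂ) * Complex.I by push_cast; ring,
    Complex.norm_exp_ofReal_mul_I]

theorem ee_nat (b : ℕ) (x : ℝ) : ee (b * x) = ee x ^ b := by
  unfold ee
  rw [← Complex.exp_nat_mul]
  congr 1
  push_cast
  ring

theorem ee_one_iff {x : ℝ} : ee x = 1 ↔ ∃ m : ℤ, x = m := by
  unfold ee
  rw [Complex.exp_eq_one_iff]
  constructor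
  · rintro ⟨m, hm⟩
    refine ⟨m, ?_⟩
    have h : (2 * Real.pi * Complex.I : ℂ) ≠ 0 := Complex.two_pi_I_ne_zero
    have h2 : ((x : ℂ) - m) * (2 * Real.pi * Complex.I) = 0 := by linear_combination hm
    have h3 := (mul_eq_zero.1 h2).resolve_right h
    have h4 : (x : ℂ) = ((m : ℝ) : ℂ) := by
      push_cast
      linear_combination h3
    exact_mod_cast h4
  · rintro ⟨m, rfl⟩
    exact ⟨m, by push_cast; ring⟩

theorem char_sum (q : ℕ) (hq : 0 < q) (m : ℤ) :
    ∑ b ∈ range q, ee (b * (m / q)) = if (q : ℤ) ∣ m then (q : ℂ) else 0 := by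
  have hqr : (q : ℝ) ≠ 0 := by exact_mod_cast hq.ne'
  simp only [ee_nat]
  split_ifs with h
  · obtain ⟨c, rfl⟩ := h
    have h1 : ee (((q * c : ℤ) : ℝ) / q) = 1 := by
      rw [ee_one_iff]
      refine ⟨c, ?_⟩
      push_cast
      field_simp
    rw [h1]
    simp
  · have h1 : ee ((m : ℝ) / q) ≠ 1 := by
      intro h1
      rw [ee_one_iff] at h1
      obtain ⟨c, hc⟩ := h1
      apply h
      refine ⟨c, ?_⟩
      rw [div_eq_iff hqr] at hc
      have : ((m : ℤ) : ℝ) = ((q * c : ℤ) : ℝ) := by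
        push_cast
        linarith
      exact_mod_cast this
    rw [geom_sum_eq h1]
    have h2 : ee ((m : ℝ) / q) ^ q = 1 := by
      rw [← ee_nat, mul_div_cancel₀ _ hqr, ee_int]
    rw [h2]
    simp

theorem irr_sum (t : ℝ) (ht : Irrational t) (η : ℝ) (hη : 0 < η) :
    ∀ᶠ N : ℕ in atTop, ‖∑ p ∈ (Icc 1 N).filter Nat.Prime, ee (t * p)‖ ≤ η * N / Real.log N := by
  obtain ⟨Q, hQ, N0, hN0, hmain⟩ := j4 η hη
  filter_upwards [Pool.Agent.TH847.LD.not_major ht Q, eventually_ge_atTop N0] with N h1 h2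
  exact hmain N h2 t h1

theorem irr_sum_ap (t : ℝ) (ht : Irrational t) (q : ℕ) (hq : 0 < q) (s : ℤ) (η : ℝ) (hη : 0 < η) :
    ∀ᶠ N : ℕ in atTop, ‖∑ p ∈ (Icc 1 N).filter (fun p : ℕ => p.Prime ∧ (q : ℤ) ∣ (p : ℤ) + s),
      ee (t * ((p : ℝ) + s))‖ ≤ η * N / Real.log N := by
  have hqr : (q : ℝ) ≠ 0 := by exact_mod_cast hq.ne'
  have hqc : (q : ℂ) ≠ 0 := by exact_mod_cast hq.ne'
  have h1 : ∀ b ∈ range q, ∀ᶠ N : ℕ in atTop,
      ‖∑ p ∈ (Icc 1 N).filter Nat.Prime, ee ((t + b / q) * p)‖ ≤ η * N / Real.log N := by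
    intro b _
    refine irr_sum _ ?_ η hη
    have : t + (b : ℝ) / q = t + ((b / q : ℚ) : ℝ) := by push_cast; ring
    rw [this]
    exact ht.add_ratCast _
  filter_upwards [(Finset.eventually_all (range q)).2 h1] with N hN
  have e1 : ∑ p ∈ (Icc 1 N).filter (fun p : ℕ => p.Prime ∧ (q : ℤ) ∣ (p : ℤ) + s), ee (t * ((p : ℝ) + s)) =
      (q : ℂ)⁻¹ * ∑ b ∈ range q, ee ((t + b / q) * s) * ∑ p ∈ (Icc 1 N).filter Nat.Prime, ee ((t + b / q) * p) := by
    simp only [Finset.mul_sum]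
    rw [Finset.sum_comm, ← Finset.filter_filter, Finset.sum_filter]
    refine Finset.sum_congr rfl fun p _ => ?_
    have h2 : ∀ b ∈ range q, (q : ℂ)⁻¹ * (ee ((t + b / q) * s) * ee ((t + b / q) * p)) =
        (q : ℂ)⁻¹ * ee (t * ((p : ℝ) + s)) * ee (b * ((((p : ℤ) + s : ℤ) : ℝ) / q)) := by
      intro b _
      rw [← ee_add, mul_assoc, ← ee_add]
      congr 2
      push_cast
      field_simp
      ring
    rw [Finset.sum_congr rfl h2, ← Finset.mul_sum, char_sum q hq]
    split_ifs with h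
    · field_simp
    · simp
  rw [e1, norm_mul, norm_inv, Complex.norm_natCast]
  have h3 : ‖∑ b ∈ range q, ee ((t + b / q) * s) * ∑ p ∈ (Icc 1 N).filter Nat.Prime, ee ((t + b / q) * p)‖ ≤
      q * (η * N / Real.log N) := by
    refine (norm_sum_le _ _).trans ?_
    calc _ ≤ ∑ b ∈ range q, (η * N / Real.log N) := by
          refine Finset.sum_le_sum fun b hb => ?_
          rw [norm_mul, ee_norm, one_mul]
          exact hN b hb
      _ = _ := by simp
  calc _ ≤ (q : ℝ)⁻¹ * (q * (η * N / Real.log N)) := by gcongr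
    _ = _ := by field_simp

/-- the frequency of an index -/
noncomputable def xs {k : ℕ} (K : ℕ) (θ : Fin k → ℝ) (σ : Fin k → Finset (Fin (2 * K))) : ℝ :=
  ∑ j, (((σ j).card : ℝ) - K) * θ j

theorem ee_sum {ι : Type*} (s : Finset ι) (f : ι → ℝ) : ee (∑ i ∈ s, f i) = ∏ i ∈ s, ee (f i) := by
  classical
  induction s using Finset.induction_on with
  | empty =>
    have := ee_int 0
    simpa using this
  | insert a s ha ih => rw [Finset.sum_insert ha, Finset.prod_insert ha, ee_add, ih]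

theorem ch_ee {k : ℕ} (K : ℕ) (θ : Fin k → ℝ) (y : ℝ) (σ : Fin k → Finset (Fin (2 * K))) :
    ch K (fun j => ee (y * θ j)) σ = ee (xs K θ σ * y) := by
  unfold ch xs
  rw [Finset.sum_mul, ee_sum]
  refine Finset.prod_congr rfl fun j _ => ?_
  have h1 : (ee (y * θ j))⁻¹ = ee (-(y * θ j)) := by
    refine inv_eq_of_mul_eq_one_right ?_
    rw [← ee_add, add_neg_cancel]
    simpa using ee_int 0
  rw [h1, ← ee_nat, ← ee_nat, ← ee_add]
  congr 1
  ring

theorem prime_bohr (s : ℤ) (a : ℕ → ℕ) (ha : ∀ q, 0 < q → (a q).Coprime q ∧ (q : ℤ) ∣ (a q : ℤ) + s)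
    (k : ℕ) (θ : Fin k → ℝ) (ε : ℝ) (hε : 0 < ε) :
    ∃ p : ℕ, p.Prime ∧ ∀ i, ∃ m : ℤ, |((p : ℝ) + s) * θ i - m| < ε := by
  classical
  by_contra hcon
  push Not at hcon
  set ε' : ℝ := min ε (1 / 2) with hε'
  have hε0 : 0 < ε' := lt_min hε (by norm_num)
  have hεh : ε' ≤ 1 / 2 := min_le_right _ _
  set r : ℝ := 1 - 4 * ε' ^ 2 with hr
  have hr0 : 0 ≤ r := by nlinarith
  have hr1 : r < 1 := by nlinarith
  obtain ⟨K, hK1, hK⟩ := choose_K k hr0 hr1 (show (0 : ℝ) < 1 / 2 by norm_num)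
  have hcb : (0 : ℝ) < 2 * K := by
    have : (1 : ℝ) ≤ K := by exact_mod_cast hK1
    linarith
  set C : ℝ := (Nat.centralBinom K : ℝ) ^ k with hC
  have hC0 : 0 < C := by
    have : (0 : ℝ) < Nat.centralBinom K := by exact_mod_cast Nat.centralBinom_pos K
    positivity
  -- the modulus
  have hden : ∀ σ : Fin k → Finset (Fin (2 * K)), ∃ d : ℕ, 0 < d ∧ (¬Irrational (xs K θ σ) → ∃ c : ℤ, xs K θ σ * d = c) := by
    intro σ
    by_cases h : Irrational (xs K θ σ)
    · exact ⟨1, one_pos, fun h' => absurd h h'⟩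
    · unfold Irrational at h
      push Not at h
      obtain ⟨x, hx⟩ := h
      refine ⟨x.den, x.den_pos, fun _ => ⟨x.num, ?_⟩⟩
      rw [← hx]
      have := Rat.mul_den_eq_num x
      exact_mod_cast this
  choose d hd0 hd using hden
  set q : ℕ := ∏ σ, d σ with hq
  have hq0 : 0 < q := Finset.prod_pos fun σ _ => hd0 σ
  have hrat : ∀ σ, ¬Irrational (xs K θ σ) → ∀ y : ℤ, (q : ℤ) ∣ y → ee (xs K θ σ * y) = 1 := by
    intro σ hσ y hy
    obtain ⟨c, hc⟩ := hd σ hσ
    obtain ⟨y', rfl⟩ := (Int.natCast_dvd_natCast.2 (Finset.dvd_prod_of_mem d (Finset.mem_univ σ))).trans hy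
    have : xs K θ σ * ((d σ * y' : ℤ) : ℝ) = ((c * y' : ℤ) : ℝ) := by
      push_cast
      rw [← mul_assoc, hc]
    rw [this]
    exact ee_int _
  set P : ℕ → Finset ℕ := fun N => (Icc 1 N).filter (fun p : ℕ => p.Prime ∧ (q : ℤ) ∣ (p : ℤ) + s) with hP
  set F : ℕ → ℝ := fun p => ∏ j, (‖1 + ee (((p : ℝ) + s) * θ j)‖ ^ 2) ^ K with hF
  have hFle : ∀ p : ℕ, p.Prime → F p ≤ C / 2 := by
    intro p hp
    obtain ⟨i, hi⟩ := hcon p hp
    have hvi : ‖1 + ee (((p : ℝ) + s) * θ i)‖ ^ 2 ≤ 4 * r := by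
      have h1 := (coord_bound (x := ((p : ℝ) + s) * θ i) (ε := ε') (fun m => (min_le_left _ _).trans (hi m)) hε0).1
      have h2 : ee (((p : ℝ) + s) * θ i) = Complex.exp (2 * Real.pi * Complex.I * (((p : ℝ) + s) * θ i : ℝ)) := by
        unfold ee
        congr 1
        ring
      rw [h2]
      exact h1
    have hvj : ∀ j, ‖1 + ee (((p : ℝ) + s) * θ j)‖ ^ 2 ≤ 4 := by
      intro j
      have h1 : ‖1 + ee (((p : ℝ) + s) * θ j)‖ ≤ 2 := by
        refine (norm_add_le _ _).trans ?_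
        rw [ee_norm, norm_one]
        norm_num
      nlinarith [norm_nonneg (1 + ee (((p : ℝ) + s) * θ j))]
    have h1 : F p ≤ ∏ j : Fin k, ((4 : ℝ) ^ K * (if j = i then r ^ K else 1)) := by
      refine Finset.prod_le_prod (fun j _ => by positivity) fun j _ => ?_
      split_ifs with hj
      · rw [hj, ← mul_pow]
        gcongr
      · rw [mul_one]
        gcongr
        exact hvj j
    refine h1.trans ?_
    rw [Finset.prod_mul_distrib, Finset.prod_const, Finset.card_univ, Fintype.card_fin,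
      Finset.prod_ite_eq' Finset.univ i]
    simp only [Finset.mem_univ, if_true]
    have h2 : (4 : ℝ) ^ K ≤ 2 * K * Nat.centralBinom K := by
      exact_mod_cast Nat.four_pow_le_two_mul_self_mul_centralBinom K hK1
    calc ((4 : ℝ) ^ K) ^ k * r ^ K ≤ (2 * K * Nat.centralBinom K) ^ k * r ^ K := by gcongr
      _ = ((2 * (K : ℝ)) ^ k * r ^ K) * C := by
          rw [hC, mul_pow]
          ring
      _ ≤ (1 / 2) * C := by gcongr
      _ = _ := by ring
  have hFsum : ∀ p : ℕ, F p = (∑ σ : Fin k → Finset (Fin (2 * K)), ee (xs K θ σ * ((p : ℝ) + s))).re := by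
    intro p
    have h1 := sum_ch (κ := k) K (v := fun j => ee (((p : ℝ) + s) * θ j)) (fun j => ee_norm _)
    simp only [ch_ee] at h1
    rw [h1, Complex.ofReal_re]
  set M : ℝ := ((Fintype.card (Fin k → Finset (Fin (2 * K))) : ℕ) : ℝ) with hM
  have hM0 : 0 < M := by
    rw [hM]
    exact_mod_cast Fintype.card_pos
  have hφ : (0 : ℝ) < q.totient := by exact_mod_cast Nat.totient_pos.2 hq0
  set η : ℝ := C / (8 * q.totient * M) with hη
  have hη0 : 0 < η := by positivity
  have hirr : ∀ᶠ N : ℕ in atTop, ∀ σ : Fin k → Finset (Fin (2 * K)), Irrational (xs K θ σ) →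
      ‖∑ p ∈ P N, ee (xs K θ σ * ((p : ℝ) + s))‖ ≤ η * N / Real.log N := by
    rw [Filter.eventually_all]
    intro σ
    by_cases h : Irrational (xs K θ σ)
    · filter_upwards [irr_sum_ap _ h q hq0 s η hη0] with N hN _
      exact hN
    · exact Eventually.of_forall fun N h' => absurd h' h
  obtain ⟨hcop, hdiv⟩ := ha q hq0
  have hlow := (Pool.Agent.TH915.UC.primes_ap_lower q (a q) hq0 hcop)
  have hlow' := (tendsto_natCast_atTop_atTop (R := ℝ)).eventually hlow
  obtain ⟨N, hN1, hN2, hN3⟩ := (hirr.and (hlow'.and (eventually_ge_atTop 3))).exists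
  have hlog : 0 < Real.log N := Real.log_pos (by
    have : (3 : ℝ) ≤ N := by exact_mod_cast hN3
    linarith)
  have hNpos : (0 : ℝ) < N := by
    have : (3 : ℝ) ≤ N := by exact_mod_cast hN3
    linarith
  have hcard : (N : ℝ) / (2 * q.totient * Real.log N) ≤ ((P N).card : ℝ) := by
    refine hN2.trans ?_
    rw [Nat.floor_natCast]
    have : (Icc 1 N).filter (fun p : ℕ => p.Prime ∧ p ≡ a q [MOD q]) ⊆ P N := by
      intro p hp
      rw [hP, Finset.mem_filter]
      rw [Finset.mem_filter] at hp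
      refine ⟨hp.1, hp.2.1, ?_⟩
      have h1 : (q : ℤ) ∣ (a q : ℤ) - p := (Nat.modEq_iff_dvd).1 hp.2.2
      have h2 : (p : ℤ) + s = ((a q : ℤ) + s) - ((a q : ℤ) - p) := by ring
      rw [h2]
      exact dvd_sub hdiv h1
    exact_mod_cast Finset.card_le_card this
  have hup : ∑ p ∈ P N, F p ≤ (P N).card * (C / 2) := by
    rw [← nsmul_eq_mul]
    refine Finset.sum_le_card_nsmul _ _ _ fun p hp => ?_
    rw [hP, Finset.mem_filter] at hp
    exact hFle p hp.2.1
  have hlo : (P N).card * C - M * (η * N / Real.log N) ≤ ∑ p ∈ P N, F p := by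
    have h1 : ∑ p ∈ P N, F p = ∑ σ : Fin k → Finset (Fin (2 * K)), (∑ p ∈ P N, ee (xs K θ σ * ((p : ℝ) + s))).re := by
      rw [Finset.sum_congr rfl fun p _ => hFsum p]
      simp only [Complex.re_sum]
      rw [Finset.sum_comm]
    rw [h1]
    have h2 : ∀ σ : Fin k → Finset (Fin (2 * K)), (if Bal K σ then ((P N).card : ℝ) else 0) - η * N / Real.log N ≤
        (∑ p ∈ P N, ee (xs K θ σ * ((p : ℝ) + s))).re := by
      intro σ
      by_cases h : Irrational (xs K θ σ)
      · have hb : ¬Bal K σ := by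
          intro hb
          apply h
          refine ⟨0, ?_⟩
          unfold xs
          push_cast
          symm
          refine Finset.sum_eq_zero fun j _ => ?_
          rw [hb j]
          ring
        rw [if_neg hb]
        have h3 := (Complex.abs_re_le_norm _).trans (hN1 σ h)
        rw [abs_le] at h3
        linarith [h3.1]
      · have h3 : ∑ p ∈ P N, ee (xs K θ σ * ((p : ℝ) + s)) = (P N).card := by
          rw [Finset.sum_congr rfl (g := fun _ => (1 : ℂ))]
          · simp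
          · intro p hp
            rw [hP, Finset.mem_filter] at hp
            have := hrat σ h ((p : ℤ) + s) hp.2.2
            push_cast at this
            exact this
        rw [h3, Complex.natCast_re]
        have h4 : 0 ≤ η * N / Real.log N := by positivity
        split_ifs
        · linarith
        · have : (0 : ℝ) ≤ (P N).card := by positivity
          linarith
    refine le_trans (le_of_eq ?_) (Finset.sum_le_sum fun σ _ => h2 σ)
    rw [Finset.sum_sub_distrib, Finset.sum_const, Finset.card_univ, ← Finset.sum_filter, Finset.sum_const,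
      card_bal, nsmul_eq_mul, nsmul_eq_mul, ← hM, hC]
    push_cast
    ring
  have hfin : (P N).card * (C / 2) ≤ M * (η * N / Real.log N) := by linarith
  have h5 : N / (2 * q.totient * Real.log N) * (C / 2) ≤ M * (η * N / Real.log N) := le_trans (by gcongr) hfin
  have h6 : M * (η * N / Real.log N) = N / (2 * q.totient * Real.log N) * (C / 4) := by
    rw [hη]
    field_simp
    ring
  rw [h6] at h5
  have h7 : 0 < N / (2 * q.totient * Real.log N) := by positivity
  nlinarith [mul_pos h7 hC0]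

theorem prime_sub_bohr : BohrRec {n | ∃ p : ℕ, p.Prime ∧ n = p - 1} := by
  intro k θ ε hε
  obtain ⟨p, hp, h⟩ := prime_bohr (-1) (fun _ => 1) (fun q hq => ⟨Nat.coprime_one_left q, by simp⟩) k θ ε hε
  refine ⟨p - 1, ⟨p, hp, rfl⟩, Nat.sub_pos_of_lt hp.one_lt, fun i => ?_⟩
  obtain ⟨m, hm⟩ := h i
  refine ⟨m, ?_⟩
  rw [Nat.cast_sub hp.one_lt.le]
  push_cast at hm ⊢
  exact hm

theorem prime_add_bohr : BohrRec {n | ∃ p : ℕ, p.Prime ∧ n = p + 1} := by
  intro k θ ε hε
  obtain ⟨p, hp, h⟩ := prime_bohr 1 (fun q => q - 1) (fun q hq => by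
    obtain ⟨c, rfl⟩ : ∃ c, q = c + 1 := ⟨q - 1, by omega⟩
    refine ⟨?_, ?_⟩
    · rw [Nat.add_sub_cancel]
      exact (Nat.coprime_self_add_right).2 (Nat.coprime_one_right c)
    · rw [Nat.add_sub_cancel]
      push_cast
      exact dvd_rfl) k θ ε hε
  refine ⟨p + 1, ⟨p, hp, rfl⟩, Nat.succ_pos p, fun i => ?_⟩
  obtain ⟨m, hm⟩ := h i
  refine ⟨m, ?_⟩
  push_cast at hm ⊢
  exact hm

end Run7.h278.LI
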