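import Pool.Agent.Run7.h278.LI.Half
import Pool.Agent.Run7.h278.LI.Ex
import Pool.Agent.Run7.h278.LI.Pri

set_option autoImplicit false

/-!
# Li coefficients of an entire function with respect to a half-plane and a base point
-/

namespace Run7.h278.LI

open Complex Filter Topology Metric
open scoped ComplexConjugate

theorem cf_star {f : ℂ → ℂ} (n : ℕ) : cf (fun z => conj (f (conj z))) n = conj (cf f n) := by
  have h1 : ∀ (n : ℕ) (g : ℂ → ℂ) (z : ℂ), iteratedDeriv n (fun z => conj (g (conj z))) z =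
      conj (iteratedDeriv n g (conj z)) := by
    intro n
    induction n with
    | zero => intro g z; simp [iteratedDeriv_zero]
    | succ n ih =>
      intro g z
      rw [iteratedDeriv_succ', iteratedDeriv_succ', ← ih]
      congr 1
      ext y
      exact congrFun (deriv_conj_conj (f := g)) y
  have h2 : logDeriv (fun z => conj (f (conj z))) = fun z => conj (logDeriv f (conj z)) := by
    ext z
    rw [logDeriv_apply, logDeriv_apply, map_div₀]
    congr 1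
    exact congrFun (deriv_conj_conj (f := f)) z
  unfold cf
  rw [h2, h1, map_div₀, map_natCast, map_zero]

/-- the Li coefficients of `Λ` with respect to the half-plane `Re s > σ` and the base point `a` -/
noncomputable def liC (Λ : ℂ → ℂ) (σ a : ℝ) (n : ℕ) : ℝ :=
  n * (iteratedDeriv n (fun z : ℂ => Complex.log (Λ (σ + (a - σ) * ((1 + z) / (1 - z))) / Λ a)) 0).re /
    n.factorial

theorem liC_zero (Λ : ℂ → ℂ) (σ a : ℝ) : liC Λ σ a 0 = 0 := by
  unfold liC
  simp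

theorem cay_eq (σ a : ℝ) (z : ℂ) : ((a : ℂ) - σ) * ((1 + z) / (1 - z)) = cay (a - σ) z := by
  unfold cay
  push_cast
  ring

theorem liC_cf {Λ : ℂ → ℂ} (hd : Differentiable ℂ Λ) (σ : ℝ) {a : ℝ} (ha : Λ a ≠ 0) (n : ℕ) :
    liC Λ σ a (n + 1) = (cf (fun z => Λ (σ + cay (a - σ) z)) n).re := by
  unfold liC
  simp only [cay_eq]
  set φ : ℂ → ℂ := fun z => Λ (σ + cay (a - σ) z) with hφ
  have hφd : DifferentiableOn ℂ φ (ball 0 1) := hd.comp_differentiableOn ((cay_diff _).const_add _)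
  have h0 : AnalyticAt ℂ φ 0 := hφd.analyticAt (isOpen_ball.mem_nhds (mem_ball_self one_pos))
  have hφ0 : φ 0 = Λ a := by
    rw [hφ]
    simp only [cay_zero]
    congr 1
    push_cast
    ring
  have h1 : deriv (fun z => Complex.log (φ z / Λ a)) =ᶠ[𝓝 0] logDeriv φ := by
    have hs : φ 0 / Λ a ∈ slitPlane := by
      rw [hφ0, div_self ha]
      exact one_mem_slitPlane
    have h0' : AnalyticAt ℂ (fun z => φ z / Λ a) 0 := h0.div_const
    filter_upwards [h0.eventually_analyticAt, h0'.continuousAt.eventually_mem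
      (isOpen_slitPlane.mem_nhds hs)] with z h2 h3
    have h4 : HasDerivAt (fun z => φ z / Λ a) (deriv φ z / Λ a) z := h2.differentiableAt.hasDerivAt.div_const _
    rw [(h4.clog h3).deriv, logDeriv_apply]
    field_simp
  rw [iteratedDeriv_succ', h1.iteratedDeriv_eq n, Nat.factorial_succ]
  have h4 : ((n.factorial : ℕ) : ℝ) ≠ 0 := by exact_mod_cast n.factorial_ne_zero
  unfold cf
  rw [show iteratedDeriv n (logDeriv φ) 0 / (n.factorial : ℂ) =
    iteratedDeriv n (logDeriv φ) 0 / ((n.factorial : ℝ) : ℂ) by push_cast; rfl, Complex.div_ofReal_re]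
  push_cast
  have h6 : ((n : ℝ) + 1) ≠ 0 := by positivity
  field_simp

/-- zero-free half-plane -/
def ZF (Λ : ℂ → ℂ) (σ : ℝ) : Prop := ∀ s : ℂ, Λ s = 0 → s.re ≤ σ

/-- The facts about the Li coefficients: `P` is the zero-freeness, `NR` the absence of real zeros. -/
structure LiFacts (l : ℕ → ℝ) (P NR : Prop) : Prop where
  pos : P → ∀ n, 0 ≤ l n
  strict : P → ∀ n, 1 ≤ n → 0 < l n ∨ 0 < l (n + 1)
  weak : ¬P → OscW l
  osc : NR → ¬P → Osc l

/-- the negative part -/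
theorem neg_half {Λ : ℂ → ℂ} (hd : Differentiable ℂ Λ) {σ a : ℝ} (ha : σ < a) (hne : Λ a ≠ 0)
    (hZ : ¬ZF Λ σ) : OscW (liC Λ σ a) ∧ ((∀ t : ℝ, a ≤ t → Λ t ≠ 0) → Osc (liC Λ σ a)) := by
  unfold ZF at hZ
  push Not at hZ
  obtain ⟨s, hs, hre⟩ := hZ
  have hβ : 0 < a - σ := by linarith
  obtain ⟨u, hu, hcu⟩ := cay_surj hβ (w := s - σ) (by
    rw [Complex.sub_re, Complex.ofReal_re]
    linarith)
  have hd' : DifferentiableOn ℂ (fun z => Λ (σ + cay (a - σ) z)) (ball 0 1) :=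
    hd.comp_differentiableOn ((cay_diff _).const_add _)
  have h0 : (fun z => Λ (σ + cay (a - σ) z)) 0 ≠ 0 := by
    beta_reduce
    rw [cay_zero]
    have : (σ : ℂ) + ((a - σ : ℝ) : ℂ) = (a : ℂ) := by push_cast; ring
    rw [this]
    exact hne
  have hu0 : (fun z => Λ (σ + cay (a - σ) z)) u = 0 := by
    beta_reduce
    rw [hcu, show (σ + (s - σ) : ℂ) = s by ring, hs]
  refine ⟨oscW_gen hd' h0 hu hu0 (liC_cf hd σ hne), fun hr => osc_gen hd' h0 hu hu0 ?_ (liC_cf hd σ hne)⟩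
  intro t h0 h1
  obtain ⟨x, hx, hcx⟩ := cay_real hβ h0.le h1
  rw [hcx]
  have : (σ : ℂ) + (x : ℂ) = ((σ + x : ℝ) : ℂ) := by push_cast; ring
  rw [this]
  exact hr _ (by linarith)

theorem liFacts_of {Λ : ℂ → ℂ} (hd : Differentiable ℂ Λ) {σ a : ℝ} (ha : σ < a) (hne : Λ a ≠ 0)
    (hp : ZF Λ σ → PosRe (fun n => cf (fun z => Λ (σ + cay (a - σ) z)) n) ∧
      0 < (cf (fun z => Λ (σ + cay (a - σ) z)) 0).re) :
    LiFacts (liC Λ σ a) (ZF Λ σ) (∀ t : ℝ, a ≤ t → Λ t ≠ 0) := by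
  refine ⟨fun h n => ?_, fun h n hn => ?_, fun h => (neg_half hd ha hne h).1,
    fun h1 h2 => (neg_half hd ha hne h2).2 h1⟩
  · rcases n with _ | n
    · rw [liC_zero]
    · rw [liC_cf hd σ hne]
      exact (hp h).1.1 n
  · obtain ⟨k, rfl⟩ : ∃ k, n = k + 1 := ⟨n - 1, by omega⟩
    obtain ⟨⟨k1, k2, k3⟩, h0⟩ := hp h
    have h1 := k2 k
    rw [liC_cf hd σ hne, liC_cf hd σ hne]
    beta_reduce at h1
    by_contra hcon
    push Not at hcon
    linarith [hcon.1, hcon.2]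

/-! ## Consequences -/

section

variable {l : ℕ → ℝ} {P NR : Prop} (hl : LiFacts l P NR)

include hl

theorem LiFacts.crit {S : Set ℕ} (hS : BohrRec S) : P ↔ ∀ n ∈ S, 0 ≤ l n := by
  constructor
  · intro hP n _
    exact hl.pos hP n
  · intro h
    by_contra hP
    obtain ⟨c, _, hn⟩ := (hl.weak hP).bohr
    obtain ⟨n, hnS, _, hle⟩ := hn S hS 0
    have h1 := h n hnS
    have h2 := Real.exp_pos (c * n)
    linarith

theorem LiFacts.crit_eps {S : Set ℕ} (hS : BohrRec S) : P ↔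
    ∀ ε : ℝ, 0 < ε → ∃ C : ℝ, ∀ n ∈ S, -(C * Real.exp (ε * n)) ≤ l n := by
  constructor
  · intro hP ε _
    refine ⟨0, fun n _ => ?_⟩
    have := hl.pos hP n
    rw [zero_mul, neg_zero]
    exact this
  · intro h
    by_contra hP
    obtain ⟨c, hc, hn⟩ := (hl.weak hP).bohr
    obtain ⟨C, hC⟩ := h (c / 2) (by positivity)
    obtain ⟨N, hN⟩ := exists_nat_gt (2 * C / c)
    obtain ⟨n, hnS, hNn, hle⟩ := hn S hS N
    have h1 := hC n hnS
    have h2 : Real.exp (c * n) = Real.exp (c / 2 * n) * Real.exp (c / 2 * n) := by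
      rw [← Real.exp_add]
      congr 1
      ring
    have h3 : 0 < Real.exp (c / 2 * n) := Real.exp_pos _
    have h4 : Real.exp (c / 2 * n) ≤ C := by
      by_contra hlt
      push Not at hlt
      have := mul_lt_mul_of_pos_right hlt h3
      rw [← h2] at this
      linarith
    have h5 : c / 2 * n + 1 ≤ Real.exp (c / 2 * n) := Real.add_one_le_exp _
    have h6 : (N : ℝ) ≤ n := by exact_mod_cast hNn
    rw [div_lt_iff₀ hc] at hN
    nlinarith

/-- the examples: shifted primes, powers, differences, long intervals; and the dichotomy -/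
theorem LiFacts.examples :
    (P ↔ ∀ p : ℕ, p.Prime → 0 ≤ l (p - 1)) ∧
    (P ↔ ∀ p : ℕ, p.Prime → 0 ≤ l (p + 1)) ∧
    (∀ m k : ℕ, 0 < m → 0 < k → (P ↔ ∀ x : ℕ, 0 < x → 0 ≤ l (m * x ^ k))) ∧
    (∀ A : Set ℕ, A.Infinite → (P ↔ ∀ s ∈ A, ∀ t ∈ A, t < s → 0 ≤ l (s - t))) ∧
    (P ↔ ∀ L : ℕ, ∃ a : ℕ, ∀ i < L, 0 ≤ l (a + i)) ∧
    (P ↔ BohrRec {n | 0 ≤ l n}) := by
  refine ⟨?_, ?_, ?_, ?_, ?_, ?_⟩
  · rw [hl.crit prime_sub_bohr]
    constructor
    · intro h p hp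
      exact h _ ⟨p, hp, rfl⟩
    · rintro h n ⟨p, hp, rfl⟩
      exact h p hp
  · rw [hl.crit prime_add_bohr]
    constructor
    · intro h p hp
      exact h _ ⟨p, hp, rfl⟩
    · rintro h n ⟨p, hp, rfl⟩
      exact h p hp
  · intro m k hm hk
    rw [hl.crit (pow_bohr m k hk hm)]
    constructor
    · intro h x hx
      exact h _ ⟨x, hx, rfl⟩
    · rintro h n ⟨x, hx, rfl⟩
      exact h x hx
  · intro A hA
    rw [hl.crit (diff_bohr hA)]
    constructor
    · intro h s hs t ht hlt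
      exact h _ ⟨s, hs, t, ht, hlt, rfl⟩
    · rintro h n ⟨s, hs, t, ht, hlt, rfl⟩
      exact h s hs t ht hlt
  · constructor
    · intro hP L
      exact ⟨0, fun i _ => hl.pos hP _⟩
    · intro h
      exact (hl.crit (S := {n | 0 ≤ l n}) (thick_bohr h)).2 fun n hn => hn
  · constructor
    · intro hP
      refine thick_bohr fun L => ⟨0, fun i _ => hl.pos hP _⟩
    · intro h
      exact (hl.crit h).2 fun n hn => hn

theorem LiFacts.nbhd (hP : ¬P) : ∃ c : ℝ, 0 < c ∧ ∃ (k : ℕ) (θ : Fin k → ℝ) (δ : ℝ), 0 < δ ∧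
    ∃ N : ℕ, ∀ n : ℕ, N ≤ n → (∀ i, ∃ m : ℤ, |(n : ℝ) * θ i - m| < δ) → l n ≤ -Real.exp (c * n) :=
  (hl.weak hP).nbhd

theorem LiFacts.window (hN : NR) (hP : ¬P) : ∃ c : ℝ, 0 < c ∧ ∃ L N : ℕ, ∀ a : ℕ, N ≤ a →
    (∃ n, a ≤ n ∧ n < a + L ∧ Real.exp (c * n) ≤ l n) ∧
    (∃ n, a ≤ n ∧ n < a + L ∧ l n ≤ -Real.exp (c * n)) :=
  (hl.osc hN hP).window

theorem LiFacts.gaps (hN : NR) : ∃ L : ℕ, ∀ a : ℕ, ∃ n, a ≤ n ∧ n < a + L ∧ 0 < l n := by
  by_cases hP : P
  · refine ⟨3, fun a => ?_⟩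
    rcases hl.strict hP (a + 1) (by omega) with h | h
    · exact ⟨a + 1, by omega, by omega, h⟩
    · exact ⟨a + 1 + 1, by omega, by omega, h⟩
  · obtain ⟨c, _, L, N, h⟩ := (hl.osc hN hP).window
    refine ⟨L + N, fun a => ?_⟩
    obtain ⟨⟨n, h1, h2, h3⟩, _⟩ := h (max a N) (le_max_right _ _)
    refine ⟨n, (le_max_left _ _).trans h1, ?_, (Real.exp_pos _).trans_le h3⟩
    have : max a N ≤ a + N := max_le (Nat.le_add_right _ _) (Nat.le_add_left _ _)
    omega

end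

end Run7.h278.LI
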