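import Pool.Agent.Run7.h278.LI.Ent

set_option autoImplicit false

/-!
# The growth of completed L-functions
-/

namespace Run7.h278.LI

open Complex Filter Topology Metric Set
open scoped ComplexConjugate

theorem norm_Gamma_le {z : ℂ} (hz : 0 < z.re) : ‖Complex.Gamma z‖ ≤ Real.Gamma z.re := by
  rw [Complex.Gamma_eq_integral hz, Real.Gamma_eq_integral hz]
  unfold Complex.GammaIntegral
  refine (MeasureTheory.norm_integral_le_integral_norm _).trans (le_of_eq ?_)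
  refine MeasureTheory.setIntegral_congr_fun measurableSet_Ioi (fun t ht => ?_)
  have ht' : (0 : ℝ) < t := ht
  simp only [norm_mul]
  rw [Complex.norm_cpow_eq_rpow_re_of_pos ht', Complex.norm_real, Real.norm_eq_abs,
    abs_of_pos (Real.exp_pos _)]
  simp

theorem gamma_le {x : ℝ} (hx : 2 ≤ x) : Real.Gamma x ≤ Real.exp (2 * (1 + x) ^ (3 / 2 : ℝ)) := by
  set n : ℕ := ⌈x⌉₊ with hn
  have hn1 : x ≤ n := Nat.le_ceil x
  have hn2 : (n : ℝ) < x + 1 := Nat.ceil_lt_add_one (by linarith)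
  have hn0 : (0 : ℝ) < n := by linarith
  have h1 : Real.Gamma x ≤ Real.Gamma ((n : ℝ) + 1) := by
    refine Real.Gamma_strictMonoOn_Ici.monotoneOn ?_ ?_ ?_
    · exact hx
    · show 2 ≤ (n : ℝ) + 1
      linarith
    · linarith
  rw [Real.Gamma_nat_eq_factorial] at h1
  have h2 : (n.factorial : ℝ) ≤ (n : ℝ) ^ n := by exact_mod_cast Nat.factorial_le_pow n
  have h3 : (n : ℝ) ^ n = Real.exp (n * Real.log n) := by
    rw [Real.exp_nat_mul, Real.exp_log hn0]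
  have h4 : Real.log n ≤ 2 * Real.sqrt n := by
    have h5 : Real.log n = 2 * Real.log (Real.sqrt n) := by
      rw [Real.log_sqrt hn0.le]
      ring
    have h6 := Real.log_le_sub_one_of_pos (Real.sqrt_pos.2 hn0)
    rw [h5]
    linarith
  have h7 : (n : ℝ) * Real.sqrt n = (n : ℝ) ^ (3 / 2 : ℝ) := by
    rw [Real.sqrt_eq_rpow]
    nth_rewrite 1 [← Real.rpow_one (n : ℝ)]
    rw [← Real.rpow_add hn0]
    norm_num
  refine h1.trans (h2.trans ?_)
  rw [h3]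
  apply Real.exp_le_exp.2
  calc (n : ℝ) * Real.log n ≤ n * (2 * Real.sqrt n) := by gcongr
    _ = 2 * (n : ℝ) ^ (3 / 2 : ℝ) := by rw [← h7]; ring
    _ ≤ 2 * (1 + x) ^ (3 / 2 : ℝ) := by
        apply mul_le_mul_of_nonneg_left _ (by norm_num)
        exact Real.rpow_le_rpow hn0.le (by linarith) (by norm_num)

/-- bounded by `exp (K (1 + Re s) ^ (3/2))` in a right half-plane -/
def RB (f : ℂ → ℝ) : Prop := ∃ σ K : ℝ, 0 ≤ σ ∧ 0 ≤ K ∧ ∀ s : ℂ, σ ≤ s.re → f s ≤ Real.exp (K * (1 + s.re) ^ (3 / 2 : ℝ))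

theorem RB.const (c : ℝ) : RB (fun _ => c) := by
  refine ⟨0, |c|, le_rfl, abs_nonneg c, fun s hs => ?_⟩
  have h1 : 1 ≤ (1 + s.re) ^ (3 / 2 : ℝ) := Real.one_le_rpow (by linarith) (by norm_num)
  have h2 := Real.add_one_le_exp (|c| * (1 + s.re) ^ (3 / 2 : ℝ))
  have h3 : |c| * 1 ≤ |c| * (1 + s.re) ^ (3 / 2 : ℝ) := mul_le_mul_of_nonneg_left h1 (abs_nonneg c)
  have := le_abs_self c
  linarith

theorem RB.mul {f g : ℂ → ℝ} (hf : RB f) (hg : RB g) (_h0 : ∀ s, 0 ≤ f s) (h1 : ∀ s, 0 ≤ g s) :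
    RB (fun s => f s * g s) := by
  obtain ⟨σ1, K1, a1, b1, c1⟩ := hf
  obtain ⟨σ2, K2, a2, b2, c2⟩ := hg
  refine ⟨max σ1 σ2, K1 + K2, a1.trans (le_max_left _ _), by positivity, fun s hs => ?_⟩
  have d1 := c1 s ((le_max_left _ _).trans hs)
  have d2 := c2 s ((le_max_right _ _).trans hs)
  calc f s * g s ≤ Real.exp (K1 * (1 + s.re) ^ (3 / 2 : ℝ)) * Real.exp (K2 * (1 + s.re) ^ (3 / 2 : ℝ)) :=
        mul_le_mul d1 d2 (h1 s) (Real.exp_pos _).le
    _ = _ := by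
        rw [← Real.exp_add]
        congr 1
        ring

theorem RB.add {f g : ℂ → ℝ} (hf : RB f) (hg : RB g) : RB (fun s => f s + g s) := by
  obtain ⟨σ1, K1, a1, b1, c1⟩ := hf
  obtain ⟨σ2, K2, a2, b2, c2⟩ := hg
  refine ⟨max σ1 σ2, K1 + K2 + 1, a1.trans (le_max_left _ _), by positivity, fun s hs => ?_⟩
  have d1 := c1 s ((le_max_left _ _).trans hs)
  have d2 := c2 s ((le_max_right _ _).trans hs)
  have hre : 0 ≤ s.re := (a1.trans (le_max_left _ _)).trans hs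
  have h1 : 1 ≤ (1 + s.re) ^ (3 / 2 : ℝ) := Real.one_le_rpow (by linarith) (by norm_num)
  set X := (1 + s.re) ^ (3 / 2 : ℝ)
  have e1 : Real.exp (K1 * X) ≤ Real.exp ((K1 + K2) * X) := Real.exp_le_exp.2 (by nlinarith)
  have e2 : Real.exp (K2 * X) ≤ Real.exp ((K1 + K2) * X) := Real.exp_le_exp.2 (by nlinarith)
  have e3 : 2 ≤ Real.exp X := by
    have := Real.add_one_le_exp X
    linarith
  calc f s + g s ≤ Real.exp ((K1 + K2) * X) * 2 := by linarith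
    _ ≤ Real.exp ((K1 + K2) * X) * Real.exp X := by gcongr
    _ = _ := by
        rw [← Real.exp_add]
        congr 1
        ring

theorem RB.mono {f g : ℂ → ℝ} (hg : RB g) (h : ∃ σ : ℝ, ∀ s : ℂ, σ ≤ s.re → f s ≤ g s) : RB f := by
  obtain ⟨σ2, K2, a2, b2, c2⟩ := hg
  obtain ⟨σ1, h⟩ := h
  exact ⟨max σ1 σ2, K2, a2.trans (le_max_right _ _), b2, fun s hs =>
    (h s ((le_max_left _ _).trans hs)).trans (c2 s ((le_max_right _ _).trans hs))⟩

theorem RB.gr (μ : ℂ) : RB (fun s => ‖Gammaℝ (s + μ)‖) := by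
  refine ⟨4 + |μ.re|, 2 * (1 + |μ.re|) ^ (3 / 2 : ℝ), by positivity, by positivity, fun s hs => ?_⟩
  have h0 : (s + μ).re = s.re + μ.re := Complex.add_re _ _
  have h1 := neg_abs_le μ.re
  have h2 := le_abs_self μ.re
  have hre : 4 ≤ (s + μ).re := by rw [h0]; linarith
  have h3 : ((s + μ) / 2).re = (s + μ).re / 2 := by
    rw [Complex.div_ofNat_re]
  beta_reduce
  rw [Gammaℝ_def, norm_mul]
  have hpi : ‖(Real.pi : ℂ) ^ (-(s + μ) / 2)‖ ≤ 1 := by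
    rw [Complex.norm_cpow_eq_rpow_re_of_pos Real.pi_pos]
    apply Real.rpow_le_one_of_one_le_of_nonpos (by linarith [Real.pi_gt_three])
    rw [Complex.div_ofNat_re, Complex.neg_re]
    linarith
  have hG := norm_Gamma_le (z := (s + μ) / 2) (by rw [h3]; linarith)
  rw [h3] at hG
  have hG2 := gamma_le (x := (s + μ).re / 2) (by linarith)
  calc ‖(Real.pi : ℂ) ^ (-(s + μ) / 2)‖ * ‖Complex.Gamma ((s + μ) / 2)‖
      ≤ 1 * Real.exp (2 * (1 + (s + μ).re / 2) ^ (3 / 2 : ℝ)) :=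
        mul_le_mul hpi (hG.trans hG2) (norm_nonneg _) zero_le_one
    _ = Real.exp (2 * (1 + (s + μ).re / 2) ^ (3 / 2 : ℝ)) := one_mul _
    _ ≤ Real.exp (2 * ((1 + |μ.re|) * (1 + s.re)) ^ (3 / 2 : ℝ)) := by
        apply Real.exp_le_exp.2
        apply mul_le_mul_of_nonneg_left _ (by norm_num)
        apply Real.rpow_le_rpow (by linarith) _ (by norm_num)
        have hs0 : 0 ≤ s.re := by linarith [abs_nonneg μ.re]
        have := mul_nonneg (abs_nonneg μ.re) hs0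
        rw [h0]
        nlinarith [abs_nonneg μ.re]
    _ = _ := by
        rw [Real.mul_rpow (by positivity) (by linarith [abs_nonneg μ.re])]
        congr 1
        ring

theorem gr_step {s : ℂ} (hs : s ≠ 0) : ‖s‖ * ‖Gammaℝ s‖ = 2 * Real.pi * ‖Gammaℝ (s + 2)‖ := by
  rw [Gammaℝ_add_two hs, norm_div, norm_div, norm_mul, Complex.norm_real, Real.norm_eq_abs,
    abs_of_pos Real.pi_pos]
  have : ‖(2 : ℂ)‖ = 2 := by norm_num
  rw [this]
  field_simp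

theorem RB.pow_gr (k : ℕ) : ∀ μ : ℂ, RB (fun s => ‖s‖ ^ k * ‖Gammaℝ (s + μ)‖) := by
  induction k with
  | zero =>
    intro μ
    simpa using RB.gr μ
  | succ k ih =>
    intro μ
    have h1 := (RB.const (2 * Real.pi)).mul (ih (μ + 2)) (fun _ => by positivity) (fun _ => by positivity)
    have h2 := (RB.const ‖μ‖).mul (ih μ) (fun _ => by positivity) (fun _ => by positivity)
    refine (h1.add h2).mono ⟨1 + |μ.re|, fun s hs => ?_⟩
    have hne : s + μ ≠ 0 := by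
      intro h0
      have := congrArg Complex.re h0
      rw [Complex.add_re, Complex.zero_re] at this
      linarith [neg_abs_le μ.re]
    have h3 : ‖s‖ ≤ ‖s + μ‖ + ‖μ‖ := by
      calc ‖s‖ = ‖(s + μ) - μ‖ := by rw [add_sub_cancel_right]
        _ ≤ _ := norm_sub_le _ _
    have h4 := gr_step hne
    rw [add_assoc] at h4
    calc ‖s‖ ^ (k + 1) * ‖Gammaℝ (s + μ)‖ = ‖s‖ ^ k * (‖s‖ * ‖Gammaℝ (s + μ)‖) := by ring
      _ ≤ ‖s‖ ^ k * ((‖s + μ‖ + ‖μ‖) * ‖Gammaℝ (s + μ)‖) := by gcongr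
      _ = ‖s‖ ^ k * (‖s + μ‖ * ‖Gammaℝ (s + μ)‖) + ‖μ‖ * (‖s‖ ^ k * ‖Gammaℝ (s + μ)‖) := by ring
      _ = _ := by
          rw [h4]
          ring

theorem RB.list (l : List ℂ) : RB (fun s => ‖(l.map fun a : ℂ => Gammaℝ (s + a)).prod‖) := by
  induction l with
  | nil => simpa using RB.const 1
  | cons a l ih =>
    refine ((RB.gr a).mul ih (fun _ => norm_nonneg _) (fun _ => norm_nonneg _)).mono ⟨0, fun s _ => ?_⟩
    rw [List.map_cons, List.prod_cons, norm_mul]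

theorem RB.pow_list (k : ℕ) {l : List ℂ} (hl : l ≠ []) :
    RB (fun s => ‖s‖ ^ k * ‖(l.map fun a : ℂ => Gammaℝ (s + a)).prod‖) := by
  obtain ⟨a, l, rfl⟩ := List.exists_cons_of_ne_nil hl
  refine ((RB.pow_gr k a).mul (RB.list l) (fun _ => by positivity) (fun _ => norm_nonneg _)).mono
    ⟨0, fun s _ => ?_⟩
  rw [List.map_cons, List.prod_cons, norm_mul]
  exact le_of_eq (by ring)

/-- the completed function in the half-plane of absolute convergence -/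
noncomputable def Gfun (Q : ℝ) (l : List ℂ) (r : ℕ) (Lf : ℂ → ℂ) (s : ℂ) : ℂ :=
  (s * (s - 1)) ^ r * ((Q : ℂ) ^ (s / 2) * (l.map fun a : ℂ => Gammaℝ (s + a)).prod) * Lf s

theorem RB.cpow {Q : ℝ} (hQ : 0 < Q) : RB (fun s => ‖(Q : ℂ) ^ (s / 2)‖) := by
  refine ⟨0, |Real.log Q|, le_rfl, abs_nonneg _, fun s hs => ?_⟩
  beta_reduce
  rw [Complex.norm_cpow_eq_rpow_re_of_pos hQ, Complex.div_ofNat_re, Real.rpow_def_of_pos hQ]
  apply Real.exp_le_exp.2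
  have h1 : s.re / 2 ≤ (1 + s.re) ^ (3 / 2 : ℝ) := by
    calc s.re / 2 ≤ (1 + s.re) ^ (1 : ℝ) := by rw [Real.rpow_one]; linarith
      _ ≤ _ := Real.rpow_le_rpow_of_exponent_le (by linarith) (by norm_num)
  calc Real.log Q * (s.re / 2) ≤ |Real.log Q| * (s.re / 2) :=
        mul_le_mul_of_nonneg_right (le_abs_self _) (by linarith)
    _ ≤ _ := mul_le_mul_of_nonneg_left h1 (abs_nonneg _)

theorem RB.Gfun {Q : ℝ} (hQ : 0 < Q) {l : List ℂ} (hl : l ≠ []) (r : ℕ) {Lf : ℂ → ℂ}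
    (hL : ∃ σ C : ℝ, ∀ s : ℂ, σ ≤ s.re → ‖Lf s‖ ≤ C) : RB (fun s => ‖Gfun Q l r Lf s‖) := by
  obtain ⟨σ, C, hC⟩ := hL
  have h1 := ((RB.const (|C|)).mul ((RB.cpow hQ).mul ((RB.const ((2 : ℝ) ^ r)).mul (RB.pow_list (2 * r) hl)
    (fun _ => by positivity) (fun _ => by positivity)) (fun _ => by positivity) (fun _ => by positivity))
    (fun _ => abs_nonneg _) (fun _ => by positivity))
  refine h1.mono ⟨max σ 1, fun s hs => ?_⟩
  have h2 : ‖Lf s‖ ≤ |C| := (hC s ((le_max_left _ _).trans hs)).trans (le_abs_self C)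
  have h3 : 1 ≤ ‖s‖ := ((le_max_right _ _).trans hs).trans (Complex.re_le_norm s)
  have h4 : ‖s - 1‖ ≤ 2 * ‖s‖ := by
    refine (norm_sub_le _ _).trans ?_
    rw [norm_one]
    linarith
  have h5 : ‖(s * (s - 1)) ^ r‖ ≤ 2 ^ r * ‖s‖ ^ (2 * r) := by
    rw [norm_pow, norm_mul]
    calc (‖s‖ * ‖s - 1‖) ^ r ≤ (‖s‖ * (2 * ‖s‖)) ^ r := by gcongr
      _ = _ := by
          rw [pow_mul, ← mul_pow]
          congr 1
          ring
  unfold LI.Gfun
  rw [norm_mul, norm_mul, norm_mul]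
  calc ‖(s * (s - 1)) ^ r‖ * (‖(Q : ℂ) ^ (s / 2)‖ * ‖(l.map fun a : ℂ => Gammaℝ (s + a)).prod‖) * ‖Lf s‖
      ≤ (2 ^ r * ‖s‖ ^ (2 * r)) * (‖(Q : ℂ) ^ (s / 2)‖ * ‖(l.map fun a : ℂ => Gammaℝ (s + a)).prod‖) * |C| := by
        gcongr
    _ = _ := by ring

theorem poly_exp (A ρ : ℝ) {c : ℝ} (hA : 0 ≤ A) (hc : 0 < c) : ∃ B : ℝ, 0 ≤ B ∧ ∀ t : ℝ, 1 ≤ t →
    A * t ^ ρ ≤ B * Real.exp (c * t) := by
  refine ⟨A * ((⌈ρ⌉₊.factorial : ℝ) / c ^ ⌈ρ⌉₊), by positivity, fun t ht => ?_⟩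
  have h1 : t ^ ρ ≤ t ^ (⌈ρ⌉₊ : ℝ) := Real.rpow_le_rpow_of_exponent_le ht (Nat.le_ceil ρ)
  rw [Real.rpow_natCast] at h1
  have h2 : (c * t) ^ ⌈ρ⌉₊ / (⌈ρ⌉₊.factorial : ℝ) ≤ Real.exp (c * t) :=
    Real.pow_div_factorial_le_exp (c * t) (by positivity) _
  rw [div_le_iff₀ (by positivity), mul_pow] at h2
  rw [mul_assoc]
  apply mul_le_mul_of_nonneg_left _ hA
  rw [div_mul_eq_mul_div, le_div_iff₀ (by positivity)]
  calc t ^ ρ * c ^ ⌈ρ⌉₊ ≤ t ^ ⌈ρ⌉₊ * c ^ ⌈ρ⌉₊ := by gcongr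
    _ ≤ _ := by linarith

theorem grow_all {Λ : ℂ → ℂ} {w : ℂ} (hd : Differentiable ℂ Λ) (hw : ‖w‖ = 1)
    (fe : ∀ s, Λ (1 - s) = w * conj (Λ (conj s)))
    (order : ∃ A ρ : ℝ, ∀ s : ℂ, ‖Λ s‖ ≤ Real.exp (A * (1 + ‖s‖) ^ ρ))
    (hR : RB (fun s => ‖Λ s‖)) : Gr32 Λ := by
  obtain ⟨σ0, K, hσ0, hK, hb⟩ := hR
  obtain ⟨σ, hσ⟩ : ∃ σ : ℝ, σ = max σ0 1 := ⟨_, rfl⟩
  have hσ1 : 1 ≤ σ := by rw [hσ]; exact le_max_right _ _
  have hbσ : ∀ s : ℂ, σ ≤ s.re → ‖Λ s‖ ≤ Real.exp (K * (1 + s.re) ^ (3 / 2 : ℝ)) := fun s hs =>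
    hb s ((by rw [hσ]; exact le_max_left _ _ : σ0 ≤ σ).trans hs)
  have hfe : ∀ s : ℂ, ‖Λ s‖ = ‖Λ (conj (1 - s))‖ := by
    intro s
    have := fe (1 - s)
    rw [sub_sub_cancel] at this
    rw [this, norm_mul, hw, one_mul, RCLike.norm_conj]
  have hre : ∀ s : ℂ, (conj (1 - s)).re = 1 - s.re := by
    intro s
    rw [Complex.conj_re, Complex.sub_re, Complex.one_re]
  set M : ℝ := Real.exp (K * (1 + σ) ^ (3 / 2 : ℝ)) with hM
  have hstrip : ∀ s : ℂ, 1 - σ ≤ s.re → s.re ≤ σ → ‖Λ s‖ ≤ M := by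
    intro s h1 h2
    obtain ⟨A, ρ, hAρ⟩ := order
    have hwid : 0 < σ - (1 - σ) := by linarith
    have hc : 0 < Real.pi / (σ - (1 - σ)) / 2 := by positivity
    obtain ⟨B, hB0, hB⟩ := poly_exp |A| ρ (abs_nonneg A) hc
    refine PhragmenLindelof.vertical_strip (f := Λ) (a := 1 - σ) (b := σ) hd.diffContOnCl
      ⟨Real.pi / (σ - (1 - σ)) / 2, by linarith [half_lt_self (div_pos Real.pi_pos hwid)],
        B * Real.exp (Real.pi / (σ - (1 - σ)) / 2 * (1 + σ)), ?_⟩ ?_ ?_ h1 h2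
    · refine Asymptotics.IsBigO.of_bound 1 ?_
      refine Filter.eventually_inf_principal.2 (Filter.Eventually.of_forall fun z hz => ?_)
      have hz' : 1 - σ < z.re ∧ z.re < σ := hz
      rw [one_mul, Real.norm_eq_abs, abs_of_pos (Real.exp_pos _)]
      refine (hAρ z).trans (Real.exp_le_exp.2 ?_)
      have hzn : ‖z‖ ≤ σ + |z.im| := by
        refine (Complex.norm_le_abs_re_add_abs_im z).trans ?_
        have : |z.re| ≤ σ := by
          rw [abs_le]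
          constructor <;> linarith [hz'.1, hz'.2]
        linarith
      calc A * (1 + ‖z‖) ^ ρ ≤ |A| * (1 + ‖z‖) ^ ρ := by
            gcongr
            exact le_abs_self A
        _ ≤ B * Real.exp (Real.pi / (σ - (1 - σ)) / 2 * (1 + ‖z‖)) := hB _ (by linarith [norm_nonneg z])
        _ ≤ B * Real.exp (Real.pi / (σ - (1 - σ)) / 2 * (1 + σ) + Real.pi / (σ - (1 - σ)) / 2 * |z.im|) := by
            apply mul_le_mul_of_nonneg_left _ hB0
            apply Real.exp_le_exp.2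
            rw [← mul_add]
            apply mul_le_mul_of_nonneg_left _ hc.le
            linarith
        _ = _ := by
            rw [Real.exp_add, mul_assoc]
    · intro z hz
      rw [hfe]
      refine (hbσ _ (by rw [hre, hz]; linarith)).trans ?_
      rw [hre, hz, hM]
      apply Real.exp_le_exp.2
      apply le_of_eq
      congr 2
      ring
    · intro z hz
      refine (hbσ z hz.ge).trans ?_
      rw [hz]
  refine ⟨K * (2 + σ) ^ (3 / 2 : ℝ), fun s => ?_⟩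
  have hn := norm_nonneg s
  have hfin : ∀ y : ℝ, 0 ≤ y → y ≤ (2 + σ) * (1 + ‖s‖) →
      Real.exp (K * y ^ (3 / 2 : ℝ)) ≤ Real.exp (K * (2 + σ) ^ (3 / 2 : ℝ) * (1 + ‖s‖) ^ (3 / 2 : ℝ)) := by
    intro y hy0 hy
    apply Real.exp_le_exp.2
    rw [mul_assoc, ← Real.mul_rpow (by linarith) (by linarith)]
    apply mul_le_mul_of_nonneg_left _ hK
    exact Real.rpow_le_rpow hy0 hy (by norm_num)
  rcases lt_or_ge s.re (1 - σ) with h1 | h1
  · rw [hfe]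
    refine (hbσ _ (by rw [hre]; linarith)).trans ?_
    rw [hre]
    refine hfin _ (by linarith) ?_
    have h2 := Complex.abs_re_le_norm s
    rw [abs_le] at h2
    nlinarith
  · rcases le_or_gt s.re σ with h2 | h2
    · refine (hstrip s h1 h2).trans (hfin _ (by linarith) ?_)
      nlinarith
    · refine (hbσ s h2.le).trans (hfin _ (by linarith) ?_)
      have h3 := Complex.re_le_norm s
      nlinarith

theorem tendsto_add_norm (a : ℂ) : Tendsto (fun x : ℝ => ‖(x : ℂ) + a‖ / (2 * Real.pi)) atTop atTop := by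
  apply Tendsto.atTop_div_const (by positivity)
  refine tendsto_atTop_mono (f := fun x : ℝ => x + -‖a‖) (fun x => ?_)
    (tendsto_atTop_add_const_right _ _ tendsto_id)
  have h1 : ‖(x : ℂ)‖ ≤ ‖(x : ℂ) + a‖ + ‖a‖ := by
    calc ‖(x : ℂ)‖ = ‖((x : ℂ) + a) - a‖ := by rw [add_sub_cancel_right]
      _ ≤ _ := norm_sub_le _ _
  rw [Complex.norm_real, Real.norm_eq_abs] at h1
  have := le_abs_self x
  linarith

theorem tendsto_list {l : List ℂ} (hl : l ≠ []) :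
    Tendsto (fun x : ℝ => (l.map fun a : ℂ => ‖(x : ℂ) + a‖ / (2 * Real.pi)).prod) atTop atTop := by
  induction l with
  | nil => exact absurd rfl hl
  | cons a l ih =>
    simp only [List.map_cons, List.prod_cons]
    rcases eq_or_ne l [] with rfl | hl'
    · simpa using tendsto_add_norm a
    · exact (tendsto_add_norm a).atTop_mul_atTop₀ (ih hl')

theorem list_ratio (l : List ℂ) : ∀ᶠ x : ℝ in atTop, (l.map fun a : ℂ => Gammaℝ ((x : ℂ) + a)).prod ≠ 0 ∧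
    ‖(l.map fun a : ℂ => Gammaℝ ((x : ℂ) + 2 + a)).prod‖ =
      (l.map fun a : ℂ => ‖(x : ℂ) + a‖ / (2 * Real.pi)).prod * ‖(l.map fun a : ℂ => Gammaℝ ((x : ℂ) + a)).prod‖ := by
  induction l with
  | nil => simp
  | cons a l ih =>
    filter_upwards [ih, eventually_gt_atTop (|a.re|)] with x hx hxa
    obtain ⟨h1, h2⟩ := hx
    have hre : 0 < ((x : ℂ) + a).re := by
      rw [Complex.add_re, Complex.ofReal_re]
      linarith [neg_abs_le a.re]
    have hne : (x : ℂ) + a ≠ 0 := by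
      intro h0
      rw [h0, Complex.zero_re] at hre
      exact lt_irrefl _ hre
    have h3 := gr_step hne
    simp only [List.map_cons, List.prod_cons]
    refine ⟨mul_ne_zero (Gammaℝ_ne_zero_of_re_pos hre) h1, ?_⟩
    rw [norm_mul, h2, norm_mul]
    have e1 : (x : ℂ) + 2 + a = (x : ℂ) + a + 2 := by ring
    have h4 : ‖Gammaℝ ((x : ℂ) + a + 2)‖ = ‖(x : ℂ) + a‖ / (2 * Real.pi) * ‖Gammaℝ ((x : ℂ) + a)‖ := by
      field_simp
      linarith
    rw [e1, h4]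
    ring

theorem up_of {Λ : ℂ → ℂ} {Q : ℝ} (hQ : 0 < Q) {l : List ℂ} (hl : l ≠ []) {r : ℕ} {Lf : ℂ → ℂ}
    (hdir : ∃ σ : ℝ, ∀ s : ℂ, σ ≤ s.re → Λ s = Gfun Q l r Lf s)
    (hL1 : Tendsto (fun x : ℝ => Lf x) atTop (𝓝 1)) : Up Λ := by
  obtain ⟨σ, hdir⟩ := hdir
  have hLn : ∀ᶠ x : ℝ in atTop, Lf x ≠ 0 := hL1.eventually_ne one_ne_zero
  have hQc : (Q : ℂ) ≠ 0 := by exact_mod_cast hQ.ne'
  have hne : ∀ᶠ x : ℝ in atTop, Λ x ≠ 0 := by
    filter_upwards [list_ratio l, hLn, eventually_ge_atTop σ, eventually_gt_atTop 1] with x h1 h2 h3 h4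
    rw [hdir _ (by rw [Complex.ofReal_re]; exact h3)]
    unfold Gfun
    have h5 : (x : ℂ) ≠ 0 := by exact_mod_cast (by linarith : x ≠ 0)
    have h6 : (x : ℂ) - 1 ≠ 0 := by
      have : x - 1 ≠ 0 := by linarith
      exact_mod_cast this
    refine mul_ne_zero (mul_ne_zero (pow_ne_zero _ (mul_ne_zero h5 h6)) (mul_ne_zero ?_ h1.1)) h2
    rw [Complex.cpow_ne_zero_iff]
    left
    exact hQc
  refine ⟨hne, ?_⟩
  have hpol : Tendsto (fun x : ℝ => ((x + 2) * (x + 1) / (x * (x - 1))) ^ r) atTop (𝓝 1) := by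
    have h1 : Tendsto (fun x : ℝ => (1 + 2 * x⁻¹) * (1 + x⁻¹) / (1 * (1 - x⁻¹))) atTop (𝓝 ((1 + 2 * 0) * (1 + 0) / (1 * (1 - 0)))) := by
      have h2 := tendsto_inv_atTop_zero (𝕜 := ℝ)
      exact (((h2.const_mul 2).const_add 1).mul (h2.const_add 1)).div ((h2.const_sub 1).const_mul 1) (by norm_num)
    have h3 : Tendsto (fun x : ℝ => (x + 2) * (x + 1) / (x * (x - 1))) atTop (𝓝 1) := by
      have e : ((1 + 2 * 0) * (1 + 0) / (1 * (1 - 0)) : ℝ) = 1 := by norm_num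
      rw [e] at h1
      refine h1.congr' ?_
      filter_upwards [eventually_gt_atTop 1] with x hx
      have hx0 : x ≠ 0 := by linarith
      have hx1 : x - 1 ≠ 0 := by linarith
      have hx2 : 1 - x⁻¹ ≠ 0 := by
        have : 1 - x⁻¹ = (x - 1) / x := by field_simp
        rw [this]
        exact div_ne_zero hx1 hx0
      field_simp
    simpa using h3.pow r
  have hLr : Tendsto (fun x : ℝ => ‖Lf ((x : ℂ) + 2)‖ / ‖Lf x‖) atTop (𝓝 1) := by
    have h1 : Tendsto (fun x : ℝ => Lf ((x : ℂ) + 2)) atTop (𝓝 1) := by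
      have h2 := hL1.comp (tendsto_atTop_add_const_right atTop (2 : ℝ) tendsto_id)
      refine h2.congr fun x => ?_
      simp
    have h3 : Tendsto (fun x : ℝ => ‖Lf ((x : ℂ) + 2)‖ / ‖Lf x‖) atTop (𝓝 (‖(1 : ℂ)‖ / ‖(1 : ℂ)‖)) :=
      h1.norm.div hL1.norm (by simp)
    rwa [norm_one, div_one] at h3
  have hlim : Tendsto (fun x : ℝ => (l.map fun a : ℂ => ‖(x : ℂ) + a‖ / (2 * Real.pi)).prod *
      (((x + 2) * (x + 1) / (x * (x - 1))) ^ r * Q * (‖Lf ((x : ℂ) + 2)‖ / ‖Lf x‖))) atTop atTop :=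
    (tendsto_list hl).atTop_mul_pos (C := 1 * Q * 1) (by linarith) ((hpol.mul_const Q).mul hLr)
  refine hlim.congr' ?_
  filter_upwards [list_ratio l, hLn, eventually_ge_atTop σ, eventually_gt_atTop 1] with x h1 h2 h3 h4
  obtain ⟨h1a, h1b⟩ := h1
  have d1 := hdir (x : ℂ) (by rw [Complex.ofReal_re]; exact h3)
  have d2 := hdir ((x : ℂ) + 2) (by
    rw [Complex.add_re, Complex.ofReal_re]
    norm_num
    linarith)
  rw [d1, d2]
  unfold Gfun
  have e1 : ‖(Q : ℂ) ^ (((x : ℂ) + 2) / 2)‖ = Q * ‖(Q : ℂ) ^ ((x : ℂ) / 2)‖ := by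
    rw [Complex.norm_cpow_eq_rpow_re_of_pos hQ, Complex.norm_cpow_eq_rpow_re_of_pos hQ,
      Complex.div_ofNat_re, Complex.div_ofNat_re, Complex.add_re, Complex.ofReal_re]
    have : (x + (2 : ℂ).re) / 2 = 1 + x / 2 := by
      norm_num
      ring
    rw [this, Real.rpow_add hQ, Real.rpow_one]
  have e2 : ‖(((x : ℂ) + 2) * ((x : ℂ) + 2 - 1)) ^ r‖ =
      ((x + 2) * (x + 1) / (x * (x - 1))) ^ r * ‖((x : ℂ) * ((x : ℂ) - 1)) ^ r‖ := by
    have a1 : (((x : ℂ) + 2) * ((x : ℂ) + 2 - 1)) = (((x + 2) * (x + 1) : ℝ) : ℂ) := by push_cast; ring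
    have a2 : ((x : ℂ) * ((x : ℂ) - 1)) = ((x * (x - 1) : ℝ) : ℂ) := by push_cast; ring
    rw [norm_pow, norm_pow, a1, a2, Complex.norm_real, Complex.norm_real, Real.norm_eq_abs, Real.norm_eq_abs,
      abs_of_pos (by nlinarith), abs_of_pos (by nlinarith), ← mul_pow]
    congr 1
    have hx0 : x ≠ 0 := by linarith
    have hx1 : x - 1 ≠ 0 := by linarith
    field_simp
  have n1 : ‖((x : ℂ) * ((x : ℂ) - 1)) ^ r‖ ≠ 0 := by
    rw [norm_ne_zero_iff]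
    apply pow_ne_zero
    have h5 : (x : ℂ) ≠ 0 := by exact_mod_cast (by linarith : x ≠ 0)
    have h6 : (x : ℂ) - 1 ≠ 0 := by
      have : x - 1 ≠ 0 := by linarith
      exact_mod_cast this
    exact mul_ne_zero h5 h6
  have n2 : ‖(Q : ℂ) ^ ((x : ℂ) / 2)‖ ≠ 0 := by
    rw [norm_ne_zero_iff, Complex.cpow_ne_zero_iff]
    left
    exact hQc
  have n3 : ‖(l.map fun a : ℂ => Gammaℝ ((x : ℂ) + a)).prod‖ ≠ 0 := norm_ne_zero_iff.2 h1a
  have n4 : ‖Lf x‖ ≠ 0 := norm_ne_zero_iff.2 h2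
  rw [norm_mul, norm_mul, norm_mul, norm_mul, norm_mul, norm_mul, e1, e2, h1b]
  field_simp

/-- Dirichlet series -/
theorem lseries_right {b : ℕ → ℂ} (h : ∃ B β : ℝ, ∀ m : ℕ, 1 ≤ m → ‖b m‖ ≤ B * (m : ℝ) ^ β) :
    ∃ σ C : ℝ, ∀ s : ℂ, σ ≤ s.re → ‖LSeries b s‖ ≤ C := by
  obtain ⟨B, β, hB⟩ := h
  have hs : ∀ s : ℂ, β + 2 ≤ s.re → LSeriesSummable b s := fun s hs => by
    refine LSeriesSummable_of_le_const_mul_rpow (x := β + 1) (by linarith) ⟨B, fun n hn => ?_⟩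
    have := hB n (Nat.one_le_iff_ne_zero.2 hn)
    rwa [add_sub_cancel_right]
  have h0 := hs ((β + 2 : ℝ) : ℂ) (by rw [Complex.ofReal_re])
  refine ⟨β + 2, ∑' n, ‖LSeries.term b ((β + 2 : ℝ) : ℂ) n‖, fun s hs1 => ?_⟩
  refine (norm_tsum_le_tsum_norm (hs s hs1).norm).trans ?_
  refine Summable.tsum_le_tsum (fun n => ?_) (hs s hs1).norm h0.norm
  exact LSeries.norm_term_le_of_re_le_re b (by rw [Complex.ofReal_re]; exact hs1) n

theorem lseries_one {b : ℕ → ℂ} (h1 : b 1 = 1) (h : ∃ B β : ℝ, ∀ m : ℕ, 1 ≤ m → ‖b m‖ ≤ B * (m : ℝ) ^ β) :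
    Tendsto (fun x : ℝ => LSeries b x) atTop (𝓝 1) := by
  obtain ⟨B, β, hB⟩ := h
  have h0 : LSeriesSummable b ((β + 2 : ℝ) : ℂ) := by
    refine LSeriesSummable_of_le_const_mul_rpow (x := β + 1) (by rw [Complex.ofReal_re]; linarith)
      ⟨B, fun n hn => ?_⟩
    have := hB n (Nat.one_le_iff_ne_zero.2 hn)
    rwa [add_sub_cancel_right]
  have h2 : LSeries.abscissaOfAbsConv b < ⊤ :=
    lt_of_le_of_lt h0.abscissaOfAbsConv_le (EReal.coe_lt_top _)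
  have := LSeries.tendsto_atTop h2
  rwa [h1] at this

end Run7.h278.LI
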