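import Pool.Agent.Run7.h278.LI.Gen

set_option autoImplicit false

/-!
# Li coefficients for half-planes
-/

namespace Run7.h278.LI

open Complex Filter Topology Metric Polynomial
open Pool.Agent.H24R2.JP (had)

/-- real parts of Li type -/
def PosRe (c : ℕ → ℂ) : Prop := (∀ n, 0 ≤ (c n).re) ∧
  (∀ n, (c 0).re ≤ 2 * ((c n).re + (c (n + 1)).re)) ∧ ∀ n : ℕ, (c n).re ≤ ((n : ℝ) + 1) ^ 2 * (c 0).re

theorem PosRe.zero : PosRe (fun _ => 0) := by
  refine ⟨?_, ?_, ?_⟩ <;> intro n <;> simp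

theorem PosRe.add {c d : ℕ → ℂ} (hc : PosRe c) (hd : PosRe d) : PosRe (fun n => c n + d n) := by
  obtain ⟨h2, h3, h4⟩ := hc
  obtain ⟨k2, k3, k4⟩ := hd
  refine ⟨fun n => ?_, fun n => ?_, fun n => ?_⟩ <;>
    simp only [Complex.add_re]
  · exact add_nonneg (h2 n) (k2 n)
  · linarith [h3 n, k3 n]
  · rw [mul_add]
    exact add_le_add (h4 n) (k4 n)

theorem PosRe.lim {c : ℕ → ℕ → ℂ} {d : ℕ → ℂ} (hc : ∀ N, PosRe (c N))
    (h : ∀ n, Tendsto (fun N => c N n) atTop (𝓝 (d n))) : PosRe d := by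
  have hre : ∀ n, Tendsto (fun N => (c N n).re) atTop (𝓝 (d n).re) := fun n =>
    (Complex.continuous_re.tendsto _).comp (h n)
  refine ⟨fun n => ?_, fun n => ?_, fun n => ?_⟩
  · exact ge_of_tendsto' (hre n) fun N => (hc N).1 n
  · exact le_of_tendsto_of_tendsto' (hre 0) (((hre n).add (hre (n + 1))).const_mul 2) fun N => (hc N).2.1 n
  · exact le_of_tendsto_of_tendsto' (hre n) ((hre 0).const_mul _) fun N => (hc N).2.2 n

theorem PosRe.unit {a : ℂ} (ha : ‖a‖ ≤ 1) : PosRe (fun n => 1 - a ^ (n + 1)) := by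
  rcases eq_or_ne a 0 with rfl | h0
  · refine ⟨fun n => ?_, fun n => ?_, fun n => ?_⟩
    · simp
    · simp
      norm_num
    · simp
      rw [abs_of_nonneg (by positivity)]
      have : (0 : ℝ) ≤ n := n.cast_nonneg
      linarith
  · obtain ⟨r, hr⟩ : ∃ r : ℝ, r = ‖a‖ := ⟨_, rfl⟩
    have hr0 : 0 < r := by rw [hr]; exact norm_pos_iff.2 h0
    have hr1 : r ≤ 1 := by rw [hr]; exact ha
    have hrc : (r : ℂ) ≠ 0 := by exact_mod_cast hr0.ne'
    obtain ⟨u, hu⟩ : ∃ u : ℂ, u = a / r := ⟨_, rfl⟩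
    have hau : a = r * u := by rw [hu]; field_simp
    have hun : ‖u‖ = 1 := by
      rw [hu, norm_div, Complex.norm_real, Real.norm_eq_abs, abs_of_pos hr0, hr, div_self]
      rw [← hr]
      exact hr0.ne'
    have hk : ∀ k : ℕ, (1 - a ^ k : ℂ).re = (1 - r ^ k) + r ^ k * (‖u ^ k - 1‖ ^ 2 / 2) := by
      intro k
      have h1 : ‖u ^ k - 1‖ ^ 2 = 2 - 2 * (u ^ k).re := by
        have h2 : ‖u ^ k‖ = 1 := by rw [norm_pow, hun, one_pow]
        rw [← Complex.normSq_eq_norm_sq, Complex.normSq_sub, Complex.normSq_eq_norm_sq, h2]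
        simp
        ring
      rw [h1, hau, mul_pow, Complex.sub_re, Complex.one_re]
      have h3 : ((r : ℂ) ^ k * u ^ k).re = r ^ k * (u ^ k).re := by
        rw [← Complex.ofReal_pow, Complex.re_ofReal_mul]
      rw [h3]
      ring
    obtain ⟨-, -, k3, k4⟩ := PosSeq.unit hun
    simp only [Complex.ofReal_re] at k3 k4
    have hA1 : ‖u ^ (0 + 1) - 1‖ ^ 2 ≤ 4 := by
      have : ‖u ^ (0 + 1) - 1‖ ≤ 2 := by
        refine (norm_sub_le _ _).trans ?_
        rw [norm_pow, hun]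
        norm_num
      nlinarith [norm_nonneg (u ^ (0 + 1) - 1)]
    have hpk : ∀ k : ℕ, 0 < r ^ k ∧ r ^ k ≤ 1 := fun k => ⟨pow_pos hr0 k, pow_le_one₀ hr0.le hr1⟩
    have hanti : ∀ k j : ℕ, k ≤ j → r ^ j ≤ r ^ k := fun k j h => pow_le_pow_of_le_one hr0.le hr1 h
    refine ⟨fun n => ?_, fun n => ?_, fun n => ?_⟩
    · beta_reduce
      rw [hk]
      have := hpk (n + 1)
      have h5 : 0 ≤ r ^ (n + 1) * (‖u ^ (n + 1) - 1‖ ^ 2 / 2) := by positivity
      linarith [this.2]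
    · beta_reduce
      rw [hk, hk, hk]
      have h1 := k3 n
      have p1 := hpk (n + 1 + 1)
      have p2 := hpk (n + 1)
      have p3 := hpk (0 + 1)
      have p4 := hanti (n + 1) (n + 1 + 1) (by omega)
      have p5 := hanti (0 + 1) (n + 1) (by omega)
      set A0 := ‖u ^ (0 + 1) - 1‖ ^ 2
      set A1 := ‖u ^ (n + 1) - 1‖ ^ 2 with hA1d
      set A2 := ‖u ^ (n + 1 + 1) - 1‖ ^ 2 with hA2d
      set q0 := r ^ (0 + 1)
      set q1 := r ^ (n + 1)
      set q2 := r ^ (n + 1 + 1)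
      have a1 : 0 ≤ A1 := by rw [hA1d]; positivity
      have a2 : 0 ≤ A2 := by rw [hA2d]; positivity
      have b1 : q2 * A0 ≤ q2 * (2 * (A1 + A2)) := mul_le_mul_of_nonneg_left h1 p1.1.le
      have b2 : q2 * A1 ≤ q1 * A1 := mul_le_mul_of_nonneg_right p4 a1
      have b3 : (q0 - q2) * A0 ≤ (q0 - q2) * 4 := mul_le_mul_of_nonneg_left hA1 (by linarith)
      nlinarith
    · beta_reduce
      rw [hk, hk]
      have h1 := k4 n
      have p2 := hpk (n + 1)
      have p3 := hpk (0 + 1)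
      have p5 := hanti (0 + 1) (n + 1) (by omega)
      have hb : 1 - r ^ (n + 1) ≤ (n + 1) * (1 - r) := by
        have := one_add_mul_le_pow (a := r - 1) (by linarith) (n + 1)
        rw [add_sub_cancel] at this
        push_cast at this
        linarith
      set A0 := ‖u ^ (0 + 1) - 1‖ ^ 2 with hA0d
      set A1 := ‖u ^ (n + 1) - 1‖ ^ 2 with hA1d
      have a0 : 0 ≤ A0 := by rw [hA0d]; positivity
      have a1 : 0 ≤ A1 := by rw [hA1d]; positivity
      have hn : (0 : ℝ) ≤ n := n.cast_nonneg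
      have c1 : r ^ (n + 1) * A1 ≤ r ^ (0 + 1) * (((n : ℝ) + 1) ^ 2 * A0) :=
        mul_le_mul p5 h1 a1 p3.1.le
      have c2 : ((n : ℝ) + 1) * (1 - r) ≤ ((n : ℝ) + 1) ^ 2 * (1 - r) := by
        apply mul_le_mul_of_nonneg_right _ (by linarith)
        nlinarith
      have c3 : r ^ (0 + 1) = r := by rw [zero_add, pow_one]
      rw [c3] at c1 ⊢
      nlinarith

/-- a linear factor -/
theorem lin_cf {h β : ℝ} (hβ : 0 < β) {y : ℂ} (hy : y.re ≤ h) :
    PosRe (fun n => cf (fun z => (h + cay β z) - y) n) ∧ AnalyticAt ℂ (fun z => (h + cay β z) - y) 0 ∧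
      (fun z => (h + cay β z) - y) 0 ≠ 0 := by
  have A1 : AnalyticAt ℂ (fun z => (h + cay β z) - y) 0 :=
    (((cay_diff β).const_add _).sub_const _).analyticAt (isOpen_ball.mem_nhds (mem_ball_self one_pos))
  have hA0 : (h : ℂ) + β - y ≠ 0 := by
    intro h0
    have := congrArg Complex.re h0
    simp only [Complex.sub_re, Complex.add_re, Complex.ofReal_re, Complex.zero_re] at this
    linarith
  have N1 : (fun z => (h + cay β z) - y) 0 ≠ 0 := by
    simp only [cay_zero]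
    exact hA0
  refine ⟨?_, A1, N1⟩
  have key : (fun z : ℂ => ((h + cay β z) - y) * (z - 1)) =ᶠ[𝓝 0]
      fun z => ((h : ℂ) - y - β) * z - ((h : ℂ) + β - y) := by
    filter_upwards [isOpen_ball.mem_nhds (mem_ball_self (x := (0 : ℂ)) one_pos)] with z hz
    have h2 := one_sub_ne hz
    unfold cay
    field_simp
    ring
  have A2 : AnalyticAt ℂ (fun z : ℂ => z - 1) 0 := by fun_prop
  have N2 : (fun z : ℂ => z - 1) 0 ≠ 0 := by norm_num
  have e : ∀ n, cf (fun z => (h + cay β z) - y) n = 1 + cf (fun z => ((h : ℂ) - y - β) * z - ((h : ℂ) + β - y)) n := by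
    intro n
    have e1 := cf_congr key n
    rw [cf_mul A1 A2 N1 N2, cf_lin, inv_one, one_pow] at e1
    linear_combination e1
  have e2 : ∀ n, cf (fun z => ((h : ℂ) - y - β) * z - ((h : ℂ) + β - y)) n =
      -(((h : ℂ) - y - β) / ((h : ℂ) + β - y)) ^ (n + 1) := by
    intro n
    rcases eq_or_ne ((h : ℂ) - y - β) 0 with hB | hB
    · simp only [hB, zero_mul, zero_sub, zero_div]
      rw [cf_const, zero_pow (by omega), neg_zero]
    · have e3 : (fun z => ((h : ℂ) - y - β) * z - ((h : ℂ) + β - y)) =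
          fun z => ((h : ℂ) - y - β) * (z - ((h : ℂ) + β - y) / ((h : ℂ) - y - β)) := by
        ext z
        field_simp
      rw [e3, cf_const_mul (by fun_prop) _ hB, cf_lin, inv_div]
      rw [zero_sub, neg_ne_zero]
      exact div_ne_zero hA0 hB
  have hfun : (fun n => cf (fun z => (h + cay β z) - y) n) =
      fun n => 1 - (((h : ℂ) - y - β) / ((h : ℂ) + β - y)) ^ (n + 1) := by
    ext n
    rw [e, e2]
    ring
  rw [hfun]
  refine PosRe.unit ?_
  rw [norm_div, div_le_one (norm_pos_iff.2 hA0), ← sq_le_sq₀ (norm_nonneg _) (norm_nonneg _),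
    ← Complex.normSq_eq_norm_sq, ← Complex.normSq_eq_norm_sq, Complex.normSq_apply, Complex.normSq_apply]
  simp only [Complex.sub_re, Complex.add_re, Complex.ofReal_re, Complex.sub_im, Complex.add_im, Complex.ofReal_im]
  nlinarith

theorem prod_posRe {h β : ℝ} (hβ : 0 < β) (Y : Multiset ℂ) {c : ℂ} (hc : c ≠ 0)
    (hY : ∀ x ∈ Y, ∃ y : ℂ, y ^ 2 = x ∧ |y.re| ≤ h) :
    PosRe (fun n => cf (fun z => c * (Y.map (fun x => (h + cay β z) ^ 2 - x)).prod) n) ∧
    AnalyticAt ℂ (fun z : ℂ => c * (Y.map (fun x => (h + cay β z) ^ 2 - x)).prod) 0 ∧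
    (fun z : ℂ => c * (Y.map (fun x => (h + cay β z) ^ 2 - x)).prod) 0 ≠ 0 := by
  induction Y using Multiset.induction_on with
  | empty =>
    refine ⟨?_, by simpa using analyticAt_const, by simpa using hc⟩
    have : (fun n => cf (fun z : ℂ => c * (Multiset.map (fun x => (h + cay β z) ^ 2 - x) 0).prod) n) =
        fun _ => 0 := by
      ext n
      simp only [Multiset.map_zero, Multiset.prod_zero, mul_one]
      exact cf_const c n
    rw [this]
    exact PosRe.zero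
  | cons x Y ih =>
    obtain ⟨k1, k2, k3⟩ := ih fun x hx => hY x (Multiset.mem_cons_of_mem hx)
    obtain ⟨y, hy, hre⟩ := hY x (Multiset.mem_cons_self x Y)
    rw [abs_le] at hre
    obtain ⟨a1, a2, a3⟩ := lin_cf hβ (y := y) hre.2
    obtain ⟨b1, b2, b3⟩ := lin_cf hβ (y := -y) (h := h) (by rw [Complex.neg_re]; linarith)
    have e : (fun z : ℂ => c * ((x ::ₘ Y).map (fun x => (h + cay β z) ^ 2 - x)).prod) =
        fun z => ((h + cay β z) - y) * (((h + cay β z) - -y) *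
          (c * (Y.map (fun x => (h + cay β z) ^ 2 - x)).prod)) := by
      ext z
      rw [Multiset.map_cons, Multiset.prod_cons, ← hy]
      ring
    rw [e]
    have c2 : AnalyticAt ℂ (fun z => ((h + cay β z) - -y) *
        (c * (Y.map (fun x => (h + cay β z) ^ 2 - x)).prod)) 0 := b2.mul k2
    have c3 : (fun z => ((h + cay β z) - -y) * (c * (Y.map (fun x => (h + cay β z) ^ 2 - x)).prod)) 0 ≠ 0 :=
      mul_ne_zero b3 k3
    refine ⟨?_, a2.mul c2, mul_ne_zero a3 c3⟩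
    have e3 : (fun n => cf (fun z => ((h + cay β z) - y) * (((h + cay β z) - -y) *
        (c * (Y.map (fun x => (h + cay β z) ^ 2 - x)).prod))) n) = fun n =>
        cf (fun z => (h + cay β z) - y) n + (cf (fun z => (h + cay β z) - -y) n +
          cf (fun z => c * (Y.map (fun x => (h + cay β z) ^ 2 - x)).prod) n) := by
      ext n
      rw [cf_mul a2 c2 a3 c3, cf_mul b2 k2 b3 k3]
    rw [e3]
    exact a1.add (b1.add k1)

/-- positivity of the real parts of the coefficients for a function of order less than one without zeros to the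
right of a line -/
theorem pos_half {f : ℂ → ℂ} (hf : Differentiable ℂ f)
    (hconj : ∀ x, f ((starRingEnd ℂ) x) = (starRingEnd ℂ) (f x))
    (hgrow : ∃ K : ℝ, ∀ x, ‖f x‖ ≤ Real.exp (K * (1 + ‖x‖) ^ (3 / 4 : ℝ))) {h β : ℝ} (hβ : 0 < β)
    {t : ℝ} (ht : f t ≠ 0) (hz : ∀ w, f (w ^ 2) = 0 → |w.re| ≤ h) :
    PosRe (fun n => cf (fun z => f ((h + cay β z) ^ 2)) n) ∧
      ∀ z ∈ ball (0 : ℂ) 1, f ((h + cay β z) ^ 2) ≠ 0 := by
  obtain ⟨K, hK⟩ := hgrow
  set g : ℂ → ℂ := fun x => f (x + t) with hg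
  have hgd : Differentiable ℂ g := hf.comp (by fun_prop)
  have hg0 : g 0 ≠ 0 := by
    rw [hg]
    simpa using ht
  have hgc : ∀ x, g ((starRingEnd ℂ) x) = (starRingEnd ℂ) (g x) := by
    intro x
    rw [hg]
    beta_reduce
    rw [← hconj, map_add, Complex.conj_ofReal]
  have hgg : ∀ x, ‖g x‖ ≤ Real.exp ((|K| * (1 + |t|) ^ (3 / 4 : ℝ)) * (1 + ‖x‖) ^ (3 / 4 : ℝ)) := by
    intro x
    refine (hK _).trans (Real.exp_le_exp.2 ?_)
    have h1 : 1 + ‖x + (t : ℂ)‖ ≤ (1 + |t|) * (1 + ‖x‖) := by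
      have h2 := norm_add_le x (t : ℂ)
      rw [Complex.norm_real, Real.norm_eq_abs] at h2
      nlinarith [norm_nonneg x, abs_nonneg t]
    calc K * (1 + ‖x + (t : ℂ)‖) ^ (3 / 4 : ℝ)
        ≤ |K| * (1 + ‖x + (t : ℂ)‖) ^ (3 / 4 : ℝ) := by
          gcongr
          exact le_abs_self K
      _ ≤ |K| * ((1 + |t|) * (1 + ‖x‖)) ^ (3 / 4 : ℝ) := by gcongr
      _ = |K| * (1 + |t|) ^ (3 / 4 : ℝ) * (1 + ‖x‖) ^ (3 / 4 : ℝ) := by
          rw [Real.mul_rpow (by positivity) (by positivity)]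
          ring
  obtain ⟨P, hP, hlim⟩ := had g _ hgd hg0 hgc hgg
  set k : ℂ → ℂ := fun z => (h + cay β z) ^ 2 - t with hk
  have hkd : DifferentiableOn ℂ k (ball 0 1) := (((cay_diff β).const_add _).pow 2).sub_const _
  have hl : TendstoLocallyUniformlyOn (fun (N : ℕ) (x : ℂ) => aeval x (P N)) g atTop Set.univ :=
    tendstoLocallyUniformlyOn_univ.2 hlim
  have h1 : TendstoLocallyUniformlyOn (fun (N : ℕ) (z : ℂ) => aeval (k z) (P N)) (fun z => g (k z)) atTop
      (ball 0 1) := hl.comp k (fun z _ => Set.mem_univ _) hkd.continuousOn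
  have hgk : ∀ z, g (k z) = f ((h + cay β z) ^ 2) := by
    intro z
    rw [hg, hk]
    beta_reduce
    rw [sub_add_cancel]
  have hne' : ∀ z ∈ ball (0 : ℂ) 1, f ((h + cay β z) ^ 2) ≠ 0 := by
    intro z hz' h0
    have h2 := hz _ h0
    rw [Complex.add_re, Complex.ofReal_re, abs_le] at h2
    have := cay_re hβ hz'
    linarith [h2.2]
  have hne : ∀ z ∈ ball (0 : ℂ) 1, g (k z) ≠ 0 := fun z hz' => by rw [hgk]; exact hne' z hz'
  refine ⟨?_, hne'⟩
  have hneP : ∀ N, ∀ z ∈ ball (0 : ℂ) 1, (aeval (k z) (P N) : ℂ) ≠ 0 := fun N z hz h0 => hne z hz (hP N _ h0)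
  have hdP : ∀ N, DifferentiableOn ℂ (fun z => (aeval (k z) (P N) : ℂ)) (ball 0 1) := by
    intro N
    have : Differentiable ℂ (fun x : ℂ => (aeval x (P N) : ℂ)) := (P N).differentiable_aeval
    exact this.comp_differentiableOn hkd
  have h2 : ∀ n, Tendsto (fun N => cf (fun z => (aeval (k z) (P N) : ℂ)) n) atTop (𝓝 (cf (fun z => g (k z)) n)) :=
    fun n => cf_tendsto isOpen_ball (mem_ball_self one_pos) h1 hdP hne hneP n
  have e0 : (fun n => cf (fun z => f ((h + cay β z) ^ 2)) n) = fun n => cf (fun z => g (k z)) n := by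
    ext n
    congr 1
    ext z
    rw [hgk]
  rw [e0]
  refine PosRe.lim (fun N => ?_) h2
  set Q : ℂ[X] := (P N).map (algebraMap ℝ ℂ) with hQ
  have hQe : ∀ x : ℂ, (aeval x (P N) : ℂ) = Q.eval x := by
    intro x
    rw [hQ, eval_map_algebraMap]
  have hQ0 : Q ≠ 0 := by
    intro h0
    refine hneP N 0 (mem_ball_self one_pos) ?_
    rw [hQe, h0, eval_zero]
  have hsplit : Q = Polynomial.C Q.leadingCoeff * (Q.roots.map (fun a => X - Polynomial.C a)).prod :=
    (IsAlgClosed.splits Q).eq_prod_roots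
  have hroots : ∀ x ∈ Q.roots, ∃ y : ℂ, y ^ 2 = x + t ∧ |y.re| ≤ h := by
    intro x hx
    rw [mem_roots hQ0, IsRoot.def, ← hQe] at hx
    have h3 := hP N x hx
    obtain ⟨y, hy⟩ := IsAlgClosed.exists_pow_nat_eq (x + (t : ℂ)) (n := 2) (by norm_num)
    refine ⟨y, hy, hz y ?_⟩
    rw [hy]
    exact h3
  have hmain := (prod_posRe hβ (Q.roots.map fun x => x + (t : ℂ)) (h := h) (leadingCoeff_ne_zero.2 hQ0) (by
    intro y hy
    rw [Multiset.mem_map] at hy
    obtain ⟨x, hx, rfl⟩ := hy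
    exact hroots x hx)).1
  have hfun : (fun z => (aeval (k z) (P N) : ℂ)) = fun z => Q.leadingCoeff *
      ((Q.roots.map fun x => x + (t : ℂ)).map (fun x => (h + cay β z) ^ 2 - x)).prod := by
    ext z
    rw [hQe]
    conv_lhs => rw [hsplit]
    rw [eval_mul, eval_C, eval_multiset_prod, Multiset.map_map, Multiset.map_map]
    congr 2
    refine Multiset.map_congr rfl fun x _ => ?_
    simp only [Function.comp_apply, eval_sub, eval_X, eval_C]
    rw [hk]
    ring
  rw [hfun]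
  exact hmain

end Run7.h278.LI
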