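import Pool.Agent.TH839.UH.Fin2
import Pool.Agent.Run7.h278.LI.Shift
import Pool.Agent.Run7.h278.LI.Art

set_option autoImplicit false

/-!
# L-functions of elliptic curves over number fields: growth
-/

namespace Run7.h278.LI

open Complex Filter Topology Set NumberField IsDedekindDomain UpperHalfPlane MatrixGroups CongruenceSubgroup
open scoped ComplexConjugate
open Pool.Agent.TH839.UH Pool.Agent.H921R2.TatePole

section
variable {K : Type} [Field K] [NumberField K]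
variable {a δ : HeightOneSpectrum (𝓞 K) → ℂ} {A : ℝ} {Λ : ℂ → ℂ}

theorem nm_cpow_zero (v : HeightOneSpectrum (𝓞 K)) {g : ℝ → ℝ} (hg : Tendsto g atTop atTop) :
    Tendsto (fun x : ℝ => ‖((nm v : ℕ) : ℂ) ^ (-((g x : ℝ) : ℂ))‖) atTop (𝓝 0) := by
  have h2 := two_le_nm v
  have hn2 : (2 : ℝ) ≤ nm v := by exact_mod_cast h2
  have e : ∀ x : ℝ, ‖((nm v : ℕ) : ℂ) ^ (-((g x : ℝ) : ℂ))‖ = Real.exp (Real.log (nm v) * (-g x)) := by
    intro x
    rw [nm_cpow_norm, Complex.ofReal_re, Real.rpow_def_of_pos (by linarith)]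
  simp only [e]
  refine Real.tendsto_exp_atBot.comp ?_
  exact Tendsto.const_mul_atBot (Real.log_pos (by linarith)) (tendsto_neg_atTop_atBot.comp hg)

theorem gv_zero (v : HeightOneSpectrum (𝓞 K)) :
    Tendsto (fun x : ℝ => NF.gv a δ v ((x : ℂ) + 1 / 2)) atTop (𝓝 0) := by
  unfold NF.gv
  have h1 : Tendsto (fun x : ℝ => a v * ((nm v : ℕ) : ℂ) ^ (-((x : ℂ) + 1 / 2))) atTop (𝓝 0) := by
    have h0 := nm_cpow_zero v (g := fun x => x + 1 / 2) (tendsto_atTop_add_const_right _ _ tendsto_id)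
    have h2 := (tendsto_zero_iff_norm_tendsto_zero.2 h0).const_mul (a v)
    rw [mul_zero] at h2
    refine h2.congr fun x => ?_
    push_cast
    rfl
  have h3 : Tendsto (fun x : ℝ => δ v * ((nm v : ℕ) : ℂ) ^ (-2 * ((x : ℂ) + 1 / 2))) atTop (𝓝 0) := by
    have h0 := nm_cpow_zero v (g := fun x => 2 * (x + 1 / 2))
      (Tendsto.const_mul_atTop (by norm_num) (tendsto_atTop_add_const_right _ _ tendsto_id))
    have h2 := (tendsto_zero_iff_norm_tendsto_zero.2 h0).const_mul (δ v)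
    rw [mul_zero] at h2
    refine h2.congr fun x => ?_
    congr 2
    push_cast
    ring
  simpa using h1.neg.add h3

theorem LG_zero (ha : ∀ v, ‖a v‖ ≤ nm v) (hδ : ∀ v, ‖δ v‖ ≤ nm v) :
    Tendsto (fun x : ℝ => NF.LG a δ ((x : ℂ) + 1 / 2)) atTop (𝓝 0) := by
  unfold NF.LG
  have h := tendsto_tsum_of_dominated_convergence (𝓕 := atTop)
    (f := fun (x : ℝ) (v : HeightOneSpectrum (𝓞 K)) => -log (1 + NF.gv a δ v ((x : ℂ) + 1 / 2)))
    (g := fun _ => (0 : ℂ)) (bound := fun v => 4 * (nm v : ℝ) ^ (-(5 / 4 : ℝ))) (NF.nm_sum.mul_left 4)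
    (fun v => ?_) ?_
  · simpa using h
  · have h1 : Tendsto (fun x : ℝ => 1 + NF.gv a δ v ((x : ℂ) + 1 / 2)) atTop (𝓝 1) := by
      simpa using (gv_zero v).const_add 1
    have h2 : Tendsto Complex.log (𝓝 1) (𝓝 0) := by
      have := (continuousAt_clog (x := (1 : ℂ)) one_mem_slitPlane).tendsto
      rwa [Complex.log_one] at this
    simpa using (h2.comp h1).neg
  · filter_upwards [eventually_ge_atTop (2 : ℝ)] with x hx v
    refine NF.term_le ha hδ v ?_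
    have : ((x : ℂ) + 1 / 2).re = x + 1 / 2 := by simp
    rw [this]
    linarith

theorem EL_one (ha : ∀ v, ‖a v‖ ≤ nm v) (hδ : ∀ v, ‖δ v‖ ≤ nm v) :
    Tendsto (fun x : ℝ => EL a δ ((x : ℂ) + 1 / 2)) atTop (𝓝 1) := by
  have h2 := (Complex.continuous_exp.tendsto 0).comp (LG_zero ha hδ)
  rw [Complex.exp_zero] at h2
  refine h2.congr' ?_
  filter_upwards [eventually_ge_atTop (2 : ℝ)] with x hx
  have : ((x : ℂ) + 1 / 2).re = x + 1 / 2 := by simp
  exact ((NF.prod_eq ha hδ (s := (x : ℂ) + 1 / 2) (by rw [this]; linarith)).tprod_eq).symm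

theorem EL_bdd (ha : ∀ v, ‖a v‖ ≤ nm v) (hδ : ∀ v, ‖δ v‖ ≤ nm v) {s : ℂ} (hs : 2 ≤ s.re) :
    ‖EL a δ (s + 1 / 2)‖ ≤ Real.exp (Module.finrank ℚ K * NF.B0) := by
  have e : (s + 1 / 2).re = s.re + 1 / 2 := by simp
  have hs' : 9 / 4 ≤ (s + 1 / 2).re := by rw [e]; linarith
  have h1 : EL a δ (s + 1 / 2) = cexp (NF.LG a δ (s + 1 / 2)) := (NF.prod_eq ha hδ hs').tprod_eq
  rw [h1, Complex.norm_exp]
  exact Real.exp_le_exp.2 ((Complex.re_le_norm _).trans (NF.LG_le ha hδ hs'))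

/-- the shifts -/
noncomputable def lK (n : ℕ) : List ℂ := List.replicate n (1 / 2) ++ List.replicate n (3 / 2)

theorem adm_kl (h : KL a δ A Λ) :
    ∃ w, Adm w (NX K A Λ) (Gfun A (lK (dg K)) 0 fun s => EL a δ (s + 1 / 2)) := by
  obtain ⟨ε, hε, hfe⟩ := NX_fe h
  have hA : 0 < A := by linarith [h.one_le]
  have hl : lK (dg K) ≠ [] := by
    have := dg_pos (K := K)
    unfold lK
    intro h0
    have h1 := (List.append_eq_nil_iff.1 h0).1
    rw [List.replicate_eq_nil_iff] at h1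
    omega
  refine ⟨ε, adm_of hε (NX_diff h) (fun s => ?_) (NX_order h) hA hl (r := 0)
    (Lf := fun s => EL a δ (s + 1 / 2)) ?_ (EL_one h.ha h.hδ) ⟨2, _, fun s hs => EL_bdd h.ha h.hδ hs⟩⟩
  · rw [hfe (1 - s), map_sub, map_one, sub_sub_cancel]
  · refine ⟨2, fun s hs => ?_⟩
    rw [NX_eq h (by linarith), gaf_mu]
    unfold Gfun lK
    rw [pow_zero, one_mul, List.map_append, List.prod_append]
    simp only [List.map_replicate, List.prod_replicate]
    rw [← mul_pow, show s + 3 / 2 = s + 1 / 2 + 1 by ring, Complex.Gammaℝ_mul_Gammaℝ_add_one, Complex.Gammaℂ_def]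

theorem kl_ne (h : KL a δ A Λ) {s : ℂ} (hs : 9 / 4 < s.re) : Λ s ≠ 0 := by
  rw [h.eq' hs]
  have hA : (A : ℂ) ≠ 0 := by
    have := h.one_le
    exact_mod_cast (by linarith : (0 : ℝ) < A).ne'
  have hpi : (2 * (Real.pi : ℂ)) ≠ 0 := by
    have := Real.pi_ne_zero
    simp [this]
  refine mul_ne_zero (mul_ne_zero ?_ (pow_ne_zero _ (mul_ne_zero ?_ ?_))) (EL_an h hs).2
  · rw [Complex.cpow_def_of_ne_zero hA]
    exact Complex.exp_ne_zero _
  · rw [Complex.cpow_def_of_ne_zero hpi]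
    exact Complex.exp_ne_zero _
  · exact Complex.Gamma_ne_zero_of_re_pos (by linarith)

theorem facts_kl (h : KL a δ A Λ) {σ b : ℝ} (hσ : 1 ≤ σ) (hb : σ < b) (hne : Λ b ≠ 0) :
    LiFacts (liC Λ σ b) (ZF Λ σ) (∀ t : ℝ, b ≤ t → Λ t ≠ 0) := by
  obtain ⟨w, hA⟩ := adm_kl h
  have hc0 : ((2 ^ dg K * A ^ (-(1 / 4 : ℝ)) : ℝ) : ℂ) ≠ 0 := by exact_mod_cast (cst_pos h).ne'
  have hX : ∀ z : ℂ, NX K A Λ z = ((2 ^ dg K * A ^ (-(1 / 4 : ℝ)) : ℝ) : ℂ) * Λ (z + ((1 / 2 : ℝ) : ℂ)) := by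
    intro z
    unfold NX
    push_cast
    rfl
  refine liFacts_shift hc0 hX (hA.facts (by linarith) (by linarith) ?_)
  rw [hX]
  refine mul_ne_zero hc0 ?_
  rw [show (((b - 1 / 2 : ℝ) : ℂ) + ((1 / 2 : ℝ) : ℂ)) = (b : ℂ) by push_cast; ring]
  exact hne

end

/-! ## Abelian fields -/

section
open Pool.Agent.W355.UN (prodE condA kap kap_ne facE eu2_of isNewf_of tw_raw fac_eq pk_ab coprime_cond)
open Pool.Agent.W169.HF (IsForm)

variable {N : ℕ} [NeZero N] {f : CuspForm (Gamma0 N : Subgroup (GL (Fin 2) ℝ)) 2} {w : ℝ}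
variable {M : ℕ} [NeZero M] (G : Subgroup (DirichletCharacter ℂ M)) [Fintype G]

/-- the L-function of `E` over `K`, normalised to `Re s = 1/2` -/
theorem adm_ab (hf : IsForm N f w) (hco : Nat.Coprime M N) :
    ∃ (w' : ℂ) (X : ℂ → ℂ), Adm w' X (fun s => kap G N * prodE G f (s + 1 / 2)) ∧
      ∀ s : ℂ, 1 < s.re → X s ≠ 0 := by
  have hE := eu2_of hf
  have hnf := isNewf_of hf
  have hone : ∀ χ : G, ∃ (w' : ℂ) (X : ℂ → ℂ), Adm w' X
      (fun s => (2 * ((Real.sqrt N * ((χ : DirichletCharacter ℂ M).conductor : ℝ) : ℝ) : ℂ) ^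
        (-(1 / 2) : ℂ)) * facE f (χ : DirichletCharacter ℂ M).primitiveCharacter (s + 1 / 2)) := by
    intro χ
    haveI : NeZero (χ : DirichletCharacter ℂ M).conductor := ⟨DirichletCharacter.conductor_ne_zero _⟩
    obtain ⟨c, X, h⟩ := tw_raw f hE hnf (χ : DirichletCharacter ℂ M).primitiveCharacter
      (DirichletCharacter.primitiveCharacter_isPrimitive _) (coprime_cond hco _)
    obtain ⟨w', hA⟩ := adm_raw h
    refine ⟨w', X, hA.congr ⟨2, fun s hs => ?_⟩⟩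
    exact fac_eq hE (Nat.pos_of_ne_zero (NeZero.ne _)) _ (by linarith)
  have hl : (Finset.univ : Finset G).toList ≠ [] := by
    intro h
    have h1 : (1 : G) ∈ (Finset.univ : Finset G).toList := Finset.mem_toList.2 (Finset.mem_univ _)
    rw [h] at h1
    exact List.not_mem_nil h1
  obtain ⟨w', X, h⟩ := adm_list _ hone (Finset.univ : Finset G).toList hl
  simp only [Finset.prod_map_toList] at h
  have h2 : Adm w' X (fun s => kap G N * prodE G f (s + 1 / 2)) := by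
    refine h.congr ⟨0, fun s _ => ?_⟩
    unfold kap prodE
    rw [Finset.prod_mul_distrib]
  refine ⟨w', X, h2, ?_⟩
  obtain ⟨X', hpk⟩ := pk_ab G hf hco
  have hd := hpk.diff
  obtain ⟨μ, L, u, -, hσ⟩ := hpk
  have e : X' = X := ent_uniq h2.diff hd h2.eq hσ
  intro s hs
  rw [← e]
  exact u.Xne (by rw [add_zero]; exact hs)

/-- the L-function of `E` over `K` -/
theorem facts_ab (hf : IsForm N f w) (hco : Nat.Coprime M N) :
    ∃ Λ : ℂ → ℂ, Differentiable ℂ Λ ∧ (∃ σ : ℝ, ∀ s : ℂ, σ ≤ s.re → Λ s = prodE G f s) ∧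
      (∀ s : ℂ, 3 / 2 < s.re → Λ s ≠ 0) ∧
      (ZF Λ 1 ↔ ∀ s : ℂ, Λ s = 0 → s.re = 1) ∧
      ∀ σ b : ℝ, 1 ≤ σ → σ < b → Λ b ≠ 0 →
        LiFacts (liC Λ σ b) (ZF Λ σ) (∀ t : ℝ, b ≤ t → Λ t ≠ 0) := by
  obtain ⟨w', X, hA, hne⟩ := adm_ab G hf hco
  have hNpos : 0 < N := Nat.pos_of_ne_zero (NeZero.ne N)
  have hκ := kap_ne G hNpos
  have hre : ∀ s : ℂ, (s - 1 / 2).re = s.re - 1 / 2 := fun s => by simp
  obtain ⟨σ0, hσ0⟩ := hA.eq
  have hX : ∀ z : ℂ, X z = kap G N * (fun s => (kap G N)⁻¹ * X (s - 1 / 2)) (z + ((1 / 2 : ℝ) : ℂ)) := by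
    intro z
    beta_reduce
    rw [mul_inv_cancel_left₀ hκ]
    congr 1
    push_cast
    ring
  refine ⟨fun s => (kap G N)⁻¹ * X (s - 1 / 2), ?_, ⟨σ0 + 1 / 2, fun s hs => ?_⟩, fun s hs => ?_, ?_,
    fun σ b hσ hb hn => ?_⟩
  · exact (hA.diff.comp (by fun_prop : Differentiable ℂ fun s : ℂ => s - 1 / 2)).const_mul _
  · beta_reduce
    rw [hσ0 (s - 1 / 2) (by rw [hre]; linarith), sub_add_cancel, inv_mul_cancel_left₀ hκ]
  · exact mul_ne_zero (inv_ne_zero hκ) (hne _ (by rw [hre]; linarith))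
  · refine zf_line' fun s hs => ?_
    beta_reduce at hs ⊢
    have h1 : X (s - 1 / 2) = 0 := (mul_eq_zero.1 hs).resolve_left (inv_ne_zero hκ)
    have h2 := hA.fe (conj (s - 1 / 2))
    rw [Complex.conj_conj, h1, map_zero, mul_zero] at h2
    have e : conj (2 * ((1 : ℝ) : ℂ) - s) - 1 / 2 = 1 - conj (s - 1 / 2) := by
      simp only [map_sub, map_mul, map_div₀, map_ofNat, map_one, Complex.conj_ofReal]
      push_cast
      ring
    rw [e, h2, mul_zero]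
  · refine liFacts_shift hκ hX (hA.facts (by linarith) (by linarith) ?_)
    rw [hX]
    refine mul_ne_zero hκ ?_
    rw [show (((b - 1 / 2 : ℝ) : ℂ) + ((1 / 2 : ℝ) : ℂ)) = (b : ℂ) by push_cast; ring]
    exact hn

omit [NeZero M] [Fintype G] in
/-- the L-function of `E` over `ℚ` -/
theorem facts_ec (hf : IsForm N f w) {Λ : ℂ → ℂ} (h1 : Differentiable ℂ Λ)
    (h2 : ∀ s : ℂ, 2 < s.re → Λ s = ((Real.sqrt N / (2 * Real.pi) : ℝ) : ℂ) ^ s * Complex.Gamma s *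
      ∑' n : ℕ, Pool.Agent.W169.HF.coef f (n + 1) * ((n + 1 : ℕ) : ℂ) ^ (-s)) :
    (∀ s : ℂ, 3 / 2 < s.re → Λ s ≠ 0) ∧
      ∀ σ b : ℝ, 1 ≤ σ → σ < b → Λ b ≠ 0 →
        LiFacts (liC Λ σ b) (ZF Λ σ) (∀ t : ℝ, b ≤ t → Λ t ≠ 0) := by
  have hE := eu2_of hf
  have hnf := isNewf_of hf
  obtain ⟨c, X, h⟩ := tw_raw f hE hnf (1 : DirichletCharacter ℂ 1) DirichletCharacter.isPrimitive_one_level_one
    (Nat.coprime_one_left N)
  obtain ⟨w', hA⟩ := adm_raw h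
  have hpk := Pool.Agent.W355.UN.pk_raw h
  have hNpos : (0 : ℝ) < N := by exact_mod_cast Nat.pos_of_ne_zero (NeZero.ne N)
  obtain ⟨κ, hκd⟩ : ∃ κ : ℂ, κ = 2 * ((Real.sqrt N * ((1 : ℕ) : ℝ) : ℝ) : ℂ) ^ (-(1 / 2) : ℂ) := ⟨_, rfl⟩
  have hκ : κ ≠ 0 := by
    rw [hκd]
    refine mul_ne_zero two_ne_zero ?_
    have hR : 0 < Real.sqrt N * ((1 : ℕ) : ℝ) := by
      have := Real.sqrt_pos.2 hNpos
      simpa using this
    rw [Ne, Complex.cpow_eq_zero_iff]
    exact fun h => hR.ne' (by exact_mod_cast h.1)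
  have hfe : ∀ s : ℂ, 2 < s.re → facE f (1 : DirichletCharacter ℂ 1) s = Λ s := by
    intro s hs
    rw [h2 s hs]
    unfold facE
    have e : ∀ n : ℕ, (1 : DirichletCharacter ℂ 1) ((n + 1 : ℕ) : ZMod 1) = 1 := by
      intro n
      exact MulChar.one_apply (isUnit_of_subsingleton _)
    simp only [e, mul_one, Nat.cast_one]
  have hX : ∀ z : ℂ, X z = κ * Λ (z + ((1 / 2 : ℝ) : ℂ)) := by
    have hd2 : Differentiable ℂ fun z : ℂ => κ * Λ (z + ((1 / 2 : ℝ) : ℂ)) :=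
      (h1.comp (by fun_prop)).const_mul _
    have e := ent_uniq hA.diff hd2 hA.eq ⟨2, fun s hs => ?_⟩
    · intro z
      exact (congrFun e z).symm
    · rw [fac_eq hE one_pos (1 : DirichletCharacter ℂ 1) (by linarith), ← hκd, hfe _ (by
        have : (s + 1 / 2).re = s.re + 1 / 2 := by simp
        rw [this]
        linarith)]
      push_cast
      rfl
  have hne : ∀ s : ℂ, 1 < s.re → X s ≠ 0 := by
    obtain ⟨μ, L, u, -, -⟩ := hpk
    intro s hs
    exact u.Xne (by rw [add_zero]; exact hs)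
  refine ⟨fun s hs h0 => ?_, fun σ b hσ hb hn => ?_⟩
  · refine hne (s - ((1 / 2 : ℝ) : ℂ)) ?_ ?_
    · rw [Complex.sub_re, Complex.ofReal_re]
      linarith
    · rw [hX, sub_add_cancel, h0, mul_zero]
  · refine liFacts_shift hκ hX (hA.facts (by linarith) (by linarith) ?_)
    rw [hX]
    refine mul_ne_zero hκ ?_
    rw [show (((b - 1 / 2 : ℝ) : ℂ) + ((1 / 2 : ℝ) : ℂ)) = (b : ℂ) by push_cast; ring]
    exact hn

end

end Run7.h278.LI
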