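import Pool.Agent.Run7.h278.LI.Zeta

set_option autoImplicit false

/-!
# Positivity of the Li coefficients under RH
-/

namespace Run7.h278.LI

open Complex Filter Topology Metric Pool.Agent.H24R2.JP Polynomial

/-- sequences with real nonnegative terms, `c 0 ≤ 2 (c n + c (n + 1))`, `c n ≤ (n + 1)² c 0` -/
def PosSeq (c : ℕ → ℂ) : Prop := (∀ n, (c n).im = 0) ∧ (∀ n, 0 ≤ (c n).re) ∧
  (∀ n, (c 0).re ≤ 2 * ((c n).re + (c (n + 1)).re)) ∧ ∀ n : ℕ, (c n).re ≤ ((n : ℝ) + 1) ^ 2 * (c 0).re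

theorem PosSeq.zero : PosSeq (fun _ => 0) := by
  refine ⟨?_, ?_, ?_, ?_⟩ <;> intro n <;> simp

theorem PosSeq.add {c d : ℕ → ℂ} (hc : PosSeq c) (hd : PosSeq d) : PosSeq (fun n => c n + d n) := by
  obtain ⟨h1, h2, h3, h4⟩ := hc
  obtain ⟨k1, k2, k3, k4⟩ := hd
  refine ⟨fun n => ?_, fun n => ?_, fun n => ?_, fun n => ?_⟩ <;>
    simp only [Complex.add_re, Complex.add_im]
  · rw [h1, k1, add_zero]
  · exact add_nonneg (h2 n) (k2 n)
  · linarith [h3 n, k3 n]
  · rw [mul_add]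
    exact add_le_add (h4 n) (k4 n)

theorem PosSeq.lim {c : ℕ → ℕ → ℂ} {d : ℕ → ℂ} (hc : ∀ N, PosSeq (c N))
    (h : ∀ n, Tendsto (fun N => c N n) atTop (𝓝 (d n))) : PosSeq d := by
  have hre : ∀ n, Tendsto (fun N => (c N n).re) atTop (𝓝 (d n).re) := fun n =>
    (Complex.continuous_re.tendsto _).comp (h n)
  have him : ∀ n, Tendsto (fun N => (c N n).im) atTop (𝓝 (d n).im) := fun n =>
    (Complex.continuous_im.tendsto _).comp (h n)
  refine ⟨fun n => ?_, fun n => ?_, fun n => ?_, fun n => ?_⟩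
  · refine tendsto_nhds_unique (him n) ?_
    have : (fun N => (c N n).im) = fun _ => 0 := by
      ext N
      exact (hc N).1 n
    rw [this]
    exact tendsto_const_nhds
  · exact ge_of_tendsto' (hre n) fun N => (hc N).2.1 n
  · exact le_of_tendsto_of_tendsto' (hre 0) (((hre n).add (hre (n + 1))).const_mul 2) fun N => (hc N).2.2.1 n
  · exact le_of_tendsto_of_tendsto' (hre n) ((hre 0).const_mul _) fun N => (hc N).2.2.2 n

theorem PosSeq.unit {a : ℂ} (ha : ‖a‖ = 1) : PosSeq (fun n => ((‖a ^ (n + 1) - 1‖ ^ 2 : ℝ) : ℂ)) := by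
  refine ⟨fun n => Complex.ofReal_im _, fun n => ?_, fun n => ?_, fun n => ?_⟩ <;>
    simp only [Complex.ofReal_re]
  · positivity
  · have h1 : ‖a ^ (0 + 1) - 1‖ ≤ ‖a ^ (n + 1 + 1) - 1‖ + ‖a ^ (n + 1) - 1‖ := by
      have h2 : (a ^ (0 + 1) - 1) * a ^ (n + 1) = (a ^ (n + 1 + 1) - 1) - (a ^ (n + 1) - 1) := by ring
      have h3 : ‖(a ^ (0 + 1) - 1) * a ^ (n + 1)‖ = ‖a ^ (0 + 1) - 1‖ := by
        rw [norm_mul, norm_pow, ha, one_pow, mul_one]
      rw [← h3, h2]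
      exact norm_sub_le _ _
    have h4 : ‖a ^ (0 + 1) - 1‖ ^ 2 ≤ (‖a ^ (n + 1 + 1) - 1‖ + ‖a ^ (n + 1) - 1‖) ^ 2 := by gcongr
    nlinarith [sq_nonneg (‖a ^ (n + 1 + 1) - 1‖ - ‖a ^ (n + 1) - 1‖)]
  · have h1 : ‖a ^ (n + 1) - 1‖ ≤ ((n : ℝ) + 1) * ‖a ^ (0 + 1) - 1‖ := by
      induction n with
      | zero => simp
      | succ n ih =>
        have h2 : a ^ (n + 1 + 1) - 1 = a * (a ^ (n + 1) - 1) + (a ^ (0 + 1) - 1) := by ring
        rw [h2]
        refine (norm_add_le _ _).trans ?_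
        rw [norm_mul, ha, one_mul]
        push_cast
        linarith
    calc ‖a ^ (n + 1) - 1‖ ^ 2 ≤ (((n : ℝ) + 1) * ‖a ^ (0 + 1) - 1‖) ^ 2 := by gcongr
      _ = _ := by rw [mul_pow]

/-- the Koebe function minus a real number `≤ -1/4` -/
theorem koebe_cf {y : ℝ} (hy : y ≤ -(1 / 4)) : ∃ a : ℂ, ‖a‖ = 1 ∧
    ∀ n : ℕ, cf (fun z => z / (1 - z) ^ 2 - y) n = ((‖a ^ (n + 1) - 1‖ ^ 2 : ℝ) : ℂ) := by
  set t : ℝ := 1 + 1 / (2 * y) with ht
  have hy0 : y < 0 := by linarith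
  have ht1 : t ≤ 1 := by
    have : 1 / (2 * y) ≤ 0 := by
      apply div_nonpos_of_nonneg_of_nonpos zero_le_one
      linarith
    linarith
  have ht2 : -1 ≤ t := by
    have : -2 ≤ 1 / (2 * y) := by
      rw [le_div_iff_of_neg (by linarith)]
      linarith
    linarith
  have ht3 : 0 ≤ 1 - t ^ 2 := by nlinarith
  set a : ℂ := ⟨t, Real.sqrt (1 - t ^ 2)⟩ with ha
  have hna : normSq a = 1 := by
    rw [Complex.normSq_apply, ha]
    simp only
    nlinarith [Real.mul_self_sqrt ht3]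
  have hn : ‖a‖ = 1 := by
    have := Complex.normSq_eq_norm_sq a
    rw [hna] at this
    nlinarith [norm_nonneg a]
  have haa : a * (starRingEnd ℂ) a = 1 := by
    rw [Complex.mul_conj, hna]
    simp
  have ha0 : a ≠ 0 := by
    intro h0
    rw [h0] at hn
    simp at hn
  have hsum : a + (starRingEnd ℂ) a = 2 * t := by
    rw [Complex.add_conj, ha]
    push_cast
    rfl
  have hyc : (y : ℂ) ≠ 0 := by exact_mod_cast hy0.ne
  have htc : (t : ℂ) = 1 + 1 / (2 * y) := by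
    rw [ht]
    push_cast
    ring
  refine ⟨a, hn, fun n => ?_⟩
  have hc0 : (starRingEnd ℂ) a ≠ 0 := (_root_.map_ne_zero _).2 ha0
  have A1 : AnalyticAt ℂ (fun z : ℂ => z / (1 - z) ^ 2 - y) 0 := by
    refine AnalyticAt.sub (AnalyticAt.div (by fun_prop) (by fun_prop) ?_) analyticAt_const
    norm_num
  have N1 : (fun z : ℂ => z / (1 - z) ^ 2 - y) 0 ≠ 0 := by simpa using hyc
  have A2 : ∀ b : ℂ, AnalyticAt ℂ (fun z : ℂ => z - b) 0 := fun b => by fun_prop
  have N2 : ∀ b : ℂ, b ≠ 0 → (fun z : ℂ => z - b) 0 ≠ 0 := fun b hb => by simpa using hb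
  have key : (fun z : ℂ => (z / (1 - z) ^ 2 - y) * ((z - 1) * (z - 1))) =ᶠ[𝓝 0]
      fun z => (-(y : ℂ)) * ((z - a) * (z - (starRingEnd ℂ) a)) := by
    have h1 : ∀ᶠ z : ℂ in 𝓝 0, z ∈ ball (0 : ℂ) 1 := isOpen_ball.mem_nhds (mem_ball_self one_pos)
    filter_upwards [h1] with z hz
    have h2 := one_sub_ne hz
    have e1 : (z - a) * (z - (starRingEnd ℂ) a) = z ^ 2 - 2 * t * z + 1 := by
      linear_combination (-z) * hsum + haa
    rw [e1, htc]
    field_simp
    ring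
  have e2 := cf_congr key n
  have A3 : ∀ b c : ℂ, AnalyticAt ℂ (fun z : ℂ => (z - b) * (z - c)) 0 := fun b c => by fun_prop
  have N3 : ∀ b c : ℂ, b ≠ 0 → c ≠ 0 → (fun z : ℂ => (z - b) * (z - c)) 0 ≠ 0 := fun b c hb hc => by
    simpa using ⟨hb, hc⟩
  have C3 : ∀ b c : ℂ, b ≠ 0 → c ≠ 0 → cf (fun z : ℂ => (z - b) * (z - c)) n =
      -(b⁻¹) ^ (n + 1) + -(c⁻¹) ^ (n + 1) := fun b c hb hc => by
    rw [cf_mul (A2 b) (A2 c) (N2 b hb) (N2 c hc), cf_lin, cf_lin]
  rw [cf_const_mul (A3 _ _) (N3 _ _ ha0 hc0) (neg_ne_zero.2 hyc),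
    cf_mul A1 (A3 1 1) N1 (N3 1 1 one_ne_zero one_ne_zero), C3 _ _ ha0 hc0,
    C3 _ _ one_ne_zero one_ne_zero] at e2
  have e3 : a⁻¹ = (starRingEnd ℂ) a := inv_eq_of_mul_eq_one_right haa
  have e4 : ((starRingEnd ℂ) a)⁻¹ = a := by
    rw [← e3, inv_inv]
  rw [e3, e4, inv_one, one_pow] at e2
  have e5 : ((‖a ^ (n + 1) - 1‖ ^ 2 : ℝ) : ℂ) = 2 - a ^ (n + 1) - ((starRingEnd ℂ) a) ^ (n + 1) := by
    rw [← Complex.normSq_eq_norm_sq, ← Complex.mul_conj, map_sub, map_one, map_pow]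
    have : a ^ (n + 1) * (starRingEnd ℂ) a ^ (n + 1) = 1 := by
      rw [← mul_pow, haa, one_pow]
    linear_combination this
  rw [e5]
  linear_combination e2

theorem prod_posSeq (Y : Multiset ℝ) (hY : ∀ y ∈ Y, y ≤ -(1 / 4)) {c : ℂ} (hc : c ≠ 0) :
    PosSeq (fun n => cf (fun z => c * (Y.map (fun y : ℝ => z / (1 - z) ^ 2 - (y : ℂ))).prod) n) ∧
    AnalyticAt ℂ (fun z : ℂ => c * (Y.map (fun y : ℝ => z / (1 - z) ^ 2 - (y : ℂ))).prod) 0 ∧
    (fun z : ℂ => c * (Y.map (fun y : ℝ => z / (1 - z) ^ 2 - (y : ℂ))).prod) 0 ≠ 0 := by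
  induction Y using Multiset.induction_on with
  | empty =>
    refine ⟨?_, by simpa using analyticAt_const, by simpa using hc⟩
    have : (fun n => cf (fun z : ℂ => c * (Multiset.map (fun y : ℝ => z / (1 - z) ^ 2 - (y : ℂ)) 0).prod) n) =
        fun _ => 0 := by
      ext n
      simp only [Multiset.map_zero, Multiset.prod_zero, mul_one]
      exact cf_const c n
    rw [this]
    exact PosSeq.zero
  | cons y Y ih =>
    obtain ⟨k1, k2, k3⟩ := ih fun x hx => hY x (Multiset.mem_cons_of_mem hx)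
    have hy := hY y (Multiset.mem_cons_self y Y)
    obtain ⟨a, ha, hcf⟩ := koebe_cf hy
    have e : (fun z : ℂ => c * ((y ::ₘ Y).map (fun y : ℝ => z / (1 - z) ^ 2 - (y : ℂ))).prod) =
        fun z => (z / (1 - z) ^ 2 - (y : ℂ)) * (c * (Y.map (fun y : ℝ => z / (1 - z) ^ 2 - (y : ℂ))).prod) := by
      ext z
      rw [Multiset.map_cons, Multiset.prod_cons]
      ring
    have A1 : AnalyticAt ℂ (fun z : ℂ => z / (1 - z) ^ 2 - y) 0 := by
      refine AnalyticAt.sub (AnalyticAt.div (by fun_prop) (by fun_prop) ?_) analyticAt_const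
      norm_num
    have hyc : (y : ℂ) ≠ 0 := by
      have : y ≠ 0 := by linarith
      exact_mod_cast this
    have N1 : (fun z : ℂ => z / (1 - z) ^ 2 - y) 0 ≠ 0 := by simpa using hyc
    rw [e]
    refine ⟨?_, A1.mul k2, mul_ne_zero N1 k3⟩
    have h1 : (fun n => cf (fun z : ℂ => (z / (1 - z) ^ 2 - (y : ℂ)) *
        (c * (Y.map (fun y : ℝ => z / (1 - z) ^ 2 - (y : ℂ))).prod)) n) =
        fun n => ((‖a ^ (n + 1) - 1‖ ^ 2 : ℝ) : ℂ) +
          cf (fun z => c * (Y.map (fun y : ℝ => z / (1 - z) ^ 2 - (y : ℂ))).prod) n := by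
      ext n
      rw [cf_mul A1 k2 N1 k3, hcf n]
    rw [h1]
    exact (PosSeq.unit ha).add k1

/-- the shifted function -/
noncomputable def Fs (x : ℂ) : ℂ := FF (x + 1 / 4)

theorem Fs_zero : Fs 0 = 4 := by
  unfold Fs
  rw [zero_add, show (1 / 4 : ℂ) = (1 / 2) ^ 2 by norm_num, b1.2.1, Zer.XX_half]

theorem Fs_diff : Differentiable ℂ Fs := b1.1.comp (by fun_prop)

theorem Fs_conj (x : ℂ) : Fs ((starRingEnd ℂ) x) = (starRingEnd ℂ) (Fs x) := by
  unfold Fs
  rw [← b1.2.2.1, map_add]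
  congr 2
  rw [map_div₀, map_one, B1h.c4]

theorem Fs_grow : ∃ K : ℝ, ∀ x, ‖Fs x‖ ≤ Real.exp (K * (1 + ‖x‖) ^ (3 / 4 : ℝ)) := by
  obtain ⟨K, hK⟩ := grow b1
  refine ⟨|K| * 2 ^ (3 / 4 : ℝ), fun x => ?_⟩
  unfold Fs
  refine (hK _).trans (Real.exp_le_exp.2 ?_)
  have h1 : 1 + ‖x + 1 / 4‖ ≤ 2 * (1 + ‖x‖) := by
    have := norm_add_le x (1 / 4)
    have h2 : ‖(1 / 4 : ℂ)‖ = 1 / 4 := by simp
    rw [h2] at this
    linarith [norm_nonneg x]
  calc K * (1 + ‖x + 1 / 4‖) ^ (3 / 4 : ℝ) ≤ |K| * (1 + ‖x + 1 / 4‖) ^ (3 / 4 : ℝ) := by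
        gcongr
        exact le_abs_self K
    _ ≤ |K| * (2 * (1 + ‖x‖)) ^ (3 / 4 : ℝ) := by
        gcongr
    _ = |K| * 2 ^ (3 / 4 : ℝ) * (1 + ‖x‖) ^ (3 / 4 : ℝ) := by
        rw [Real.mul_rpow (by norm_num) (by positivity)]
        ring

theorem phi_Fs {z : ℂ} (hz : z ∈ ball (0 : ℂ) 1) : phi z = 1 / 8 * Fs (z / (1 - z) ^ 2) := by
  have h := one_sub_ne hz
  unfold phi Fs
  rw [xi_XX, show z / (1 - z) ^ 2 + 1 / 4 = (1 / (1 - z) - 1 / 2) ^ 2 by field_simp; ring, b1.2.1]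
  ring

/-- the zeros of `Fs` under RH -/
theorem Fs_zeros (hRH : RiemannHypothesis) {x : ℂ} (hx : Fs x = 0) : ∃ y : ℝ, y ≤ -(1 / 4) ∧ x = y := by
  unfold Fs at hx
  obtain ⟨z, hz⟩ := IsAlgClosed.exists_pow_nat_eq (x + 1 / 4) (n := 2) (by norm_num)
  have him := RHa.real_zeros b1 hRH _ hx
  rw [← hz, b1.2.1 z] at hx
  obtain ⟨h1, h2, h3⟩ := Zer.completed_zero z hx
  have h4 : riemannZeta (1 / 2 + z) = 0 := by
    rw [riemannZeta_def_of_ne_zero h1, h3, zero_div]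
  have h5 : ¬∃ n : ℕ, (1 / 2 + z : ℂ) = -2 * (n + 1) := by
    rintro ⟨n, hn⟩
    refine Zer.completed_ne_zero (1 - (1 / 2 + z)) ?_ ?_
    · rw [hn]
      have : (1 - -2 * ((n : ℂ) + 1)) = ((3 + 2 * n : ℝ) : ℂ) := by
        push_cast
        ring
      rw [this, Complex.ofReal_re]
      have : (0 : ℝ) ≤ n := Nat.cast_nonneg n
      linarith
    · rw [completedRiemannZeta_one_sub]
      exact h3
  have h6 : (1 / 2 + z : ℂ) ≠ 1 := by
    intro h0
    apply h2
    rw [h0]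
    ring
  have h7 := hRH (1 / 2 + z) h4 h5 h6
  have h8 : z.re = 0 := by
    have : (1 / 2 + z : ℂ).re = 1 / 2 + z.re := by
      simp
    rw [this] at h7
    linarith
  refine ⟨-z.im ^ 2 - 1 / 4, by nlinarith [sq_nonneg z.im], ?_⟩
  have h9 : x = z ^ 2 - 1 / 4 := by linear_combination -hz
  have h10 : z = z.im * I := by
    apply Complex.ext <;> simp [h8]
  rw [h9]
  conv_lhs => rw [h10]
  rw [mul_pow, Complex.I_sq]
  push_cast
  ring

theorem koebe_diff : DifferentiableOn ℂ (fun z : ℂ => z / (1 - z) ^ 2) (ball 0 1) := by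
  refine DifferentiableOn.div (by fun_prop) (by fun_prop) fun z hz => pow_ne_zero 2 (one_sub_ne hz)

theorem Fs_koebe_ne (hRH : RiemannHypothesis) {z : ℂ} (hz : z ∈ ball (0 : ℂ) 1) :
    Fs (z / (1 - z) ^ 2) ≠ 0 := by
  intro h0
  obtain ⟨y, hy, hxy⟩ := Fs_zeros hRH h0
  -- `k z = y ≤ -1/4` forces `|z| = 1`
  have h2 := one_sub_ne hz
  have h3 : z = y * (1 - z) ^ 2 := by
    rw [div_eq_iff (pow_ne_zero 2 h2)] at hxy
    exact hxy
  have hphi : phi z = 0 := by
    rw [phi_Fs hz]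
    rw [h0, mul_zero]
  -- a zero of `ξ` with real part `> 1/2`
  have h4 : XX (1 / (1 - z) - 1 / 2) = 0 := by
    unfold phi at hphi
    rw [xi_XX] at hphi
    rcases div_eq_zero_iff.1 hphi with h5 | h5
    · exact h5
    · norm_num at h5
  have h6 : (1 / (1 - z) - 1 / 2 : ℂ) ^ 2 = ((y + 1 / 4 : ℝ) : ℂ) := by
    have : (1 / (1 - z) - 1 / 2 : ℂ) ^ 2 = z / (1 - z) ^ 2 + 1 / 4 := by
      field_simp
      ring
    rw [this, hxy]
    push_cast
    ring
  -- its square is a nonpositive real so the real part is zero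
  set w : ℂ := 1 / (1 - z) - 1 / 2 with hw
  have h7 : w.re = 0 := by
    have e1 := congrArg Complex.re h6
    have e2 := congrArg Complex.im h6
    rw [pow_two, Complex.mul_re, Complex.ofReal_re] at e1
    rw [pow_two, Complex.mul_im, Complex.ofReal_im] at e2
    by_contra hne
    have e3 : w.im = 0 := by
      have : 2 * w.re * w.im = 0 := by linarith
      rcases mul_eq_zero.1 this with h | h
      · exfalso
        exact hne (by linarith)
      · exact h
    rw [e3] at e1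
    have : 0 < w.re * w.re := mul_self_pos.2 hne
    linarith
  have h8 : 0 < w.re := by
    have e1 : w = (1 + z) / (2 * (1 - z)) := by
      rw [hw]
      field_simp
      ring
    have e2 : w = ((1 + z) * (starRingEnd ℂ) (1 - z)) * (((2 * normSq (1 - z))⁻¹ : ℝ) : ℂ) := by
      have h9 : (starRingEnd ℂ) (1 - z) ≠ 0 := (_root_.map_ne_zero _).2 h2
      rw [e1]
      push_cast
      rw [← Complex.mul_conj]
      field_simp
    rw [e2, Complex.re_mul_ofReal]
    have h10 : 0 < normSq (1 - z) := Complex.normSq_pos.2 h2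
    have h11 : ((1 + z) * (starRingEnd ℂ) (1 - z)).re = 1 - normSq z := by
      rw [map_sub, map_one, Complex.mul_re, Complex.normSq_apply]
      simp
      ring
    rw [h11]
    have h12 : normSq z < 1 := by
      rw [Complex.normSq_eq_norm_sq]
      rw [mem_ball_zero_iff] at hz
      nlinarith [norm_nonneg z]
    have : 0 < 1 - normSq z := by linarith
    positivity
  linarith

theorem li_pos_seq (hRH : RiemannHypothesis) : PosSeq (fun n => cf phi n) := by
  obtain ⟨K, hK⟩ := Fs_grow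
  have hF0 : Fs 0 ≠ 0 := by
    rw [Fs_zero]
    norm_num
  obtain ⟨P, hP, hlim⟩ := had Fs K Fs_diff hF0 Fs_conj hK
  set k : ℂ → ℂ := fun z => z / (1 - z) ^ 2 with hk
  have hl : TendstoLocallyUniformlyOn (fun (N : ℕ) (x : ℂ) => aeval x (P N)) Fs atTop Set.univ :=
    tendstoLocallyUniformlyOn_univ.2 hlim
  have h1 : TendstoLocallyUniformlyOn (fun (N : ℕ) (z : ℂ) => aeval (k z) (P N)) (fun z => Fs (k z)) atTop
      (ball 0 1) := hl.comp k (fun z _ => Set.mem_univ _) koebe_diff.continuousOn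
  have hne : ∀ z ∈ ball (0 : ℂ) 1, Fs (k z) ≠ 0 := fun z hz => Fs_koebe_ne hRH hz
  have hneP : ∀ N, ∀ z ∈ ball (0 : ℂ) 1, (aeval (k z) (P N) : ℂ) ≠ 0 := fun N z hz h0 => hne z hz (hP N _ h0)
  have hdP : ∀ N, DifferentiableOn ℂ (fun z => (aeval (k z) (P N) : ℂ)) (ball 0 1) := by
    intro N
    have : Differentiable ℂ (fun x : ℂ => (aeval x (P N) : ℂ)) := (P N).differentiable_aeval
    exact this.comp_differentiableOn koebe_diff
  have h2 : ∀ n, Tendsto (fun N => cf (fun z => (aeval (k z) (P N) : ℂ)) n) atTop (𝓝 (cf (fun z => Fs (k z)) n)) :=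
    fun n => cf_tendsto isOpen_ball (mem_ball_self one_pos) h1 hdP hne hneP n
  have h3 : ∀ n, cf phi n = cf (fun z => Fs (k z)) n := by
    intro n
    have e1 : phi =ᶠ[𝓝 0] fun z => 1 / 8 * Fs (k z) := by
      filter_upwards [isOpen_ball.mem_nhds (mem_ball_self (x := (0 : ℂ)) one_pos)] with z hz
      exact phi_Fs hz
    rw [cf_congr e1, cf_const_mul _ _ (by norm_num)]
    · exact (Fs_diff.comp_differentiableOn koebe_diff).analyticAt (isOpen_ball.mem_nhds (mem_ball_self one_pos))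
    · exact hne 0 (mem_ball_self one_pos)
  have h4 : (fun n => cf phi n) = fun n => cf (fun z => Fs (k z)) n := funext h3
  rw [h4]
  refine PosSeq.lim (fun N => ?_) h2
  -- factorisation of the polynomial
  set Q : ℂ[X] := (P N).map (algebraMap ℝ ℂ) with hQ
  have hQe : ∀ x : ℂ, (aeval x (P N) : ℂ) = Q.eval x := by
    intro x
    rw [hQ, eval_map_algebraMap]
  have hQ0 : Q ≠ 0 := by
    intro h0
    refine hneP N 0 (mem_ball_self one_pos) ?_
    rw [hQe, h0, eval_zero]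
  have hsplit : Q = Polynomial.C Q.leadingCoeff * (Q.roots.map (fun a => X - Polynomial.C a)).prod :=
    (IsAlgClosed.splits Q).eq_prod_roots
  have hroots : ∀ x ∈ Q.roots, x.im = 0 ∧ x.re ≤ -(1 / 4) := by
    intro x hx
    rw [mem_roots hQ0, IsRoot.def, ← hQe] at hx
    obtain ⟨y, hy, hxy⟩ := Fs_zeros hRH (hP N x hx)
    rw [hxy]
    exact ⟨Complex.ofReal_im _, by rwa [Complex.ofReal_re]⟩
  have hmain := (prod_posSeq (Q.roots.map Complex.re) (by
    intro y hy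
    rw [Multiset.mem_map] at hy
    obtain ⟨x, hx, rfl⟩ := hy
    exact (hroots x hx).2) (leadingCoeff_ne_zero.2 hQ0)).1
  have hfun : (fun z => (aeval (k z) (P N) : ℂ)) = fun z => Q.leadingCoeff *
      ((Q.roots.map Complex.re).map (fun y : ℝ => z / (1 - z) ^ 2 - (y : ℂ))).prod := by
    ext z
    rw [hQe]
    conv_lhs => rw [hsplit]
    rw [eval_mul, eval_C, eval_multiset_prod, Multiset.map_map, Multiset.map_map]
    congr 2
    refine Multiset.map_congr rfl fun x hx => ?_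
    simp only [Function.comp_apply, eval_sub, eval_X, eval_C]
    rw [show x = ((x.re : ℝ) : ℂ) from Complex.ext (by simp) (by simp [(hroots x hx).1])]
    simp [hk]
  rw [hfun]
  exact hmain

theorem li_one_pos (hRH : RiemannHypothesis) : 0 < li 1 := by
  obtain ⟨h1, h2, h3, h4⟩ := li_pos_seq hRH
  have h5 : li 1 = (cf phi 0).re := li_cf 0
  rw [h5]
  refine lt_of_le_of_ne (h2 0) fun h6 => ?_
  have h7 : ∀ n, cf phi n = 0 := by
    intro n
    refine Complex.ext ?_ (h1 n)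
    refine le_antisymm ?_ (h2 n)
    have := h4 n
    rw [← h6, mul_zero] at this
    exact this
  have hne : ∀ z ∈ ball (0 : ℂ) 1, phi z ≠ 0 := by
    intro z hz h0
    have h8 := one_sub_ne hz
    unfold phi at h0
    -- a zero with real part `> 1/2`
    have h9 : XX (1 / (1 - z) - 1 / 2) = 0 := by
      rw [xi_XX] at h0
      rcases div_eq_zero_iff.1 h0 with h | h
      · exact h
      · norm_num at h
    have h10 : Fs (z / (1 - z) ^ 2) = 0 := by
      have := phi_Fs hz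
      unfold phi at this
      rw [h0] at this
      have h11 : (1 / 8 : ℂ) ≠ 0 := by norm_num
      exact (mul_eq_zero.1 this.symm).resolve_left h11
    exact Fs_koebe_ne hRH hz h10
  have hd : DifferentiableOn ℂ (logDeriv phi) (ball 0 1) := (phi_diff.deriv isOpen_ball).div phi_diff hne
  have hz : ∀ z ∈ ball (0 : ℂ) 1, logDeriv phi z = 0 := by
    intro z hz
    have h8 := Complex.hasSum_taylorSeries_on_ball hd hz
    have h9 : (fun n : ℕ => ((n.factorial : ℂ)⁻¹ • (z - 0) ^ n • iteratedDeriv n (logDeriv phi) 0)) = fun _ => 0 := by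
      ext n
      have := h7 n
      unfold cf at this
      rw [div_eq_zero_iff] at this
      rcases this with h | h
      · rw [h]
        simp
      · exact absurd h (by exact_mod_cast n.factorial_ne_zero)
    rw [h9] at h8
    exact h8.unique hasSum_zero
  have hdz : ∀ z ∈ ball (0 : ℂ) 1, deriv phi z = 0 := by
    intro z hz'
    have := hz z hz'
    rw [logDeriv_apply, div_eq_zero_iff] at this
    exact this.resolve_right (hne z hz')
  obtain ⟨c, hc⟩ := isOpen_ball.exists_is_const_of_deriv_eq_zero (convex_ball (0 : ℂ) 1).isPreconnected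
    phi_diff hdz
  have e1 := hc 0 (mem_ball_self one_pos)
  have e2 := hc (1 / 2) (by
    rw [mem_ball_zero_iff]
    norm_num)
  rw [phi_zero] at e1
  have e3 : phi (1 / 2) = Real.pi / 6 := by
    unfold phi
    rw [show (1 / (1 - 1 / 2) : ℂ) = 2 by norm_num, xi_two]
  rw [e3, ← e1] at e2
  have e4 : (Real.pi : ℂ) = ((3 : ℝ) : ℂ) := by
    push_cast
    linear_combination 6 * e2
  have e5 : Real.pi = 3 := by exact_mod_cast e4
  linarith [Real.pi_gt_three]

theorem li_nonneg (hRH : RiemannHypothesis) (n : ℕ) : 0 ≤ li n := by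
  cases n with
  | zero => rw [li_zero]
  | succ n =>
    rw [li_cf]
    exact (li_pos_seq hRH).2.1 n

theorem li_pos (hRH : RiemannHypothesis) (n : ℕ) (hn : 1 ≤ n) : 0 < li n ∨ 0 < li (n + 1) := by
  obtain ⟨k, rfl⟩ : ∃ k, n = k + 1 := ⟨n - 1, by omega⟩
  have h1 := (li_pos_seq hRH).2.2.1 k
  have h2 := li_one_pos hRH
  have h3 : li 1 = (cf phi 0).re := li_cf 0
  rw [li_cf, li_cf]
  rw [h3] at h2
  by_contra hcon
  push Not at hcon
  linarith [hcon.1, hcon.2]

end Run7.h278.LI
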