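import Pool.Agent.Run7.h278.LI.Dom

set_option autoImplicit false

/-!
# Sharpness: the finite self-dual case
-/

namespace Run7.h278.LI

open Finset

/-- a finite multiset of nonzero complex numbers invariant under complex conjugation and `ρ ↦ 1 - ρ` -/
def SelfDual (Z : Multiset ℂ) : Prop :=
  (0 : ℂ) ∉ Z ∧ Z.map (starRingEnd ℂ) = Z ∧ Z.map (fun ρ => 1 - ρ) = Z

/-- the Li coefficients of a finite multiset -/
noncomputable def liZ (Z : Multiset ℂ) (n : ℕ) : ℝ := ((Z.map (fun ρ => 1 - (1 - 1 / ρ) ^ n)).sum).re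

theorem norm_lt_iff {ρ : ℂ} (h0 : ρ ≠ 0) : ‖1 - 1 / ρ‖ ≤ 1 ↔ 1 / 2 ≤ ρ.re := by
  have e : (1 - 1 / ρ : ℂ) = (ρ - 1) / ρ := by
    field_simp
  rw [e, norm_div, div_le_one (norm_pos_iff.2 h0), ← sq_le_sq₀ (norm_nonneg _) (norm_nonneg _),
    ← Complex.normSq_eq_norm_sq, ← Complex.normSq_eq_norm_sq, Complex.normSq_apply,
    Complex.normSq_apply, Complex.sub_re, Complex.sub_im, Complex.one_re, Complex.one_im]
  constructor <;> intro h <;> nlinarith

theorem bohr_finite {S : Set ℕ} (hS : BohrRec S) (Z : Multiset ℂ) (hZ : SelfDual Z)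
    (h : ∀ n ∈ S, 0 ≤ liZ Z n) : ∀ ρ ∈ Z, ρ.re = 1 / 2 := by
  classical
  obtain ⟨h0, hc, hd⟩ := hZ
  have hdual : ∀ ρ ∈ Z, 1 - ρ ∈ Z := by
    intro ρ hρ
    rw [← hd]
    exact Multiset.mem_map_of_mem (fun ρ => 1 - ρ) hρ
  have hne : ∀ ρ ∈ Z, ρ ≠ 0 := fun ρ hρ h => h0 (h ▸ hρ)
  have hne1 : ∀ ρ ∈ Z, 1 - 1 / ρ ≠ 0 := by
    intro ρ hρ h1
    have h2 := hne _ (hdual ρ hρ)
    have h3 := hne ρ hρ
    field_simp at h1
    exact h2 (by linear_combination -h1)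
  by_contra hcon
  push Not at hcon
  obtain ⟨ρ1, hρ1, hre1⟩ := hcon
  obtain ⟨ρ2, hρ2, hre2⟩ : ∃ ρ ∈ Z, ρ.re < 1 / 2 := by
    rcases lt_or_gt_of_ne hre1 with h1 | h1
    · exact ⟨ρ1, hρ1, h1⟩
    · refine ⟨1 - ρ1, hdual ρ1 hρ1, ?_⟩
      rw [Complex.sub_re, Complex.one_re]
      linarith
  set W : Multiset ℂ := Z.map (fun ρ => (1 - 1 / ρ)⁻¹) with hW
  have hW0 : ∀ b ∈ W, b ≠ 0 := by
    intro b hb
    rw [hW, Multiset.mem_map] at hb
    obtain ⟨ρ, hρ, rfl⟩ := hb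
    exact inv_ne_zero (hne1 ρ hρ)
  have hb2 : (1 - 1 / ρ2)⁻¹ ∈ W := Multiset.mem_map_of_mem (fun ρ => (1 - 1 / ρ)⁻¹) hρ2
  have hb2n : ‖(1 - 1 / ρ2)⁻¹‖ < 1 := by
    have h1 : ¬‖1 - 1 / ρ2‖ ≤ 1 := by
      rw [norm_lt_iff (hne ρ2 hρ2)]
      linarith
    push Not at h1
    rw [norm_inv]
    exact inv_lt_one_of_one_lt₀ h1
  obtain ⟨b0, hb0, hmin⟩ := W.toFinset.exists_min_image (fun b => ‖b‖) ⟨_, Multiset.mem_toFinset.2 hb2⟩
  rw [Multiset.mem_toFinset] at hb0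
  have hmin' : ∀ b ∈ W, ‖b0‖ ≤ ‖b‖ := fun b hb => hmin b (Multiset.mem_toFinset.2 hb)
  have hR0 : 0 < ‖b0‖ := norm_pos_iff.2 (hW0 b0 hb0)
  have hR1 : ‖b0‖ < 1 := (hmin' _ hb2).trans_lt hb2n
  have hsm : Sm ‖b0‖ (fun _ => (Multiset.card Z : ℝ)) := by
    refine ⟨Multiset.card Z, ‖b0‖, by positivity, hR0.le, hR1, fun n _ => ?_⟩
    rw [abs_of_nonneg (by positivity : (0 : ℝ) ≤ Multiset.card Z)]
  have hl : ∀ n : ℕ, 1 ≤ n → liZ Z n = -((W.map (fun b => (b⁻¹) ^ n)).sum).re + Multiset.card Z := by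
    intro n _
    unfold liZ
    rw [hW, Multiset.map_map, Multiset.sum_map_sub, Multiset.map_const', Multiset.sum_replicate,
      Complex.sub_re]
    simp only [Function.comp_def, inv_inv, nsmul_eq_mul, mul_one, Complex.natCast_re]
    ring
  obtain ⟨m, ω, C, q, hq0, hq1, hω, hfin⟩ := dom W hR0 hmin' ⟨b0, hb0, rfl⟩ (liZ Z) _ hsm hl
  have hosc : OscW (liZ Z) := by
    refine ⟨m, ω, ‖b0‖, C, q, hR0, hR1, hq0, hq1, fun i => ?_, hfin⟩
    obtain ⟨b, hb, hbn, hbω⟩ := hω i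
    rw [hbω, norm_mul, norm_inv, hbn, Complex.norm_real, norm_norm, mul_inv_cancel₀ hR0.ne']
  obtain ⟨c, hc, hb⟩ := hosc.bohr
  obtain ⟨n, hn, _, hn2⟩ := hb S hS 0
  have := h n hn
  have := Real.exp_pos (c * n)
  linarith

/-! ## The construction for a set which is not recurrent -/

theorem unit_sq {z : ℂ} (hz : ‖z‖ = 1) : (z + 1) ^ 2 * z⁻¹ = ((‖1 + z‖ ^ 2 : ℝ) : ℂ) := by
  have h0 : z ≠ 0 := by
    intro h
    rw [h] at hz
    simp at hz
  have h1 : z * (starRingEnd ℂ) z = 1 := by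
    rw [Complex.mul_conj, Complex.normSq_eq_norm_sq, hz]
    simp
  rw [← Complex.normSq_eq_norm_sq, ← Complex.mul_conj, map_add, map_one]
  have h2 : (starRingEnd ℂ) z = z⁻¹ := (inv_eq_of_mul_eq_one_right h1).symm
  rw [h2]
  field_simp
  ring

theorem sum_subsets {z : ℂ} (hz : ‖z‖ = 1) (K : ℕ) :
    ∑ s : Finset (Fin (2 * K)), z ^ s.card * (z⁻¹) ^ K = (((‖1 + z‖ ^ 2) ^ K : ℝ) : ℂ) := by
  have h := Fintype.sum_pow_mul_eq_add_pow (Fin (2 * K)) z 1
  simp only [one_pow, mul_one, Fintype.card_fin] at h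
  rw [← Finset.sum_mul, h, pow_mul, ← mul_pow, unit_sq hz]
  push_cast
  rfl

/-- the bound for one coordinate -/
theorem coord_bound {x ε : ℝ} (h : ∀ m : ℤ, ε ≤ |x - m|) (hε : 0 < ε) :
    ‖1 + Complex.exp (2 * Real.pi * Complex.I * x)‖ ^ 2 ≤ 4 * (1 - 4 * ε ^ 2) ∧ ε ≤ 1 / 2 := by
  set y : ℝ := x - round x with hy
  have h1 : ε ≤ |y| := h (round x)
  have h2 : |y| ≤ 1 / 2 := abs_sub_round x
  have e1 : Complex.exp (2 * Real.pi * Complex.I * x) = Complex.exp (((2 * Real.pi * y : ℝ) : ℂ) * Complex.I) := by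
    have : (2 * Real.pi * Complex.I * x : ℂ) =
        ((2 * Real.pi * y : ℝ) : ℂ) * Complex.I + (round x : ℤ) * (2 * Real.pi * Complex.I) := by
      rw [hy]
      push_cast
      ring
    rw [this, Complex.exp_add, Complex.exp_int_mul_two_pi_mul_I, mul_one]
  have h3 : |2 * Real.pi * y| ≤ Real.pi := by
    rw [abs_mul, abs_of_pos (by positivity)]
    nlinarith [Real.pi_pos]
  have h4 := Real.cos_le_one_sub_mul_cos_sq h3
  have h5 : 2 / Real.pi ^ 2 * (2 * Real.pi * y) ^ 2 = 8 * y ^ 2 := by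
    have := Real.pi_ne_zero
    field_simp
    ring
  rw [h5] at h4
  have h6 : ‖1 + Complex.exp (((2 * Real.pi * y : ℝ) : ℂ) * Complex.I)‖ ^ 2 =
      2 + 2 * Real.cos (2 * Real.pi * y) := by
    rw [← Complex.normSq_eq_norm_sq, Complex.normSq_apply, Complex.add_re, Complex.add_im,
      Complex.exp_ofReal_mul_I_re, Complex.exp_ofReal_mul_I_im, Complex.one_re, Complex.one_im]
    nlinarith [Real.sin_sq_add_cos_sq (2 * Real.pi * y)]
  have h7 : ε ^ 2 ≤ y ^ 2 := by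
    rw [← sq_abs y]
    gcongr
  rw [e1, h6]
  constructor
  · linarith
  · linarith

theorem choose_K (κ : ℕ) {r δ : ℝ} (h0 : 0 ≤ r) (h1 : r < 1) (hδ : 0 < δ) :
    ∃ K : ℕ, 1 ≤ K ∧ (2 * (K : ℝ)) ^ κ * r ^ K ≤ δ := by
  have h := (tendsto_pow_const_mul_const_pow_of_lt_one κ h0 h1).const_mul ((2 : ℝ) ^ κ)
  rw [mul_zero] at h
  obtain ⟨K, hK, hK1⟩ := ((h.eventually_le_const hδ).and (Filter.eventually_ge_atTop 1)).exists
  refine ⟨K, hK1, ?_⟩
  rw [mul_pow, mul_assoc]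
  exact hK

section Construction

variable {κ : ℕ} (K : ℕ) (v : Fin κ → ℂ)

/-- all blocks are balanced -/
def Bal (σ : Fin κ → Finset (Fin (2 * K))) : Prop := ∀ j, (σ j).card = K

/-- the index type -/
abbrev Idx (κ K : ℕ) : Type := Bool × {σ : Fin κ → Finset (Fin (2 * K)) // ¬Bal K σ}

open Classical in
noncomputable instance : Fintype (Idx κ K) := by unfold Idx; infer_instance

/-- the character -/
noncomputable def ch (σ : Fin κ → Finset (Fin (2 * K))) : ℂ := ∏ j, (v j ^ (σ j).card * (v j)⁻¹ ^ K)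

/-- the points `1 - 1 / ρ` -/
noncomputable def uu (p : Idx κ K) : ℂ := (cond p.1 2 (1 / 2)) * ch K v p.2.1

/-- the complement -/
def compl (σ : Fin κ → Finset (Fin (2 * K))) : Fin κ → Finset (Fin (2 * K)) := fun j => (σ j)ᶜ

theorem compl_compl' (σ : Fin κ → Finset (Fin (2 * K))) : compl K (compl K σ) = σ := by
  ext j x
  simp [compl]

theorem compl_card (σ : Fin κ → Finset (Fin (2 * K))) (j : Fin κ) :
    (compl K σ j).card = 2 * K - (σ j).card := by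
  unfold compl
  rw [Finset.card_compl, Fintype.card_fin]

theorem card_le (σ : Fin κ → Finset (Fin (2 * K))) (j : Fin κ) : (σ j).card ≤ 2 * K := by
  have := Finset.card_le_univ (σ j)
  rwa [Fintype.card_fin] at this

theorem bal_compl (σ : Fin κ → Finset (Fin (2 * K))) : Bal K (compl K σ) ↔ Bal K σ := by
  unfold Bal
  refine forall_congr' fun j => ?_
  rw [compl_card]
  have := card_le K σ j
  omega

/-- complement on the index type, with a map on the sign -/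
def eqv (f : Bool ≃ Bool) : Idx κ K ≃ Idx κ K where
  toFun p := (f p.1, ⟨compl K p.2.1, by rw [bal_compl]; exact p.2.2⟩)
  invFun p := (f.symm p.1, ⟨compl K p.2.1, by rw [bal_compl]; exact p.2.2⟩)
  left_inv p := by
    obtain ⟨b, σ, hσ⟩ := p
    simp [compl_compl']
  right_inv p := by
    obtain ⟨b, σ, hσ⟩ := p
    simp [compl_compl']

variable {v}

theorem unit_ne {z : ℂ} (hz : ‖z‖ = 1) : z ≠ 0 := by
  intro h
  rw [h] at hz
  simp at hz

theorem unit_conj {z : ℂ} (hz : ‖z‖ = 1) : (starRingEnd ℂ) z = z⁻¹ := by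
  have h1 : z * (starRingEnd ℂ) z = 1 := by
    rw [Complex.mul_conj, Complex.normSq_eq_norm_sq, hz]
    simp
  exact (inv_eq_of_mul_eq_one_right h1).symm

theorem ch_norm (hv : ∀ j, ‖v j‖ = 1) (σ : Fin κ → Finset (Fin (2 * K))) : ‖ch K v σ‖ = 1 := by
  unfold ch
  rw [norm_prod]
  refine Finset.prod_eq_one fun j _ => ?_
  rw [norm_mul, norm_pow, norm_pow, norm_inv, hv j]
  simp

theorem ch_compl (hv : ∀ j, ‖v j‖ = 1) (σ : Fin κ → Finset (Fin (2 * K))) :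
    ch K v (compl K σ) = (ch K v σ)⁻¹ := by
  unfold ch
  rw [← Finset.prod_inv_distrib]
  refine Finset.prod_congr rfl fun j _ => ?_
  have h0 := unit_ne (hv j)
  have h2K : v j ^ (2 * K) = v j ^ K * v j ^ K := by
    rw [← pow_add, two_mul]
  rw [compl_card, pow_sub₀ _ h0 (card_le K σ j), mul_inv, inv_pow, inv_inv, h2K]
  field_simp

theorem ch_conj (hv : ∀ j, ‖v j‖ = 1) (σ : Fin κ → Finset (Fin (2 * K))) :
    (starRingEnd ℂ) (ch K v σ) = ch K v (compl K σ) := by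
  rw [ch_compl K hv, unit_conj (ch_norm K hv σ)]

theorem uu_norm (hv : ∀ j, ‖v j‖ = 1) (p : Idx κ K) : ‖uu K v p‖ = 2 ∨ ‖uu K v p‖ = 1 / 2 := by
  unfold uu
  rw [norm_mul, ch_norm K hv, mul_one]
  cases p.1
  · right
    simp
  · left
    simp

theorem uu_ne_one (hv : ∀ j, ‖v j‖ = 1) (p : Idx κ K) : 1 - uu K v p ≠ 0 := by
  intro h
  have h1 : uu K v p = 1 := by linear_combination -h
  have h2 := uu_norm K hv p
  rw [h1, norm_one] at h2
  norm_num at h2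

theorem uu_ne_zero (hv : ∀ j, ‖v j‖ = 1) (p : Idx κ K) : uu K v p ≠ 0 := by
  intro h
  have h2 := uu_norm K hv p
  rw [h, norm_zero] at h2
  norm_num at h2

theorem uu_conj (hv : ∀ j, ‖v j‖ = 1) (p : Idx κ K) :
    (starRingEnd ℂ) (uu K v p) = uu K v (eqv K (Equiv.refl Bool) p) := by
  unfold uu eqv
  rw [map_mul, ch_conj K hv]
  simp only [Equiv.coe_fn_mk, Equiv.refl_apply]
  congr 1
  cases p.1
  · simp only [cond_false]
    rw [map_div₀, map_one, map_ofNat]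
  · simp only [cond_true]
    rw [map_ofNat]

theorem uu_inv (hv : ∀ j, ‖v j‖ = 1) (p : Idx κ K) :
    (uu K v p)⁻¹ = uu K v (eqv K Equiv.boolNot p) := by
  unfold uu eqv
  rw [mul_inv, ← ch_compl K hv]
  simp only [Equiv.coe_fn_mk, Equiv.boolNot_apply]
  congr 1
  cases p.1
  · simp
  · simp

/-- the finite multiset -/
noncomputable def ZZ (κ K : ℕ) (v : Fin κ → ℂ) : Multiset ℂ :=
  (Finset.univ : Finset (Idx κ K)).val.map (fun p => 1 / (1 - uu K v p))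

theorem ZZ_selfDual (hv : ∀ j, ‖v j‖ = 1) : SelfDual (ZZ κ K v) := by
  refine ⟨?_, ?_, ?_⟩
  · intro h
    unfold ZZ at h
    rw [Multiset.mem_map] at h
    obtain ⟨p, _, hp⟩ := h
    exact (one_div_ne_zero (uu_ne_one K hv p)) hp
  · unfold ZZ
    rw [Multiset.map_map]
    conv_rhs => rw [← Multiset.map_univ_val_equiv (eqv K (Equiv.refl Bool)), Multiset.map_map]
    refine Multiset.map_congr rfl fun p _ => ?_
    simp only [Function.comp_apply]
    rw [map_div₀, map_one, map_sub, map_one, uu_conj K hv]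
  · unfold ZZ
    rw [Multiset.map_map]
    conv_rhs => rw [← Multiset.map_univ_val_equiv (eqv K Equiv.boolNot), Multiset.map_map]
    refine Multiset.map_congr rfl fun p _ => ?_
    simp only [Function.comp_apply]
    have h1 := uu_ne_one K hv p
    have h2 := uu_ne_one K hv (eqv K Equiv.boolNot p)
    rw [← uu_inv K hv] at h2 ⊢
    have h3 := uu_ne_zero K hv p
    rw [div_eq_mul_inv, div_eq_mul_inv, one_mul, one_mul]
    field_simp at h2 ⊢
    have h4 : uu K v p - 1 ≠ 0 := by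
      intro h
      exact h1 (by linear_combination -h)
    field_simp
    ring

theorem ZZ_off (hv : ∀ j, ‖v j‖ = 1) (hK : 1 ≤ K) (hκ : 0 < κ) : ∃ ρ ∈ ZZ κ K v, ρ.re ≠ 1 / 2 := by
  have hb : ¬Bal K (fun _ : Fin κ => (∅ : Finset (Fin (2 * K)))) := by
    intro h
    have := h ⟨0, hκ⟩
    simp at this
    omega
  set p : Idx κ K := (true, ⟨_, hb⟩) with hp
  refine ⟨1 / (1 - uu K v p), ?_, ?_⟩
  · unfold ZZ
    exact Multiset.mem_map_of_mem (fun p => 1 / (1 - uu K v p)) (Finset.mem_univ p)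
  · intro h
    have h1 := uu_ne_one K hv p
    have h2 := norm_lt_iff (ρ := 1 / (1 - uu K v p)) (one_div_ne_zero h1)
    rw [h] at h2
    have h3 := h2.2 le_rfl
    rw [one_div_one_div] at h3
    have h4 : ‖uu K v p‖ = 2 := by
      unfold uu
      rw [norm_mul, ch_norm K hv, mul_one, hp]
      simp
    rw [show (1 - (1 - uu K v p)) = uu K v p by ring, h4] at h3
    norm_num at h3

theorem ch_pow (σ : Fin κ → Finset (Fin (2 * K))) (n : ℕ) : ch K v σ ^ n = ch K (fun j => v j ^ n) σ := by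
  unfold ch
  rw [← Finset.prod_pow]
  refine Finset.prod_congr rfl fun j _ => ?_
  rw [mul_pow, ← pow_mul, ← pow_mul, ← pow_mul, mul_comm (σ j).card, mul_comm K, pow_mul, pow_mul, inv_pow]

theorem sum_ch (hv : ∀ j, ‖v j‖ = 1) :
    ∑ σ : Fin κ → Finset (Fin (2 * K)), ch K v σ = ((∏ j, (‖1 + v j‖ ^ 2) ^ K : ℝ) : ℂ) := by
  classical
  unfold ch
  have h := Finset.prod_univ_sum (fun _ : Fin κ => (Finset.univ : Finset (Finset (Fin (2 * K)))))
    (fun j s => v j ^ s.card * (v j)⁻¹ ^ K)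
  rw [Fintype.piFinset_univ] at h
  rw [← h]
  push_cast
  refine Finset.prod_congr rfl fun j _ => ?_
  have := sum_subsets (hv j) K
  push_cast at this
  exact this

open Classical in
theorem card_bal : (Finset.univ.filter (fun σ : Fin κ → Finset (Fin (2 * K)) => Bal K σ)).card =
    (Nat.centralBinom K) ^ κ := by
  have h : (Finset.univ.filter (fun σ : Fin κ → Finset (Fin (2 * K)) => Bal K σ)) =
      Fintype.piFinset (fun _ : Fin κ => Finset.powersetCard K (Finset.univ : Finset (Fin (2 * K)))) := by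
    ext σ
    simp [Bal, Fintype.mem_piFinset, Finset.mem_powersetCard]
  rw [h, Fintype.card_piFinset]
  simp [Finset.card_powersetCard, Nat.centralBinom]

theorem ch_bal (hv : ∀ j, ‖v j‖ = 1) (σ : Fin κ → Finset (Fin (2 * K))) (h : Bal K σ) : ch K v σ = 1 := by
  unfold ch
  refine Finset.prod_eq_one fun j _ => ?_
  rw [h j, ← mul_pow, mul_inv_cancel₀ (unit_ne (hv j)), one_pow]

open Classical in
theorem sum_unbal (hv : ∀ j, ‖v j‖ = 1) :
    (∑ σ : {σ : Fin κ → Finset (Fin (2 * K)) // ¬Bal K σ}, ch K v σ.1) =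
      ((∏ j, (‖1 + v j‖ ^ 2) ^ K - (Nat.centralBinom K : ℝ) ^ κ : ℝ) : ℂ) := by
  have h1 := Finset.sum_filter_add_sum_filter_not Finset.univ (fun σ : Fin κ → Finset (Fin (2 * K)) => Bal K σ)
    (fun σ => ch K v σ)
  rw [sum_ch K hv] at h1
  have h2 : ∑ σ ∈ Finset.univ.filter (fun σ : Fin κ → Finset (Fin (2 * K)) => Bal K σ), ch K v σ =
      (Nat.centralBinom K : ℂ) ^ κ := by
    rw [Finset.sum_congr rfl (g := fun _ => (1 : ℂ))]
    · rw [Finset.sum_const, card_bal]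
      simp
    · intro σ hσ
      rw [Finset.mem_filter] at hσ
      exact ch_bal K hv σ hσ.2
  have h3 : ∑ σ ∈ Finset.univ.filter (fun σ : Fin κ → Finset (Fin (2 * K)) => ¬Bal K σ), ch K v σ =
      ∑ σ : {σ : Fin κ → Finset (Fin (2 * K)) // ¬Bal K σ}, ch K v σ.1 := by
    rw [Finset.sum_subtype (p := fun σ => ¬Bal K σ)]
    intro σ
    simp
  rw [h2, h3] at h1
  push_cast at h1 ⊢
  linear_combination h1

theorem liZ_ZZ (hv : ∀ j, ‖v j‖ = 1) (n : ℕ) : ∃ c : ℝ, 0 ≤ c ∧ liZ (ZZ κ K v) n =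
    c - (2 ^ n + (1 / 2) ^ n) * (∏ j, (‖1 + v j ^ n‖ ^ 2) ^ K - (Nat.centralBinom K : ℝ) ^ κ) := by
  classical
  refine ⟨Fintype.card (Idx κ K), by positivity, ?_⟩
  have h1 : liZ (ZZ κ K v) n = (∑ p : Idx κ K, (1 - uu K v p ^ n)).re := by
    unfold liZ ZZ
    rw [Multiset.map_map]
    congr 1
    rw [Finset.sum]
    congr 1
    refine Multiset.map_congr rfl fun p _ => ?_
    rw [Function.comp_apply, one_div_one_div, sub_sub_cancel]
  have h2 : ∑ p : Idx κ K, uu K v p ^ n = ((2 : ℂ) ^ n + (1 / 2) ^ n) *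
      ∑ σ : {σ : Fin κ → Finset (Fin (2 * K)) // ¬Bal K σ}, ch K (fun j => v j ^ n) σ.1 := by
    have h4 : ∑ p : Idx κ K, uu K v p ^ n = ∑ b : Bool, ∑ σ : {σ : Fin κ → Finset (Fin (2 * K)) // ¬Bal K σ},
        uu K v (b, σ) ^ n := by
      rw [← Fintype.sum_prod_type']
    rw [h4, Fintype.sum_bool, add_mul, Finset.mul_sum, Finset.mul_sum]
    congr 1 <;>
    · refine Finset.sum_congr rfl fun σ _ => ?_
      unfold uu
      rw [mul_pow, ch_pow]
      simp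
  have hvn : ∀ j, ‖(fun j => v j ^ n) j‖ = 1 := fun j => by simp [hv j]
  rw [h1, Finset.sum_sub_distrib, h2, sum_unbal K hvn]
  rw [Finset.sum_const, Complex.sub_re]
  have h5 : (((2 : ℂ) ^ n + (1 / 2) ^ n) *
      ((∏ j, (‖1 + v j ^ n‖ ^ 2) ^ K - (Nat.centralBinom K : ℝ) ^ κ : ℝ) : ℂ)) =
      (((2 ^ n + (1 / 2) ^ n) * (∏ j, (‖1 + v j ^ n‖ ^ 2) ^ K - (Nat.centralBinom K : ℝ) ^ κ) : ℝ) : ℂ) := by
    push_cast
    ring
  rw [h5, Complex.ofReal_re]
  simp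

end Construction

theorem finite_bohr {S : Set ℕ} (h : ∀ Z : Multiset ℂ, SelfDual Z → (∀ n ∈ S, 0 ≤ liZ Z n) →
    ∀ ρ ∈ Z, ρ.re = 1 / 2) : BohrRec S := by
  classical
  by_contra hcon
  unfold BohrRec at hcon
  push Not at hcon
  obtain ⟨k, θ, ε, hε, hS⟩ := hcon
  set ε' : ℝ := min ε (1 / 2) with hε'
  have hε0 : 0 < ε' := lt_min hε (by norm_num)
  have hεh : ε' ≤ 1 / 2 := min_le_right _ _
  set r : ℝ := 1 - 4 * ε' ^ 2 with hr
  have hr0 : 0 ≤ r := by nlinarith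
  have hr1 : r < 1 := by nlinarith
  obtain ⟨K, hK1, hK⟩ := choose_K (k + 1) hr0 hr1 one_pos
  set v : Fin (k + 1) → ℂ := fun j => Complex.exp (2 * Real.pi * Complex.I * ((Fin.cons 0 θ : Fin (k + 1) → ℝ) j : ℝ)) with hv
  have hvn : ∀ j, ‖v j‖ = 1 := by
    intro j
    rw [hv]
    simp only
    rw [show (2 * Real.pi * Complex.I * ((Fin.cons 0 θ : Fin (k + 1) → ℝ) j : ℝ) : ℂ) =
      ((2 * Real.pi * (Fin.cons 0 θ : Fin (k + 1) → ℝ) j : ℝ) : ℂ) * Complex.I by push_cast; ring,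
      Complex.norm_exp_ofReal_mul_I]
  obtain ⟨ρ, hρ, hne⟩ := ZZ_off K hvn hK1 (Nat.succ_pos k)
  refine hne (h _ (ZZ_selfDual K hvn) ?_ ρ hρ)
  intro n hn
  rcases Nat.eq_zero_or_pos n with rfl | hn0
  · unfold liZ
    simp
  obtain ⟨i, hi⟩ := hS n hn hn0
  obtain ⟨c, hc, hli⟩ := liZ_ZZ K hvn n
  rw [hli]
  have hcb : (0 : ℝ) < 2 * K := by
    have : (1 : ℝ) ≤ K := by exact_mod_cast hK1
    linarith
  have hvi : ‖1 + v i.succ ^ n‖ ^ 2 ≤ 4 * r := by
    have h1 := (coord_bound (x := (n : ℝ) * θ i) (ε := ε') (fun m => (min_le_left _ _).trans (hi m)) hε0).1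
    have h2 : v i.succ ^ n = Complex.exp (2 * Real.pi * Complex.I * ((n : ℝ) * θ i : ℝ)) := by
      rw [hv]
      simp only [Fin.cons_succ]
      rw [← Complex.exp_nat_mul]
      congr 1
      push_cast
      ring
    rw [h2]
    exact h1
  have hvj : ∀ j, ‖1 + v j ^ n‖ ^ 2 ≤ 4 := by
    intro j
    have h1 : ‖1 + v j ^ n‖ ≤ 2 := by
      refine (norm_add_le _ _).trans ?_
      rw [norm_pow, hvn j, one_pow, norm_one]
      norm_num
    nlinarith [norm_nonneg (1 + v j ^ n)]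
  have hprod : ∏ j, (‖1 + v j ^ n‖ ^ 2) ^ K ≤ ((4 : ℝ) ^ K) ^ (k + 1) * r ^ K := by
    have h1 : ∏ j, (‖1 + v j ^ n‖ ^ 2) ^ K ≤ ∏ j : Fin (k + 1), ((4 : ℝ) ^ K * (if j = i.succ then r ^ K else 1)) := by
      refine Finset.prod_le_prod (fun j _ => by positivity) fun j _ => ?_
      split_ifs with hj
      · rw [hj, ← mul_pow]
        gcongr
      · rw [mul_one]
        gcongr
        exact hvj j
    refine h1.trans (le_of_eq ?_)
    rw [Finset.prod_mul_distrib, Finset.prod_const, Finset.card_univ, Fintype.card_fin,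
      Finset.prod_ite_eq' Finset.univ i.succ]
    simp
  have hcentral : ((4 : ℝ) ^ K) ^ (k + 1) * r ^ K ≤ (Nat.centralBinom K : ℝ) ^ (k + 1) := by
    have h1 : (4 : ℝ) ^ K ≤ 2 * K * Nat.centralBinom K := by
      exact_mod_cast Nat.four_pow_le_two_mul_self_mul_centralBinom K hK1
    calc ((4 : ℝ) ^ K) ^ (k + 1) * r ^ K ≤ (2 * K * Nat.centralBinom K) ^ (k + 1) * r ^ K := by gcongr
      _ = ((2 * (K : ℝ)) ^ (k + 1) * r ^ K) * (Nat.centralBinom K : ℝ) ^ (k + 1) := by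
          rw [mul_pow]
          ring
      _ ≤ 1 * (Nat.centralBinom K : ℝ) ^ (k + 1) := by gcongr
      _ = _ := one_mul _
  have h5 : ∏ j, (‖1 + v j ^ n‖ ^ 2) ^ K - (Nat.centralBinom K : ℝ) ^ (k + 1) ≤ 0 := by linarith
  have h6 : (0 : ℝ) ≤ 2 ^ n + (1 / 2) ^ n := by positivity
  nlinarith [mul_nonneg h6 (neg_nonneg.2 h5)]

/-- Sharpness. -/
theorem bohr_iff (S : Set ℕ) : BohrRec S ↔ ∀ Z : Multiset ℂ, SelfDual Z → (∀ n ∈ S, 0 ≤ liZ Z n) →
    ∀ ρ ∈ Z, ρ.re = 1 / 2 :=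
  ⟨fun h Z hZ hn => bohr_finite h Z hZ hn, finite_bohr⟩

end Run7.h278.LI
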