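import Pool.Agent.Run7.h278.LI.Ext
import Pool.Agent.Run7.h278.LI.Dom
import Pool.Agent.H24R2.JP.Had
import Pool.Agent.H24R2.JP.Grow
import Pool.Agent.H24R2.JP.B1
import Pool.Agent.H24R2.JP.RH1

set_option autoImplicit false

/-!
# The Li coefficients
-/

namespace Run7.h278.LI

open Complex Filter Topology Metric Pool.Agent.H24R2.JP

/-- `ξ(s) = s (s - 1) Λ(s) / 2` as an entire function -/
noncomputable def xi (s : ℂ) : ℂ := (s * (s - 1) * completedRiemannZeta₀ s + 1) / 2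

/-- `φ(z) = ξ(1 / (1 - z))` -/
noncomputable def phi (z : ℂ) : ℂ := xi (1 / (1 - z))

/-- Li's coefficients `λ_n = n · [zⁿ] log ξ(1 / (1 - z))` -/
noncomputable def li (n : ℕ) : ℝ :=
  n * (iteratedDeriv n (fun z => Complex.log (phi z)) 0).re / n.factorial

theorem xi_XX (s : ℂ) : xi s = XX (s - 1 / 2) / 8 := by
  unfold xi XX
  rw [show (1 / 2 + (s - 1 / 2) : ℂ) = s by ring]
  ring

theorem xi_diff : Differentiable ℂ xi := by
  have : xi = fun s => XX (s - 1 / 2) / 8 := funext xi_XX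
  rw [this]
  exact (B1h.XX_diff.comp (by fun_prop)).div_const _

theorem one_sub_ne {z : ℂ} (hz : z ∈ ball (0 : ℂ) 1) : (1 - z : ℂ) ≠ 0 := by
  intro h
  have : z = 1 := by linear_combination -h
  rw [this] at hz
  simp at hz

theorem phi_diff : DifferentiableOn ℂ phi (ball 0 1) := by
  unfold phi
  refine xi_diff.comp_differentiableOn ?_
  refine DifferentiableOn.div (by fun_prop) (by fun_prop) fun z hz => one_sub_ne hz

theorem xi_one : xi 1 = 1 / 2 := by
  unfold xi
  ring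

theorem phi_zero : phi 0 = 1 / 2 := by
  unfold phi
  rw [sub_zero, div_one, xi_one]

theorem xi_two : xi 2 = Real.pi / 6 := by
  have h1 := completedRiemannZeta_eq 2
  have h2 := riemannZeta_def_of_ne_zero (s := 2) (by norm_num)
  have h3 : Gammaℝ 2 = (Real.pi : ℂ)⁻¹ := by
    rw [Gammaℝ_def]
    norm_num
    rw [Complex.cpow_neg_one]
  rw [riemannZeta_two, h3] at h2
  have hpi : (Real.pi : ℂ) ≠ 0 := by exact_mod_cast Real.pi_ne_zero
  have h4 : completedRiemannZeta 2 = Real.pi / 6 := by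
    rw [div_inv_eq_mul] at h2
    apply mul_right_cancel₀ hpi
    rw [← h2]
    ring
  rw [h4] at h1
  unfold xi
  linear_combination -h1

/-- the coefficients of the logarithmic derivative -/
theorem li_cf (n : ℕ) : li (n + 1) = (cf phi n).re := by
  unfold li cf
  have h0 : AnalyticAt ℂ phi 0 := phi_diff.analyticAt (isOpen_ball.mem_nhds (mem_ball_self one_pos))
  have h1 : deriv (fun z => Complex.log (phi z)) =ᶠ[𝓝 0] logDeriv phi := by
    have hs : phi 0 ∈ slitPlane := by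
      rw [phi_zero]
      left
      norm_num
    filter_upwards [h0.eventually_analyticAt, h0.continuousAt.eventually_mem
      (isOpen_slitPlane.mem_nhds hs)] with z h2 h3
    exact (h2.differentiableAt.hasDerivAt.clog h3).deriv
  rw [iteratedDeriv_succ', h1.iteratedDeriv_eq n, Nat.factorial_succ]
  have h4 : ((n.factorial : ℕ) : ℝ) ≠ 0 := by exact_mod_cast n.factorial_ne_zero
  have h5 : (cf phi n) = iteratedDeriv n (logDeriv phi) 0 / ((n.factorial : ℝ) : ℂ) := by
    unfold cf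
    push_cast
    rfl
  rw [show iteratedDeriv n (logDeriv phi) 0 / (n.factorial : ℂ) =
    iteratedDeriv n (logDeriv phi) 0 / ((n.factorial : ℝ) : ℂ) by push_cast; rfl, Complex.div_ofReal_re]
  push_cast
  have h6 : ((n : ℝ) + 1) ≠ 0 := by positivity
  field_simp

theorem li_zero : li 0 = 0 := by
  unfold li
  simp

/-- a zero to the right of the critical line if RH fails -/
theorem exists_zero (h : ¬RiemannHypothesis) : ∃ s : ℂ, 1 / 2 < s.re ∧ xi s = 0 := by
  unfold RiemannHypothesis at h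
  push Not at h
  obtain ⟨s, h1, h2, h3, h4⟩ := h
  have h0 : s ≠ 0 := by
    rintro rfl
    rw [riemannZeta_zero] at h1
    norm_num at h1
  have h5 := riemannZeta_def_of_ne_zero h0
  rw [h1] at h5
  have h6 : completedRiemannZeta s = 0 := by
    rcases div_eq_zero_iff.1 h5.symm with h7 | h7
    · exact h7
    · exfalso
      rw [Gammaℝ_eq_zero_iff] at h7
      obtain ⟨n, hn⟩ := h7
      cases n with
      | zero =>
        simp at hn
        exact h0 hn
      | succ n =>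
        refine h2 n ?_
        rw [hn]
        push_cast
        ring
  have h8 : XX (s - 1 / 2) = 0 := by
    rw [Zer.XX_eq _ (by rwa [show (1 / 2 + (s - 1 / 2) : ℂ) = s by ring])
      (by
        rw [show (1 - (1 / 2 + (s - 1 / 2)) : ℂ) = 1 - s by ring]
        exact sub_ne_zero.2 h3.symm), show (1 / 2 + (s - 1 / 2) : ℂ) = s by ring, h6, mul_zero]
  rcases lt_or_gt_of_ne h4 with h9 | h9
  · refine ⟨1 - s, ?_, ?_⟩
    · rw [Complex.sub_re, Complex.one_re]
      linarith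
    · rw [xi_XX, show (1 - s - 1 / 2 : ℂ) = -(s - 1 / 2) by ring, Zer.XX_even, h8, zero_div]
  · exact ⟨s, h9, by rw [xi_XX, h8, zero_div]⟩

theorem phi_zero_of_xi {s : ℂ} (hs : 1 / 2 < s.re) (h : xi s = 0) :
    1 - 1 / s ∈ ball (0 : ℂ) 1 ∧ phi (1 - 1 / s) = 0 := by
  have h0 : s ≠ 0 := by
    rintro rfl
    norm_num at hs
  constructor
  · rw [mem_ball_zero_iff]
    have e : (1 - 1 / s : ℂ) = (s - 1) / s := by
      field_simp
    rw [e, norm_div, div_lt_one (norm_pos_iff.2 h0)]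
    rw [← sq_lt_sq₀ (norm_nonneg _) (norm_nonneg _), ← Complex.normSq_eq_norm_sq, ← Complex.normSq_eq_norm_sq,
      Complex.normSq_apply, Complex.normSq_apply, Complex.sub_re, Complex.sub_im, Complex.one_re,
      Complex.one_im]
    nlinarith
  · unfold phi
    rw [show (1 - (1 - 1 / s) : ℂ) = 1 / s by ring, one_div_one_div, h]

/-- `φ` has no zero on `[0, 1)` -/
theorem phi_ne_zero_real {r : ℝ} (h0 : 0 < r) (h1 : r < 1) : phi r ≠ 0 := by
  intro h
  unfold phi at h
  rw [xi_XX] at h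
  have h2 : XX (1 / (1 - r) - 1 / 2) = 0 := by
    rcases div_eq_zero_iff.1 h with h3 | h3
    · exact h3
    · norm_num at h3
  have h3 := Zer.re_le _ h2
  have h4 : (1 / (1 - (r : ℂ)) - 1 / 2 : ℂ) = ((1 / (1 - r) - 1 / 2 : ℝ) : ℂ) := by push_cast; ring
  rw [h4, Complex.ofReal_re] at h3
  have h5 : 1 < 1 / (1 - r) := by
    rw [lt_div_iff₀ (by linarith)]
    linarith
  linarith

theorem cf_prod (Z : Multiset ℂ) (hZ : ∀ b ∈ Z, b ≠ 0) {g : ℂ → ℂ} (hg : AnalyticAt ℂ g 0) (h0 : g 0 ≠ 0)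
    (n : ℕ) : cf (fun z => (Z.map (fun b => z - b)).prod * g z) n =
      -(Z.map (fun b => (b⁻¹) ^ (n + 1))).sum + cf g n ∧
      AnalyticAt ℂ (fun z => (Z.map (fun b => z - b)).prod * g z) 0 ∧
      (fun z => (Z.map (fun b => z - b)).prod * g z) 0 ≠ 0 := by
  induction Z using Multiset.induction_on with
  | empty => simpa using ⟨hg, h0⟩
  | cons b Z ih =>
    obtain ⟨k1, k2, k3⟩ := ih fun c hc => hZ c (Multiset.mem_cons_of_mem hc)
    have hb : b ≠ 0 := hZ b (Multiset.mem_cons_self b Z)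
    have e : (fun z => ((b ::ₘ Z).map (fun b => z - b)).prod * g z) =
        fun z => (z - b) * ((Z.map (fun b => z - b)).prod * g z) := by
      ext z
      rw [Multiset.map_cons, Multiset.prod_cons, mul_assoc]
    have h2 : AnalyticAt ℂ (fun z : ℂ => z - b) 0 := by fun_prop
    have h3 : (fun z : ℂ => z - b) 0 ≠ 0 := by simpa using hb
    refine ⟨?_, ?_, ?_⟩
    · rw [e, cf_mul h2 k2 h3 k3, k1, cf_lin, Multiset.map_cons, Multiset.sum_cons]
      ring
    · rw [e]
      exact h2.mul k2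
    · rw [e]
      exact mul_ne_zero h3 k3

/-- If RH fails the Li coefficients oscillate. -/
theorem osc_of_not_RH (h : ¬RiemannHypothesis) : Osc li := by
  classical
  obtain ⟨s, hs, hxi⟩ := exists_zero h
  obtain ⟨hu, hphi⟩ := phi_zero_of_xi hs hxi
  set u : ℂ := 1 - 1 / s with hudef
  rw [mem_ball_zero_iff] at hu
  have hp0 : phi 0 ≠ 0 := by
    rw [phi_zero]
    norm_num
  have hu0 : u ≠ 0 := by
    intro h0
    rw [h0] at hphi
    exact hp0 hphi
  have hun : 0 < ‖u‖ := norm_pos_iff.2 hu0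
  obtain ⟨r, hr⟩ : ∃ r : ℝ, r = (1 + ‖u‖) / 2 := ⟨_, rfl⟩
  have hr0 : 0 < r := by rw [hr]; positivity
  have hr1 : r < 1 := by rw [hr]; linarith
  have hur : ‖u‖ < r := by rw [hr]; linarith
  obtain ⟨Z, g, r1, hr1', hg, hZ, hgn, hfac⟩ := extract hr0 hr1 phi_diff hp0
  have huZ : u ∈ Z := by
    have h1 := hfac u (by rw [mem_ball_zero_iff]; linarith)
    rw [hphi] at h1
    have h2 := hgn u (by rw [mem_closedBall_zero_iff]; exact hur.le)
    rcases mul_eq_zero.1 h1.symm with h3 | h3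
    · rw [Multiset.prod_eq_zero_iff, Multiset.mem_map] at h3
      obtain ⟨b, hb, hb2⟩ := h3
      have : u = b := by linear_combination hb2
      rwa [this]
    · exact absurd h3 h2
  have hZ0 : ∀ b ∈ Z, b ≠ 0 := by
    intro b hb h0
    rw [h0] at hb
    exact hp0 (hZ 0 hb).2
  obtain ⟨b0, hb0, hmin⟩ := Z.toFinset.exists_min_image (fun b => ‖b‖) ⟨u, Multiset.mem_toFinset.2 huZ⟩
  rw [Multiset.mem_toFinset] at hb0
  have hmin' : ∀ b ∈ Z, ‖b0‖ ≤ ‖b‖ := fun b hb => hmin b (Multiset.mem_toFinset.2 hb)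
  have hR0 : 0 < ‖b0‖ := norm_pos_iff.2 (hZ0 b0 hb0)
  have hRr : ‖b0‖ < r := (hmin' u huZ).trans_lt hur
  have hga : AnalyticAt ℂ g 0 := hg.analyticAt (isOpen_ball.mem_nhds (mem_ball_self (hr0.trans hr1')))
  have hg0 : g 0 ≠ 0 := hgn 0 (mem_closedBall_self hr0.le)
  obtain ⟨C, hC0, hC⟩ := cf_bound hr0 hr1' hg hgn
  have hsm : Sm ‖b0‖ (fun n => (cf g (n - 1)).re) := by
    refine ⟨C * r, ‖b0‖ / r, by positivity, by positivity, by rwa [div_lt_one hr0], fun n hn => ?_⟩
    obtain ⟨k, rfl⟩ : ∃ k, n = k + 1 := ⟨n - 1, by omega⟩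
    beta_reduce
    rw [Nat.add_sub_cancel]
    calc |(cf g k).re| * ‖b0‖ ^ (k + 1) ≤ ‖cf g k‖ * ‖b0‖ ^ (k + 1) := by
          gcongr
          exact Complex.abs_re_le_norm _
      _ = (‖cf g k‖ * r ^ k) * r * (‖b0‖ / r) ^ (k + 1) := by
          have hrk : r ^ (k + 1) ≠ 0 := by positivity
          rw [div_pow, mul_assoc (‖cf g k‖), ← pow_succ, mul_assoc, mul_div_cancel₀ _ hrk]
      _ ≤ C * r * (‖b0‖ / r) ^ (k + 1) := by
          gcongr
          exact hC k
  have hli : ∀ n : ℕ, 1 ≤ n → li n = -((Z.map (fun b => (b⁻¹) ^ n)).sum).re + (cf g (n - 1)).re := by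
    intro n hn
    obtain ⟨k, rfl⟩ : ∃ k, n = k + 1 := ⟨n - 1, by omega⟩
    rw [li_cf, Nat.add_sub_cancel]
    have h1 : phi =ᶠ[𝓝 0] fun z => (Z.map (fun b => z - b)).prod * g z := by
      filter_upwards [isOpen_ball.mem_nhds (mem_ball_self (x := (0 : ℂ)) (hr0.trans hr1'))] with z hz
      exact hfac z hz
    rw [cf_congr h1, (cf_prod Z hZ0 hga hg0 k).1, Complex.add_re, Complex.neg_re]
  obtain ⟨m, ω, C', q, hq0, hq1, hω, hfin⟩ := dom Z hR0 hmin' ⟨b0, hb0, rfl⟩ li _ hsm hli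
  refine ⟨m, ω, ‖b0‖, C', q, hR0, hRr.trans hr1, hq0, hq1, fun i => ?_, hfin⟩
  obtain ⟨b, hb, hbn, hbω⟩ := hω i
  constructor
  · rw [hbω, norm_mul, norm_inv, hbn, Complex.norm_real, norm_norm, mul_inv_cancel₀ hR0.ne']
  · intro h1
    rw [hbω] at h1
    have hb1 : b = (‖b0‖ : ℂ) := by
      have := hZ0 b hb
      field_simp at h1
      exact h1.symm
    have h2 := (hZ b hb).2
    rw [hb1] at h2
    exact phi_ne_zero_real hR0 (hRr.trans hr1) h2

end Run7.h278.LI
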